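import Pool.Agent.TwoWalks.Chain

/-! Existence of the walks (Ionescu-Tulcea). -/

open MeasureTheory ProbabilityTheory Filter Topology Finset Preorder

namespace TwoWalks

section

variable {S : Type} [Fintype S]

/-- One step law. -/
noncomputable def rowM (f : S → ℝ) : @Measure S ⊤ :=
  letI : MeasurableSpace S := ⊤
  ∑ s, ENNReal.ofReal (f s) • Measure.dirac s

lemma rowM_single (f : S → ℝ) (s : S) : rowM f {s} = ENNReal.ofReal (f s) := by
  classical
  letI : MeasurableSpace S := ⊤
  unfold rowM
  simp only [Measure.coe_finsetSum, Measure.coe_smul, Finset.sum_apply, Pi.smul_apply,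
    smul_eq_mul]
  rw [Finset.sum_eq_single s]
  · simp
  · intro b _ hb
    rw [Measure.dirac_apply]
    simp [hb]
  · simp

lemma rowM_prob (f : S → ℝ) (h0 : ∀ s, 0 ≤ f s) (h1 : ∑ s, f s = 1) :
    @IsProbabilityMeasure S ⊤ (rowM f) := by
  letI : MeasurableSpace S := ⊤
  constructor
  unfold rowM
  simp only [Measure.coe_finsetSum, Measure.coe_smul, Finset.sum_apply, Pi.smul_apply,
    smul_eq_mul, measure_univ, mul_one]
  rw [← ENNReal.ofReal_sum_of_nonneg (fun s _ => h0 s), h1, ENNReal.ofReal_one]

theorem exists_chain (μ : S → ℝ) (K : S → S → ℝ) (h : IsChain μ K) :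
    ∃ (Ω : Type) (_ : MeasurableSpace Ω) (P : Measure Ω) (W : ℕ → Ω → S),
      IsProbabilityMeasure P ∧ (∀ t s, MeasurableSet {ω | W t ω = s}) ∧
      ∀ (t : ℕ) (a : ℕ → S), P {ω | ∀ s ≤ t, W s ω = a s} =
        ENNReal.ofReal (μ (a 0) * ∏ s ∈ Finset.range t, K (a s) (a (s + 1))) := by
  letI mS : MeasurableSpace S := ⊤
  haveI : DiscreteMeasurableSpace S := ⟨fun _ => trivial⟩
  let κ : (n : ℕ) → Kernel (Π _ : Iic n, S) S := fun n =>
    { toFun := fun x => rowM (K (x ⟨n, by simp⟩))
      measurable' := Measurable.of_discrete }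
  haveI hκ : ∀ n, IsMarkovKernel (κ n) := fun n =>
    ⟨fun x => rowM_prob _ (h.K_nonneg _) (h.K_sum _)⟩
  haveI hμ : IsProbabilityMeasure (rowM μ) := rowM_prob _ h.μ_nonneg h.μ_sum
  let P : Measure (ℕ → S) := Kernel.trajMeasure (X := fun _ => S) (rowM μ) κ
  refine ⟨ℕ → S, inferInstance, P, fun t ω => ω t, inferInstance, ?_, ?_⟩
  · intro t s
    have hm : Measurable (fun ω : ℕ → S => ω t) := measurable_pi_apply t
    exact hm (MeasurableSet.of_discrete (s := ({s} : Set S)))
  · intro t a
    induction t with
    | zero =>
      have e1 : {ω : ℕ → S | ∀ s ≤ 0, ω s = a s} =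
          (frestrictLe (π := fun _ => S) 0) ⁻¹' ({fun _ : Iic 0 => a 0} : Set (Iic 0 → S)) := by
        ext ω
        simp only [Set.mem_ofPred_eq, Set.mem_preimage, Set.mem_singleton_iff]
        constructor
        · intro h'
          funext i
          have : (i : ℕ) = 0 := Nat.le_zero.1 (Finset.mem_Iic.1 i.2)
          rw [frestrictLe_apply, this]
          exact h' 0 le_rfl
        · intro h' s hs
          have hs0 : s = 0 := by omega
          subst hs0
          have := congrFun h' (⟨0, by simp⟩ : Iic 0)
          simpa using this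
      rw [e1, ← Measure.map_apply (measurable_frestrictLe 0) MeasurableSet.of_discrete]
      have e2 : P.map (frestrictLe (π := fun _ => S) 0) =
          (rowM μ).map (MeasurableEquiv.piUnique (fun _ : Iic 0 => S)).symm := by
        change (Kernel.trajMeasure (X := fun _ => S) (rowM μ) κ).map _ = _
        unfold Kernel.trajMeasure
        rw [Measure.map_comp _ _ (measurable_frestrictLe 0), Kernel.traj_map_frestrictLe,
          Kernel.partialTraj_self]
        exact Measure.id_comp
      rw [e2, Measure.map_apply (by fun_prop) MeasurableSet.of_discrete]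
      have e3 : (MeasurableEquiv.piUnique (fun _ : Iic 0 => S)).symm ⁻¹' ({fun _ : Iic 0 => a 0} : Set (Iic 0 → S)) =
          {a 0} := by
        ext s
        simp only [Set.mem_preimage, Set.mem_singleton_iff]
        constructor
        · intro h'
          have := congrFun h' (⟨0, by simp⟩ : Iic 0)
          simpa using this
        · intro h'
          rw [h']
          funext i
          have : i = default := Subsingleton.elim _ _
          rw [this]
          rfl
      rw [e3, rowM_single]
      simp
    | succ t ih =>
      have e1 : {ω : ℕ → S | ∀ s ≤ t + 1, ω s = a s} =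
          (fun x : ℕ → S => (frestrictLe (π := fun _ => S) t x, x (t + 1))) ⁻¹'
            (({fun i : Iic t => a i} : Set (Iic t → S)) ×ˢ ({a (t + 1)} : Set S)) := by
        ext ω
        simp only [Set.mem_ofPred_eq, Set.mem_preimage, Set.mem_prod, Set.mem_singleton_iff]
        constructor
        · intro h'
          refine ⟨?_, h' (t + 1) le_rfl⟩
          funext i
          have : (i : ℕ) ≤ t := Finset.mem_Iic.1 i.2
          rw [frestrictLe_apply]
          exact h' i (by omega)
        · rintro ⟨h1, h2⟩ s hs
          rcases Nat.lt_or_ge t s with h' | h'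
          · have : s = t + 1 := by omega
            rw [this]; exact h2
          · have := congrFun h1 (⟨s, by simpa using h'⟩ : Iic t)
            simpa using this
      have e0 : {ω : ℕ → S | ∀ s ≤ t, ω s = a s} =
          (frestrictLe (π := fun _ => S) t) ⁻¹' ({fun i : Iic t => a i} : Set (Iic t → S)) := by
        ext ω
        simp only [Set.mem_ofPred_eq, Set.mem_preimage, Set.mem_singleton_iff]
        constructor
        · intro h'
          funext i
          have : (i : ℕ) ≤ t := Finset.mem_Iic.1 i.2
          rw [frestrictLe_apply]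
          exact h' i (by omega)
        · intro h1 s hs
          have := congrFun h1 (⟨s, by simpa using hs⟩ : Iic t)
          simpa using this
      have hm : Measurable (fun x : ℕ → S => (frestrictLe (π := fun _ => S) t x, x (t + 1))) := by
        fun_prop
      rw [e1, ← Measure.map_apply hm ((MeasurableSet.of_discrete).prod MeasurableSet.of_discrete)]
      have e2 := Kernel.map_frestrictLe_trajMeasure_compProd_eq_map_trajMeasure
        (X := fun _ => S) (μ₀ := rowM μ) (κ := κ) (a := t)
      rw [← e2, Measure.compProd_apply_prod MeasurableSet.of_discrete MeasurableSet.of_discrete,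
        lintegral_singleton]
      rw [Measure.map_apply (measurable_frestrictLe t) MeasurableSet.of_discrete, ← e0]
      have e3 : κ t (fun i => a i) {a (t + 1)} = ENNReal.ofReal (K (a t) (a (t + 1))) := by
        change rowM (K (a t)) {a (t + 1)} = _
        rw [rowM_single]
      rw [e3, ih, ← ENNReal.ofReal_mul (h.K_nonneg _ _), Finset.prod_range_succ]
      congr 1
      ring

end

/-- The two walks exist. -/
theorem exists_twoWalks {M r : ℕ} (hM : 0 < M) (hr : 0 < r) :
    ∃ (Ω : Type) (_ : MeasurableSpace Ω) (P : Measure Ω) (X : Bool → ℕ → Ω → VV M r)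
      (ξ : ℕ → Ω → Bool), IsProbabilityMeasure P ∧ IsTwoWalks (GG M r) P X ξ := by
  obtain ⟨Ω, mΩ, P, W, hP, hmeas, hlaw⟩ := exists_chain (S := SS M r) mu0 KK (isChain_KK hM hr)
  have hm1 : ∀ (t : ℕ) (A : Set (SS M r)), MeasurableSet {ω | W t ω ∈ A} := by
    intro t A
    have : {ω | W t ω ∈ A} = ⋃ s ∈ A, {ω | W t ω = s} := by
      ext ω; simp
    rw [this]
    exact MeasurableSet.biUnion (Set.to_countable A) fun s _ => hmeas t s
  refine ⟨Ω, mΩ, P, fun i t ω => if i then (W t ω).2.1 else (W t ω).1, fun t ω => (W t ω).2.2,
    hP, ?_, ?_, ?_⟩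
  · intro i t v
    cases i
    · exact hm1 t {s | s.1 = v}
    · exact hm1 t {s | s.2.1 = v}
  · intro t b
    exact hm1 t {s | s.2.2 = b}
  · intro t a b e
    have h1 := hlaw t (fun s => (a s, b s, e s))
    have h2 : {ω | ∀ s ≤ t, (if false = true then (W s ω).2.1 else (W s ω).1) = a s ∧
        (if true = true then (W s ω).2.1 else (W s ω).1) = b s ∧ (W s ω).2.2 = e s} =
        {ω | ∀ s ≤ t, W s ω = (a s, b s, e s)} := by
      ext ω
      simp only [Set.mem_ofPred_eq]
      constructor
      · intro h s hs
        obtain ⟨x, y, z⟩ := h s hs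
        simp only [Bool.false_eq_true, if_false, if_true] at x y z
        rw [← x, ← y, ← z]
      · intro h s hs
        rw [h s hs]
        simp
    rw [h2, h1]
    congr 1
    unfold mu0 KK
    simp only [lazyKernel_GG]
    rw [Finset.prod_mul_distrib, Finset.prod_mul_distrib, Finset.prod_const, Finset.card_range]
    ring

end TwoWalks
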