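import Pool.Agent.TwoWalks.Defs

/-! The graph: two copies of a complete graph on `M × r` vertices, loosely joined by complete
bipartite graphs between corresponding columns. -/

namespace TwoWalks

/-- The vertex set: half, column, place in the column. -/
abbrev VV (M r : ℕ) : Type := Bool × Fin M × Fin r

/-- The graph. -/
def GG (M r : ℕ) : SimpleGraph (VV M r) where
  Adj x y := x ≠ y ∧ (x.1 = y.1 ∨ x.2.1 = y.2.1)
  symm := ⟨fun _ _ h => ⟨h.1.symm, h.2.imp Eq.symm Eq.symm⟩⟩
  loopless := ⟨fun _ h => h.1 rfl⟩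

variable {M r : ℕ}

lemma GG_adj (x y : VV M r) : (GG M r).Adj x y ↔ x ≠ y ∧ (x.1 = y.1 ∨ x.2.1 = y.2.1) := Iff.rfl

/-- degree over two: `c = 1 / (2 d)`, `d = M r - 1 + r`. -/
noncomputable def cc (M r : ℕ) : ℝ := 1 / (2 * ((M : ℝ) * r - 1 + r))

lemma card_VV : Fintype.card (VV M r) = 2 * (M * r) := by simp

open Classical in
lemma degree_GG (x : VV M r) : ((GG M r).degree x : ℝ) = (M : ℝ) * r - 1 + r := by
  have h1 : (GG M r).neighborFinset x =
      ((Finset.univ.filter fun y : VV M r => y.1 = x.1).erase x) ∪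
      (Finset.univ.filter fun y : VV M r => y.1 = !x.1 ∧ y.2.1 = x.2.1) := by
    ext y
    simp only [SimpleGraph.mem_neighborFinset, GG_adj, Finset.mem_union, Finset.mem_erase,
      Finset.mem_filter, Finset.mem_univ, true_and]
    constructor
    · rintro ⟨h1, h2⟩
      by_cases h3 : y.1 = x.1
      · left; exact ⟨fun h => h1 h.symm, h3⟩
      · right
        refine ⟨?_, ?_⟩
        · cases hy : y.1 <;> cases hx : x.1 <;> simp_all
        · rcases h2 with h2 | h2
          · exact absurd h2.symm h3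
          · exact h2.symm
    · rintro (⟨h1, h2⟩ | ⟨h1, h2⟩)
      · exact ⟨fun h => h1 h.symm, Or.inl h2.symm⟩
      · refine ⟨?_, Or.inr h2.symm⟩
        rintro rfl
        cases hx : x.1 <;> simp_all
  have h2 : Disjoint ((Finset.univ.filter fun y : VV M r => y.1 = x.1).erase x)
      (Finset.univ.filter fun y : VV M r => y.1 = !x.1 ∧ y.2.1 = x.2.1) := by
    rw [Finset.disjoint_left]
    intro y hy hy'
    simp only [Finset.mem_erase, Finset.mem_filter, Finset.mem_univ, true_and] at hy hy'
    have h5 := hy.2.symm.trans hy'.1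
    revert h5
    cases x.1 <;> simp
  have h3 : (Finset.univ.filter fun y : VV M r => y.1 = x.1).card = M * r := by
    have : (Finset.univ.filter fun y : VV M r => y.1 = x.1) =
        Finset.univ.image (fun z : Fin M × Fin r => ((x.1, z) : VV M r)) := by
      ext y
      simp only [Finset.mem_filter, Finset.mem_univ, true_and, Finset.mem_image]
      constructor
      · intro h; exact ⟨y.2, by rw [← h]⟩
      · rintro ⟨z, rfl⟩; rfl
    rw [this, Finset.card_image_of_injective]
    · simp
    · intro a b h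
      exact (Prod.mk.inj h).2
  have h4 : (Finset.univ.filter fun y : VV M r => y.1 = !x.1 ∧ y.2.1 = x.2.1).card = r := by
    have : (Finset.univ.filter fun y : VV M r => y.1 = !x.1 ∧ y.2.1 = x.2.1) =
        Finset.univ.image (fun j : Fin r => ((!x.1, x.2.1, j) : VV M r)) := by
      ext y
      simp only [Finset.mem_filter, Finset.mem_univ, true_and, Finset.mem_image]
      constructor
      · rintro ⟨h1, h2⟩; exact ⟨y.2.2, by rw [← h1, ← h2]⟩
      · rintro ⟨z, rfl⟩; exact ⟨rfl, rfl⟩
    rw [this, Finset.card_image_of_injective]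
    · simp
    · intro a b h
      exact (Prod.mk.inj (Prod.mk.inj h).2).2
  have h5 : ((Finset.univ.filter fun y : VV M r => y.1 = x.1).erase x).card + 1 = M * r := by
    rw [Finset.card_erase_add_one (by simp), h3]
  rw [← SimpleGraph.card_neighborFinset_eq_degree, h1, Finset.card_union_of_disjoint h2, h4]
  push_cast
  have h7 : ((((Finset.univ.filter fun y : VV M r => y.1 = x.1).erase x).card : ℝ)) + 1 =
      (M : ℝ) * r := by exact_mod_cast h5
  linarith

/-- The explicit kernel. -/
noncomputable def pk (x y : VV M r) : ℝ :=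
  if x = y then 1 / 2 else if x.1 = y.1 ∨ x.2.1 = y.2.1 then cc M r else 0

lemma lazyKernel_GG (x y : VV M r) : lazyKernel (GG M r) x y = pk x y := by
  unfold lazyKernel pk
  by_cases h : x = y
  · simp [h]
  · rw [if_neg h, if_neg h]
    have h1 : (GG M r).Adj x y ↔ x.1 = y.1 ∨ x.2.1 = y.2.1 := by
      rw [GG_adj]; simp [h]
    by_cases h2 : x.1 = y.1 ∨ x.2.1 = y.2.1
    · rw [if_pos (h1.2 h2), if_pos h2, degree_GG]; rfl
    · rw [if_neg (fun h => h2 (h1.1 h)), if_neg h2]

lemma pk_sum (x : VV M r) (f : VV M r → ℝ) :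
    ∑ y, pk x y * f y = (1 / 2 - cc M r) * f x + cc M r * ∑ z : Fin M × Fin r, f (x.1, z) +
      cc M r * ∑ j : Fin r, f (!x.1, x.2.1, j) := by
  have h1 : ∀ y : VV M r, pk x y * f y = (if y = x then (1 / 2 - cc M r) * f x else 0) +
      (if y.1 = x.1 then cc M r * f y else 0) +
      (if y.1 = !x.1 then (if y.2.1 = x.2.1 then cc M r * f y else 0) else 0) := by
    intro y
    unfold pk
    by_cases h : y = x
    · subst h; simp; ring
    · have h' : ¬ x = y := fun e => h e.symm
      rw [if_neg h', if_neg h]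
      by_cases h2 : y.1 = x.1
      · have h3 : ¬ (y.1 = !x.1) := by rw [h2]; cases x.1 <;> simp
        rw [if_pos (Or.inl h2.symm), if_pos h2, if_neg h3]; ring
      · have h3 : y.1 = !x.1 := by
          cases hy : y.1 <;> cases hx : x.1 <;> simp_all
        rw [if_neg h2, if_pos h3]
        by_cases h4 : y.2.1 = x.2.1
        · rw [if_pos (Or.inr h4.symm), if_pos h4]; ring
        · rw [if_neg, if_neg h4]
          · ring
          · rintro (h5 | h5)
            · exact h2 h5.symm
            · exact h4 h5.symm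
  simp_rw [h1]
  rw [Finset.sum_add_distrib, Finset.sum_add_distrib]
  congr 1
  · congr 1
    · simp
    · rw [Fintype.sum_prod_type, Finset.sum_eq_single x.1]
      · simp [Finset.mul_sum]
      · intro b _ hb; simp [hb]
      · simp
  · rw [Fintype.sum_prod_type, Finset.sum_eq_single (!x.1)]
    · simp only [if_true]
      rw [Fintype.sum_prod_type, Finset.sum_eq_single x.2.1]
      · simp [Finset.mul_sum]
      · intro b _ hb; simp [hb]
      · simp
    · intro b _ hb; simp [hb]
    · simp

/-- The flip probability of a half. -/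
noncomputable def qq (M r : ℕ) : ℝ := r * cc M r

lemma cc_pos (hM : 0 < M) (hr : 0 < r) : 0 < cc M r := by
  unfold cc
  have h1 : (1 : ℝ) ≤ M := by exact_mod_cast hM
  have h2 : (1 : ℝ) ≤ r := by exact_mod_cast hr
  have h3 : (1 : ℝ) ≤ M * r := by nlinarith
  apply div_pos one_pos
  linarith

lemma cc_rel (hM : 0 < M) (hr : 0 < r) : cc M r * ((M : ℝ) * r - 1 + r) = 1 / 2 := by
  unfold cc
  have h1 : (1 : ℝ) ≤ M := by exact_mod_cast hM
  have h2 : (1 : ℝ) ≤ r := by exact_mod_cast hr
  have h3 : (1 : ℝ) ≤ M * r := by nlinarith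
  have h4 : (M : ℝ) * r - 1 + r ≠ 0 := by linarith
  field_simp

lemma pk_nonneg (hM : 0 < M) (hr : 0 < r) (x y : VV M r) : 0 ≤ pk x y := by
  unfold pk
  have := cc_pos hM hr
  split_ifs <;> linarith

lemma pk_symm (x y : VV M r) : pk x y = pk y x := by
  unfold pk
  by_cases h : x = y
  · simp [h]
  · have h' : ¬ y = x := fun e => h e.symm
    rw [if_neg h, if_neg h']
    have h2 : (x.1 = y.1 ∨ x.2.1 = y.2.1) ↔ (y.1 = x.1 ∨ y.2.1 = x.2.1) := by
      constructor <;> exact fun h => h.imp Eq.symm Eq.symm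
    simp only [h2]

lemma pk_row (hM : 0 < M) (hr : 0 < r) (x : VV M r) : ∑ y, pk x y = 1 := by
  have h := pk_sum x (fun _ => 1)
  simp only [mul_one, Finset.sum_const, Finset.card_univ, Fintype.card_prod, Fintype.card_fin,
    nsmul_eq_mul] at h
  rw [h]
  have := cc_rel hM hr
  push_cast
  linarith

/-- The sign of the half. -/
def sg (x : VV M r) : ℝ := if x.1 then -1 else 1

lemma sg_cases (x : VV M r) : sg x = 1 ∨ sg x = -1 := by
  unfold sg; split_ifs <;> simp

lemma sg_sq (x : VV M r) : sg x ^ 2 = 1 := by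
  rcases sg_cases x with h | h <;> rw [h] <;> norm_num

/-- One step of the sign of a walk. -/
lemma pk_sum_sg (hM : 0 < M) (hr : 0 < r) (x : VV M r) (F : ℝ → ℝ) :
    ∑ y, pk x y * F (sg y) = (1 - qq M r) * F (sg x) + qq M r * F (- sg x) := by
  rw [pk_sum]
  have h1 : ∀ z : Fin M × Fin r, sg ((x.1, z) : VV M r) = sg x := fun z => rfl
  have h2 : ∀ j : Fin r, sg ((!x.1, x.2.1, j) : VV M r) = - sg x := by
    intro j
    unfold sg
    cases x.1 <;> simp
  simp only [h1, h2, Finset.sum_const, Finset.card_univ, Fintype.card_prod, Fintype.card_fin,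
    nsmul_eq_mul]
  have := cc_rel hM hr
  unfold qq
  push_cast
  linear_combination F (sg x) * this

lemma GG_transitive : VertexTransitive (GG M r) := by
  intro x y
  let e : VV M r ≃ VV M r :=
    (Equiv.prodCongr (Equiv.swap x.1 y.1) (Equiv.prodCongr (Equiv.swap x.2.1 y.2.1)
      (Equiv.swap x.2.2 y.2.2)))
  refine ⟨⟨e, ?_⟩, ?_⟩
  · intro a b
    simp only [GG_adj]
    have h1 : e a ≠ e b ↔ a ≠ b := by simp
    have h2 : (e a).1 = (e b).1 ↔ a.1 = b.1 := by simp [e]
    have h3 : (e a).2.1 = (e b).2.1 ↔ a.2.1 = b.2.1 := by simp [e]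
    rw [h1, h2, h3]
  · change e x = y
    obtain ⟨a, b, c⟩ := x
    obtain ⟨a', b', c'⟩ := y
    simp [e]

lemma GG_connected (hM : 0 < M) (hr : 0 < r) : (GG M r).Connected := by
  have hne : Nonempty (VV M r) := ⟨(true, ⟨0, hM⟩, ⟨0, hr⟩)⟩
  rw [SimpleGraph.connected_iff]
  refine ⟨?_, hne⟩
  -- every vertex is reachable from every vertex
  have key : ∀ x y : VV M r, (x.1 = y.1 ∨ x.2.1 = y.2.1) → (GG M r).Reachable x y := by
    intro x y h
    by_cases hxy : x = y
    · subst hxy; exact SimpleGraph.Reachable.refl _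
    · exact SimpleGraph.Adj.reachable ⟨hxy, h⟩
  intro x y
  exact (key x (x.1, y.2) (Or.inl rfl)).trans (key (x.1, y.2) y (Or.inr rfl))

end TwoWalks
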