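import Pool.Agent.TwoWalks.Exp
import Pool.Agent.TwoWalks.Graph

/-! The chain of the two walks and the coin; signs. -/

namespace TwoWalks

variable {M r : ℕ}

/-- State of the pair chain: the two positions and the coin. -/
abbrev SS (M r : ℕ) : Type := VV M r × VV M r × Bool

/-- Transition matrix. -/
noncomputable def KK (s s' : SS M r) : ℝ := pk s.1 s'.1 * pk s.2.1 s'.2.1 * (1 / 2)

/-- Initial law. -/
noncomputable def mu0 (_ : SS M r) : ℝ :=
  1 / (Fintype.card (VV M r) : ℝ) * (1 / (Fintype.card (VV M r) : ℝ)) * (1 / 2)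

lemma step_KK (s : SS M r) (f : SS M r → ℝ) :
    step KK s f = ∑ x, pk s.1 x * ∑ y, pk s.2.1 y * ((f (x, y, true) + f (x, y, false)) / 2) := by
  rw [step_apply, Fintype.sum_prod_type]
  apply Finset.sum_congr rfl
  intro x _
  rw [Fintype.sum_prod_type, Finset.mul_sum]
  apply Finset.sum_congr rfl
  intro y _
  rw [Fintype.sum_bool]
  unfold KK
  ring

lemma isChain_KK (hM : 0 < M) (hr : 0 < r) : IsChain (mu0 (M := M) (r := r)) KK where
  μ_nonneg s := by unfold mu0; positivity
  μ_sum := by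
    unfold mu0
    rw [Finset.sum_const, Finset.card_univ]
    simp only [Fintype.card_prod, Fintype.card_bool, Fintype.card_fin, nsmul_eq_mul]
    have h1 : (M : ℝ) ≠ 0 := by positivity
    have h2 : (r : ℝ) ≠ 0 := by positivity
    push_cast
    field_simp
  K_nonneg s s' := by
    unfold KK
    have := pk_nonneg hM hr s.1 s'.1
    have := pk_nonneg hM hr s.2.1 s'.2.1
    positivity
  K_sum s := by
    have h := step_KK s (fun _ => 1)
    rw [step_apply] at h
    simp only [mul_one] at h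
    rw [h]
    have : ((1 : ℝ) + 1) / 2 = 1 := by norm_num
    simp only [this, mul_one, pk_row hM hr]

/-- `y`, half the sum of the signs. -/
noncomputable def yy (s : SS M r) : ℝ := (sg s.1 + sg s.2.1) / 2

/-- `z`, half the difference of the signs. -/
noncomputable def zz (s : SS M r) : ℝ := (sg s.1 - sg s.2.1) / 2

lemma yy_zz (s : SS M r) : yy s * zz s = 0 := by
  unfold yy zz
  rcases sg_cases s.1 with h | h <;> rcases sg_cases s.2.1 with h' | h' <;> rw [h, h'] <;> norm_num

lemma abs_yy (s : SS M r) : |yy s| ≤ 1 := by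
  unfold yy
  rcases sg_cases s.1 with h | h <;> rcases sg_cases s.2.1 with h' | h' <;> rw [h, h'] <;> norm_num

lemma abs_zz (s : SS M r) : |zz s| ≤ 1 := by
  unfold zz
  rcases sg_cases s.1 with h | h <;> rcases sg_cases s.2.1 with h' | h' <;> rw [h, h'] <;> norm_num

lemma yy_sq_add_zz_sq (s : SS M r) : yy s ^ 2 + zz s ^ 2 = 1 := by
  unfold yy zz
  rcases sg_cases s.1 with h | h <;> rcases sg_cases s.2.1 with h' | h' <;> rw [h, h'] <;> norm_num

/-- Martingale increment of `y`. -/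
noncomputable def dp (s' s : SS M r) : ℝ := yy s' - (1 - 2 * qq M r) * yy s

/-- Martingale increment of `z`. -/
noncomputable def dm (s' s : SS M r) : ℝ := zz s' - (1 - 2 * qq M r) * zz s

/-- The conditional variance. -/
noncomputable def ww (M r : ℕ) : ℝ := 2 * qq M r * (1 - qq M r)

lemma step_sg (hM : 0 < M) (hr : 0 < r) (s : SS M r) (F : ℝ → ℝ → ℝ) :
    step KK s (fun s' => F (sg s'.1) (sg s'.2.1)) =
      (1 - qq M r) * ((1 - qq M r) * F (sg s.1) (sg s.2.1) + qq M r * F (sg s.1) (- sg s.2.1)) +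
      qq M r * ((1 - qq M r) * F (- sg s.1) (sg s.2.1) + qq M r * F (- sg s.1) (- sg s.2.1)) := by
  rw [step_KK]
  have h1 : ∀ x : VV M r, ∑ y, pk s.2.1 y * ((F (sg x) (sg y) + F (sg x) (sg y)) / 2) =
      (1 - qq M r) * F (sg x) (sg s.2.1) + qq M r * F (sg x) (- sg s.2.1) := by
    intro x
    have := pk_sum_sg hM hr s.2.1 (F (sg x))
    rw [← this]
    apply Finset.sum_congr rfl
    intro y _
    ring
  simp only [h1]
  exact pk_sum_sg hM hr s.1 (fun t => (1 - qq M r) * F t (sg s.2.1) + qq M r * F t (- sg s.2.1))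

lemma step_dp (hM : 0 < M) (hr : 0 < r) (s : SS M r) : step KK s (fun s' => dp s' s) = 0 := by
  have h := step_sg hM hr s (fun a b => (a + b) / 2 - (1 - 2 * qq M r) * yy s)
  unfold dp
  unfold yy at h ⊢
  rw [h]; ring

lemma step_dm (hM : 0 < M) (hr : 0 < r) (s : SS M r) : step KK s (fun s' => dm s' s) = 0 := by
  have h := step_sg hM hr s (fun a b => (a - b) / 2 - (1 - 2 * qq M r) * zz s)
  unfold dm
  unfold zz at h ⊢
  rw [h]; ring

lemma step_dp_sq (hM : 0 < M) (hr : 0 < r) (s : SS M r) :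
    step KK s (fun s' => dp s' s ^ 2) = ww M r := by
  have h := step_sg hM hr s (fun a b => ((a + b) / 2 - (1 - 2 * qq M r) * yy s) ^ 2)
  unfold dp ww
  unfold yy at h ⊢
  rw [h]
  rcases sg_cases s.1 with h | h <;> rcases sg_cases s.2.1 with h' | h' <;> rw [h, h'] <;> ring

lemma step_dm_sq (hM : 0 < M) (hr : 0 < r) (s : SS M r) :
    step KK s (fun s' => dm s' s ^ 2) = ww M r := by
  have h := step_sg hM hr s (fun a b => ((a - b) / 2 - (1 - 2 * qq M r) * zz s) ^ 2)
  unfold dm ww
  unfold zz at h ⊢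
  rw [h]
  rcases sg_cases s.1 with h | h <;> rcases sg_cases s.2.1 with h' | h' <;> rw [h, h'] <;> ring

lemma step_dp_dm (hM : 0 < M) (hr : 0 < r) (s : SS M r) :
    step KK s (fun s' => dp s' s * dm s' s) = 0 := by
  have h := step_sg hM hr s (fun a b => ((a + b) / 2 - (1 - 2 * qq M r) * yy s) *
    ((a - b) / 2 - (1 - 2 * qq M r) * zz s))
  unfold dp dm
  unfold yy zz at h ⊢
  rw [h]
  rcases sg_cases s.1 with h | h <;> rcases sg_cases s.2.1 with h' | h' <;> rw [h, h'] <;> ring

lemma qq_pos (hM : 0 < M) (hr : 0 < r) : 0 < qq M r := by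
  unfold qq
  have := cc_pos hM hr
  positivity

lemma qq_le_half (hM : 0 < M) (hr : 0 < r) : qq M r ≤ 1 / 2 := by
  unfold qq
  have h0 := cc_pos hM hr
  have h := cc_rel hM hr
  have h1 : (1 : ℝ) ≤ M := by exact_mod_cast hM
  have h2 : (1 : ℝ) ≤ r := by exact_mod_cast hr
  nlinarith [mul_nonneg (sub_nonneg.2 h1) (sub_nonneg.2 h2)]

lemma abs_dp (hM : 0 < M) (hr : 0 < r) (s' s : SS M r) : |dp s' s| ≤ 2 := by
  unfold dp
  have h1 := abs_yy s'
  have h2 := abs_yy s
  have h3 := qq_pos hM hr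
  have h4 := qq_le_half hM hr
  rw [abs_le] at *
  constructor <;> nlinarith

lemma abs_dm (hM : 0 < M) (hr : 0 < r) (s' s : SS M r) : |dm s' s| ≤ 2 := by
  unfold dm
  have h1 := abs_zz s'
  have h2 := abs_zz s
  have h3 := qq_pos hM hr
  have h4 := qq_le_half hM hr
  rw [abs_le] at *
  constructor <;> nlinarith

lemma ww_pos (hM : 0 < M) (hr : 0 < r) : 0 < ww M r := by
  unfold ww
  have h3 := qq_pos hM hr
  have h4 := qq_le_half hM hr
  have : 0 < 1 - qq M r := by linarith
  positivity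

lemma ww_le (hM : 0 < M) (hr : 0 < r) : ww M r ≤ 2 * qq M r := by
  unfold ww
  have h3 := qq_pos hM hr
  nlinarith

lemma le_ww (hM : 0 < M) (hr : 0 < r) : qq M r ≤ ww M r := by
  unfold ww
  have h3 := qq_pos hM hr
  have h4 := qq_le_half hM hr
  nlinarith

end TwoWalks
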