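import Pool.Agent.TwoWalks.Chain

/-! Heat kernel bounds for the graph. -/

namespace TwoWalks

variable {M r : ℕ}

lemma kp_zero (x y : VV M r) : kernelPow (GG M r) 0 x y = if x = y then 1 else 0 := by
  by_cases h : x = y <;> simp [kernelPow, h]

lemma kp_succ (t : ℕ) (x y : VV M r) : kernelPow (GG M r) (t + 1) x y =
    ∑ z, pk x z * kernelPow (GG M r) t z y := by
  simp only [kernelPow, lazyKernel_GG]

lemma kp_succ' (t : ℕ) (x y : VV M r) : kernelPow (GG M r) (t + 1) x y =
    (1 / 2 - cc M r) * kernelPow (GG M r) t x y +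
      cc M r * ∑ z : Fin M × Fin r, kernelPow (GG M r) t (x.1, z) y +
      cc M r * ∑ j : Fin r, kernelPow (GG M r) t (!x.1, x.2.1, j) y := by
  rw [kp_succ, pk_sum]

/-- The part of the kernel that has not mixed within the half. -/
noncomputable def Qt : ℕ → VV M r → VV M r → ℝ
  | 0, x, y => if x = y then 1 else 0
  | t + 1, x, y => (1 / 2 - cc M r) * Qt t x y + cc M r * ∑ j : Fin r, Qt t (!x.1, x.2.1, j) y

/-- The mass of one step of `Qt`. -/
noncomputable def lam (M r : ℕ) : ℝ := 1 / 2 - cc M r + qq M r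

lemma sum_flip (F : VV M r → ℝ) : ∑ x : VV M r, ∑ j : Fin r, F (!x.1, x.2.1, j) =
    r * ∑ x : VV M r, F x := by
  have h1 : ∀ a : Bool, ∑ z : Fin M × Fin r, ∑ j : Fin r, F (!a, z.1, j) =
      r * ∑ z : Fin M × Fin r, F (!a, z) := by
    intro a
    rw [Fintype.sum_prod_type, Fintype.sum_prod_type, Finset.mul_sum]
    apply Finset.sum_congr rfl
    intro i _
    simp
  rw [Fintype.sum_prod_type, Fintype.sum_prod_type]
  simp only [Fintype.sum_bool]
  rw [h1 true, h1 false]
  simp only [Bool.not_true, Bool.not_false]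
  ring

lemma sum_flip_half (a : Bool) (F : VV M r → ℝ) :
    ∑ z : Fin M × Fin r, ∑ j : Fin r, F (!a, z.1, j) = r * ∑ z : Fin M × Fin r, F (!a, z) := by
  rw [Fintype.sum_prod_type, Fintype.sum_prod_type, Finset.mul_sum]
  apply Finset.sum_congr rfl
  intro i _
  simp

section

variable (hM : 0 < M) (hr : 0 < r)
include hM hr

lemma half_sub_cc : 0 ≤ 1 / 2 - cc M r := by
  have h0 := cc_pos hM hr
  have h := cc_rel hM hr
  have h1 : (1 : ℝ) ≤ M := by exact_mod_cast hM
  have h2 : (1 : ℝ) ≤ r := by exact_mod_cast hr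
  nlinarith [mul_nonneg (sub_nonneg.2 h1) (sub_nonneg.2 h2)]

lemma Qt_nonneg (t : ℕ) (x y : VV M r) : 0 ≤ Qt t x y := by
  have h0 := cc_pos hM hr
  have h1 := half_sub_cc hM hr
  induction t generalizing x with
  | zero => unfold Qt; split_ifs <;> norm_num
  | succ t ih =>
    unfold Qt
    have := ih x
    have h2 : 0 ≤ ∑ j : Fin r, Qt t (!x.1, x.2.1, j) y := Finset.sum_nonneg fun j _ => ih _
    positivity

lemma lam_nonneg : 0 ≤ lam M r := by
  have h1 := half_sub_cc hM hr
  have h2 := qq_pos hM hr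
  unfold lam; linarith

omit hM hr in
lemma Qt_col (t : ℕ) (y : VV M r) : ∑ x, Qt t x y = lam M r ^ t := by
  induction t with
  | zero => simp [Qt]
  | succ t ih =>
    simp only [Qt]
    rw [Finset.sum_add_distrib, ← Finset.mul_sum, ← Finset.mul_sum, ih,
      sum_flip (fun x => Qt t x y), ih, pow_succ]
    unfold lam qq
    ring

lemma Qt_flip_le (t : ℕ) (x y : VV M r) :
    ∑ j : Fin r, Qt t (!x.1, x.2.1, j) y ≤ lam M r ^ t := by
  rw [← Qt_col t y, Fintype.sum_prod_type]
  have h1 : ∑ j : Fin r, Qt t (!x.1, x.2.1, j) y ≤ ∑ z : Fin M × Fin r, Qt t (!x.1, z) y := by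
    rw [Fintype.sum_prod_type]
    exact Finset.single_le_sum (f := fun i => ∑ j : Fin r, Qt t (!x.1, i, j) y)
      (fun i _ => Finset.sum_nonneg fun j _ => Qt_nonneg hM hr t _ _) (Finset.mem_univ x.2.1)
  refine h1.trans ?_
  exact Finset.single_le_sum (f := fun a : Bool => ∑ z : Fin M × Fin r, Qt t (a, z) y)
      (fun i _ => Finset.sum_nonneg fun j _ => Qt_nonneg hM hr t _ _) (Finset.mem_univ (!x.1))

lemma Qt_le (t : ℕ) {x y : VV M r} (hxy : x ≠ y) : Qt t x y ≤ lam M r ^ t / r := by
  have h0 := cc_pos hM hr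
  have h1 := half_sub_cc hM hr
  have hr0 : (0 : ℝ) < r := by exact_mod_cast hr
  induction t with
  | zero => simp only [Qt, if_neg hxy]; positivity
  | succ t ih =>
    simp only [Qt]
    have h2 := Qt_flip_le hM hr t x y
    have h3 := mul_le_mul_of_nonneg_left ih h1
    have h4 := mul_le_mul_of_nonneg_left h2 h0.le
    have h5 : lam M r ^ (t + 1) / r = (1 / 2 - cc M r) * (lam M r ^ t / r) +
        cc M r * lam M r ^ t := by
      rw [pow_succ]
      unfold lam qq
      field_simp
    rw [h5]
    linarith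

lemma kp_nonneg (t : ℕ) (x y : VV M r) : 0 ≤ kernelPow (GG M r) t x y := by
  induction t generalizing x with
  | zero => rw [kp_zero]; split_ifs <;> norm_num
  | succ t ih =>
    rw [kp_succ]
    exact Finset.sum_nonneg fun z _ => mul_nonneg (pk_nonneg hM hr _ _) (ih z)

lemma kp_col (t : ℕ) (y : VV M r) : ∑ x, kernelPow (GG M r) t x y = 1 := by
  induction t with
  | zero => simp [kp_zero]
  | succ t ih =>
    simp only [kp_succ]
    rw [Finset.sum_comm]
    have : ∀ z : VV M r, ∑ x, pk x z * kernelPow (GG M r) t z y = kernelPow (GG M r) t z y := by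
      intro z
      rw [← Finset.sum_mul]
      have : ∑ x, pk x z = 1 := by
        rw [← pk_row hM hr z]
        exact Finset.sum_congr rfl fun x _ => pk_symm x z
      rw [this, one_mul]
    simp_rw [this]
    exact ih

lemma kp_row (t : ℕ) (x : VV M r) : ∑ y, kernelPow (GG M r) t x y = 1 := by
  induction t generalizing x with
  | zero => simp [kp_zero]
  | succ t ih =>
    simp only [kp_succ]
    rw [Finset.sum_comm]
    simp_rw [← Finset.mul_sum, ih, mul_one]
    exact pk_row hM hr x

lemma kp_half_le (t : ℕ) (a : Bool) (y : VV M r) :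
    ∑ z : Fin M × Fin r, kernelPow (GG M r) t (a, z) y ≤ 1 := by
  rw [← kp_col hM hr t y, Fintype.sum_prod_type (f := fun x => kernelPow (GG M r) t x y)]
  exact Finset.single_le_sum (f := fun a : Bool => ∑ z : Fin M × Fin r,
      kernelPow (GG M r) t (a, z) y)
      (fun i _ => Finset.sum_nonneg fun j _ => kp_nonneg hM hr t _ _) (Finset.mem_univ a)

lemma kp_le (t : ℕ) (x y : VV M r) :
    kernelPow (GG M r) t x y ≤ 1 / ((M : ℝ) * r) + Qt t x y := by
  have h0 := cc_pos hM hr
  have h1 := half_sub_cc hM hr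
  have hr0 : (0 : ℝ) < r := by exact_mod_cast hr
  have hM0 : (0 : ℝ) < M := by exact_mod_cast hM
  induction t generalizing x with
  | zero =>
    simp only [kp_zero, Qt]
    have : 0 ≤ 1 / ((M : ℝ) * r) := by positivity
    linarith
  | succ t ih =>
    rw [kp_succ']
    simp only [Qt]
    have h2 := mul_le_mul_of_nonneg_left (ih x) h1
    have h3 := mul_le_mul_of_nonneg_left (kp_half_le hM hr t x.1 y) h0.le
    have h4 : ∑ j : Fin r, kernelPow (GG M r) t (!x.1, x.2.1, j) y ≤
        r * (1 / ((M : ℝ) * r)) + ∑ j : Fin r, Qt t (!x.1, x.2.1, j) y := by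
      refine (Finset.sum_le_sum fun j _ => ih _).trans ?_
      rw [Finset.sum_add_distrib]
      simp
    have h5 := mul_le_mul_of_nonneg_left h4 h0.le
    have hrel := cc_rel hM hr
    have h6 : 1 / ((M : ℝ) * r) = (1 / 2 - cc M r) * (1 / ((M : ℝ) * r)) + cc M r * 1 +
        cc M r * (r * (1 / ((M : ℝ) * r))) := by
      field_simp
      linear_combination (-2) * hrel
    nlinarith

lemma kp_half (t : ℕ) (a : Bool) (y : VV M r) :
    ∑ z : Fin M × Fin r, kernelPow (GG M r) t (a, z) y =
      (1 + (if y.1 = a then 1 else -1) * (1 - 2 * qq M r) ^ t) / 2 := by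
  have hrel := cc_rel hM hr
  induction t generalizing a with
  | zero =>
    simp only [kp_zero, pow_zero, mul_one]
    by_cases h : y.1 = a
    · have : ∀ z : Fin M × Fin r, (((a, z) : VV M r) = y) ↔ z = y.2 := by
        intro z
        constructor
        · intro e; rw [← e]
        · intro e; rw [e, ← h]
      simp [this, h]
    · have : ∀ z : Fin M × Fin r, ¬ (((a, z) : VV M r) = y) := by
        intro z e; apply h; rw [← e]
      simp [this, h]
  | succ t ih =>
    simp only [kp_succ']
    rw [Finset.sum_add_distrib, Finset.sum_add_distrib, ← Finset.mul_sum, ← Finset.mul_sum,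
      ← Finset.mul_sum, sum_flip_half a (fun x => kernelPow (GG M r) t x y), ih a, ih (!a)]
    have h1 : (if y.1 = !a then (1 : ℝ) else -1) = -(if y.1 = a then 1 else -1) := by
      cases y.1 <;> cases a <;> simp
    rw [h1]
    simp only [Finset.sum_const, Finset.card_univ, Fintype.card_prod, Fintype.card_fin,
      nsmul_eq_mul]
    push_cast
    rw [pow_succ]
    unfold qq
    generalize (if y.1 = a then (1 : ℝ) else -1) = e
    linear_combination (1 + e * (1 - 2 * (↑r * cc M r)) ^ t) / 2 * hrel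

/-- Difference from the two-block profile. -/
noncomputable def et (t : ℕ) (x y : VV M r) : ℝ :=
  kernelPow (GG M r) t x y - (1 + sg x * sg y * (1 - 2 * qq M r) ^ t) / (2 * ((M : ℝ) * r))

omit hM hr in
lemma sg_sg (x y : VV M r) : sg x * sg y = if y.1 = x.1 then 1 else -1 := by
  unfold sg
  cases x.1 <;> cases y.1 <;> norm_num

lemma et_half (t : ℕ) (x y : VV M r) :
    ∑ z : Fin M × Fin r, et t (x.1, z) y = 0 := by
  have hr0 : (0 : ℝ) < r := by exact_mod_cast hr
  have hM0 : (0 : ℝ) < M := by exact_mod_cast hM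
  unfold et
  rw [Finset.sum_sub_distrib, kp_half hM hr]
  have : ∀ z : Fin M × Fin r, sg ((x.1, z) : VV M r) * sg y = if y.1 = x.1 then 1 else -1 := by
    intro z; rw [sg_sg]
  simp only [this, Finset.sum_const, Finset.card_univ, Fintype.card_prod, Fintype.card_fin,
      nsmul_eq_mul]
  push_cast
  field_simp
  ring

lemma et_step (t : ℕ) (x y : VV M r) :
    et (t + 1) x y = (1 / 2 - cc M r) * et t x y +
      cc M r * ∑ j : Fin r, et t (!x.1, x.2.1, j) y := by
  have h1 : et (t + 1) x y = ∑ z, pk x z * et t z y := by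
    unfold et
    simp_rw [mul_sub]
    rw [Finset.sum_sub_distrib, kp_succ]
    congr 1
    rw [pk_sum_sg hM hr x (fun σ => (1 + σ * sg y * (1 - 2 * qq M r) ^ t) / (2 * ((M : ℝ) * r)))]
    rw [pow_succ]
    ring
  rw [h1, pk_sum, et_half hM hr]
  ring

lemma et_le (t : ℕ) (x y : VV M r) : |et t x y| ≤ lam M r ^ t := by
  have h0 := cc_pos hM hr
  have h1 := half_sub_cc hM hr
  have hr0 : (1 : ℝ) ≤ r := by exact_mod_cast hr
  have hM0 : (1 : ℝ) ≤ M := by exact_mod_cast hM
  induction t generalizing x with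
  | zero =>
    have hm : (1 : ℝ) ≤ (M : ℝ) * r := by nlinarith
    have h3 : 1 / ((M : ℝ) * r) ≤ 1 := by rw [div_le_one (by linarith)]; exact hm
    have h4 : 0 ≤ 1 / ((M : ℝ) * r) := by positivity
    unfold et
    rw [sg_sg]
    simp only [kp_zero, pow_zero, mul_one]
    by_cases hxy : x = y
    · subst hxy
      simp only [if_true]
      have e : (1 + 1 : ℝ) / (2 * ((M : ℝ) * r)) = 1 / ((M : ℝ) * r) := by field_simp; norm_num
      rw [e, abs_le]; constructor <;> linarith
    · rw [if_neg hxy]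
      by_cases h5 : y.1 = x.1
      · rw [if_pos h5]
        have e : (1 + 1 : ℝ) / (2 * ((M : ℝ) * r)) = 1 / ((M : ℝ) * r) := by field_simp; norm_num
        rw [e, abs_le]; constructor <;> linarith
      · rw [if_neg h5]
        norm_num
  | succ t ih =>
    rw [et_step hM hr]
    have h2 : |∑ j : Fin r, et t (!x.1, x.2.1, j) y| ≤ r * lam M r ^ t := by
      refine (Finset.abs_sum_le_sum_abs _ _).trans ?_
      refine (Finset.sum_le_sum fun j _ => ih _).trans ?_
      simp
    calc |(1 / 2 - cc M r) * et t x y + cc M r * ∑ j : Fin r, et t (!x.1, x.2.1, j) y| ≤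
        |(1 / 2 - cc M r) * et t x y| + |cc M r * ∑ j : Fin r, et t (!x.1, x.2.1, j) y| :=
          abs_add_le _ _
      _ = (1 / 2 - cc M r) * |et t x y| + cc M r * |∑ j : Fin r, et t (!x.1, x.2.1, j) y| := by
          rw [abs_mul, abs_mul, abs_of_nonneg h1, abs_of_pos h0]
      _ ≤ (1 / 2 - cc M r) * lam M r ^ t + cc M r * (r * lam M r ^ t) := by
          gcongr
          exact ih x
      _ = lam M r ^ (t + 1) := by
          rw [pow_succ]; unfold lam qq; ring

end

end TwoWalks
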