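import Pool.Agent.TwoWalks.Sums

/-! The choice of the parameters: `r = n^20`, `M = n^30`, horizon `T = 16 n^51`. -/

namespace TwoWalks

variable {n : ℕ}

/-- Horizon. -/
def TT (n : ℕ) : ℕ := 16 * n ^ 51

section

variable (hn : 1 ≤ n)
include hn

lemma n_pos' : 0 < n := hn

lemma M_pos' : 0 < n ^ 30 := pow_pos hn 30

lemma r_pos' : 0 < n ^ 20 := pow_pos hn 20

lemma x_ge : (1 : ℝ) ≤ n := by exact_mod_cast hn

lemma cc_up : cc (n ^ 30) (n ^ 20) ≤ 1 / (2 * (n : ℝ) ^ 50) := by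
  have hx := x_ge hn
  unfold cc
  push_cast
  have h1 : (1 : ℝ) ≤ (n : ℝ) ^ 20 := one_le_pow₀ hx
  apply one_div_le_one_div_of_le (by positivity)
  nlinarith

lemma cc_low : 1 / (4 * (n : ℝ) ^ 50) ≤ cc (n ^ 30) (n ^ 20) := by
  have hx := x_ge hn
  unfold cc
  push_cast
  have h1 : (1 : ℝ) ≤ (n : ℝ) ^ 20 := one_le_pow₀ hx
  have h2 : (n : ℝ) ^ 20 ≤ (n : ℝ) ^ 50 := pow_le_pow_right₀ hx (by norm_num)
  have h3 : (1 : ℝ) ≤ (n : ℝ) ^ 30 * (n : ℝ) ^ 20 := by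
    have : (n : ℝ) ^ 30 * (n : ℝ) ^ 20 = (n : ℝ) ^ 50 := by ring
    rw [this]; exact one_le_pow₀ hx
  apply one_div_le_one_div_of_le
  · linarith
  · nlinarith

lemma qq_up : qq (n ^ 30) (n ^ 20) ≤ 1 / (2 * (n : ℝ) ^ 30) := by
  have hx := x_ge hn
  have h := cc_up hn
  unfold qq
  push_cast
  calc (n : ℝ) ^ 20 * cc (n ^ 30) (n ^ 20) ≤ (n : ℝ) ^ 20 * (1 / (2 * (n : ℝ) ^ 50)) :=
        mul_le_mul_of_nonneg_left h (by positivity)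
    _ = _ := by field_simp

lemma qq_low : 1 / (4 * (n : ℝ) ^ 30) ≤ qq (n ^ 30) (n ^ 20) := by
  have hx := x_ge hn
  have h := cc_low hn
  unfold qq
  push_cast
  calc 1 / (4 * (n : ℝ) ^ 30) = (n : ℝ) ^ 20 * (1 / (4 * (n : ℝ) ^ 50)) := by field_simp
    _ ≤ (n : ℝ) ^ 20 * cc (n ^ 30) (n ^ 20) := mul_le_mul_of_nonneg_left h (by positivity)

lemma ww_up : ww (n ^ 30) (n ^ 20) ≤ 1 / (n : ℝ) ^ 30 := by
  have hx := x_ge hn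
  have h := qq_up hn
  have h2 := ww_le (M_pos' hn) (r_pos' hn)
  have : 2 * (1 / (2 * (n : ℝ) ^ 30)) = 1 / (n : ℝ) ^ 30 := by field_simp
  linarith

lemma LL_le_TT : LL (n ^ 30) (n ^ 20) ≤ TT n := by
  unfold LL TT
  have h1 : n ^ 30 * n ^ 20 = n ^ 50 := by ring
  rw [h1]
  have h2 : n ^ 50 ≤ n ^ 51 := Nat.pow_le_pow_right hn (by norm_num)
  have h3 : n ^ 20 ≤ n ^ 51 := Nat.pow_le_pow_right hn (by norm_num)
  omega

lemma four_le_LL (hn2 : 2 ≤ n) : 4 ≤ LL (n ^ 30) (n ^ 20) := by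
  unfold LL
  have h1 : n ^ 30 * n ^ 20 = n ^ 50 := by ring
  rw [h1]
  have h2 : 2 ^ 50 ≤ n ^ 50 := Nat.pow_le_pow_left hn2 50
  have h3 : 1 ≤ n ^ 20 := Nat.one_le_pow _ _ hn
  norm_num at h2
  omega

lemma wT_up : ww (n ^ 30) (n ^ 20) * TT n ≤ 16 * (n : ℝ) ^ 21 := by
  have hx := x_ge hn
  have h := ww_up hn
  unfold TT
  push_cast
  calc ww (n ^ 30) (n ^ 20) * (16 * (n : ℝ) ^ 51) ≤ (1 / (n : ℝ) ^ 30) * (16 * (n : ℝ) ^ 51) :=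
        mul_le_mul_of_nonneg_right h (by positivity)
    _ = _ := by field_simp

lemma rho_up : rho (n ^ 30) (n ^ 20) (TT n) ≤ 44 * (n : ℝ) ^ 11 := by
  have hx := x_ge hn
  unfold rho
  rw [Real.sqrt_le_left (by positivity)]
  have h1 := wT_up hn
  have h2 : (n : ℝ) ^ 21 ≤ (n : ℝ) ^ 22 := pow_le_pow_right₀ hx (by norm_num)
  have h3 : (1 : ℝ) ≤ (n : ℝ) ^ 22 := one_le_pow₀ hx
  have h4 : (44 * (n : ℝ) ^ 11) ^ 2 = 1936 * (n : ℝ) ^ 22 := by ring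
  rw [h4]
  linarith

lemma cp_up : cp (n ^ 30) (n ^ 20) ≤ 1 / (n : ℝ) ^ 50 := by
  have hx := x_ge hn
  have h1 := cp_le (M_pos' hn) (r_pos' hn)
  have h2 := cc_up hn
  have : 2 * (1 / (2 * (n : ℝ) ^ 50)) = 1 / (n : ℝ) ^ 50 := by field_simp
  linarith

lemma y3_up : y3 (n ^ 30) (n ^ 20) (TT n) ≤ 27258880 * (n : ℝ) ^ 123 := by
  have hx := x_ge hn
  have hq := qq_low hn
  have hq0 := qq_pos (M_pos' hn) (r_pos' hn)
  have hρ := rho_up hn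
  have hρ1 := one_le_rho (M_pos' hn) (r_pos' hn) (TT n)
  unfold y3
  rw [div_le_iff₀ (by positivity)]
  have h1 : rho (n ^ 30) (n ^ 20) (TT n) ^ 3 ≤ (44 * (n : ℝ) ^ 11) ^ 3 :=
    pow_le_pow_left₀ (by linarith) hρ 3
  have h2 : (1 / (4 * (n : ℝ) ^ 30)) ^ 3 ≤ qq (n ^ 30) (n ^ 20) ^ 3 :=
    pow_le_pow_left₀ (by positivity) hq 3
  calc 5 * rho (n ^ 30) (n ^ 20) (TT n) ^ 3 ≤ 5 * (44 * (n : ℝ) ^ 11) ^ 3 := by linarith
    _ = 27258880 * (n : ℝ) ^ 123 * (1 / (4 * (n : ℝ) ^ 30)) ^ 3 := by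
        field_simp; norm_num
    _ ≤ _ := mul_le_mul_of_nonneg_left h2 (by positivity)

lemma y1_up : y1 (n ^ 30) (n ^ 20) (TT n) ≤ 264 * (n : ℝ) ^ 41 := by
  have hx := x_ge hn
  have hq := qq_low hn
  have hq0 := qq_pos (M_pos' hn) (r_pos' hn)
  have hρ := rho_up hn
  unfold y1
  rw [div_le_iff₀ (by positivity)]
  calc 3 * rho (n ^ 30) (n ^ 20) (TT n) ≤ 3 * (44 * (n : ℝ) ^ 11) := by linarith
    _ = 264 * (n : ℝ) ^ 41 * (2 * (1 / (4 * (n : ℝ) ^ 30))) := by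
        field_simp; norm_num
    _ ≤ _ := by
        apply mul_le_mul_of_nonneg_left _ (by positivity)
        linarith

lemma resB_up : resB (n ^ 30) (n ^ 20) (TT n) ≤ 5000000 / (n : ℝ) ^ 27 := by
  have hx := x_ge hn
  have hx0 : (0 : ℝ) < n := by linarith
  have hcp := cp_up hn
  have hcp0 := cp_pos (M_pos' hn) (r_pos' hn)
  have hy1 := y1_up hn
  have hy3 := y3_up hn
  have hy10 := y1_nonneg (M_pos' hn) (r_pos' hn) (TT n)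
  have hy30 := y3_nonneg (M_pos' hn) (r_pos' hn) (TT n)
  unfold resB
  push_cast
  set c := cp (n ^ 30) (n ^ 20)
  set y := y1 (n ^ 30) (n ^ 20) (TT n)
  set z := y3 (n ^ 30) (n ^ 20) (TT n)
  have h4 : c ^ 4 ≤ (1 / (n : ℝ) ^ 50) ^ 4 := pow_le_pow_left₀ hcp0.le hcp 4
  have h2 : c ^ 2 ≤ (1 / (n : ℝ) ^ 50) ^ 2 := pow_le_pow_left₀ hcp0.le hcp 2
  have h3 : c ^ 3 ≤ (1 / (n : ℝ) ^ 50) ^ 3 := pow_le_pow_left₀ hcp0.le hcp 3
  have a1 : c ^ 4 * z ≤ (1 / (n : ℝ) ^ 50) ^ 4 * (27258880 * (n : ℝ) ^ 123) :=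
    mul_le_mul h4 hy3 hy30 (by positivity)
  have a1' : (1 / (n : ℝ) ^ 50) ^ 4 * (27258880 * (n : ℝ) ^ 123) = 27258880 / (n : ℝ) ^ 77 := by
    field_simp
  have a2 : c * y ≤ 1 / (n : ℝ) ^ 50 * (264 * (n : ℝ) ^ 41) :=
    mul_le_mul hcp hy1 hy10 (by positivity)
  have a2' : 1 / (n : ℝ) ^ 50 * (264 * (n : ℝ) ^ 41) ≤ 264 := by
    have : 1 / (n : ℝ) ^ 50 * (264 * (n : ℝ) ^ 41) = 264 / (n : ℝ) ^ 9 := by field_simp
    rw [this]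
    exact div_le_self (by norm_num) (one_le_pow₀ hx)
  have a3 : c ^ 2 / 2 * (1 + c * y) ≤ (1 / (n : ℝ) ^ 50) ^ 2 / 2 * 265 := by
    apply mul_le_mul _ (by linarith) (by positivity) (by positivity)
    linarith
  have b1 : (1 / (n : ℝ) ^ 50) ^ 2 / 2 * 265 ≤ 133 / (n : ℝ) ^ 77 := by
    have e : (1 / (n : ℝ) ^ 50) ^ 2 / 2 * 265 = 132.5 / (n : ℝ) ^ 100 := by field_simp; norm_num
    rw [e]
    have : (n : ℝ) ^ 77 ≤ (n : ℝ) ^ 100 := pow_le_pow_right₀ hx (by norm_num)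
    calc 132.5 / (n : ℝ) ^ 100 ≤ 132.5 / (n : ℝ) ^ 77 :=
          div_le_div_of_nonneg_left (by norm_num) (by positivity) this
      _ ≤ _ := div_le_div_of_nonneg_right (by norm_num) (by positivity)
  have b2 : (1 / (n : ℝ) ^ 50) ^ 3 / 6 ≤ 1 / (n : ℝ) ^ 77 := by
    have e : (1 / (n : ℝ) ^ 50) ^ 3 / 6 = (1 / 6) / (n : ℝ) ^ 150 := by field_simp
    rw [e]
    have : (n : ℝ) ^ 77 ≤ (n : ℝ) ^ 150 := pow_le_pow_right₀ hx (by norm_num)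
    calc (1 / 6) / (n : ℝ) ^ 150 ≤ (1 / 6) / (n : ℝ) ^ 77 :=
          div_le_div_of_nonneg_left (by norm_num) (by positivity) this
      _ ≤ _ := div_le_div_of_nonneg_right (by norm_num) (by positivity)
  have tot : c ^ 4 * z / 6 + c ^ 2 / 2 * (1 + c * y) + c ^ 3 / 6 ≤ 5000000 / (n : ℝ) ^ 77 := by
    have t1 : c ^ 4 * z / 6 ≤ (27258880 / (n : ℝ) ^ 77) / 6 := by
      rw [← a1']; linarith
    have t2 : (27258880 / (n : ℝ) ^ 77) / 6 ≤ 4600000 / (n : ℝ) ^ 77 := by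
      rw [div_div, div_le_div_iff₀ (by positivity) (by positivity)]
      have : (0 : ℝ) < (n : ℝ) ^ 77 := by positivity
      nlinarith
    have t3 : (5000000 : ℝ) / (n : ℝ) ^ 77 = 4600000 / (n : ℝ) ^ 77 + 399999 / (n : ℝ) ^ 77 +
      1 / (n : ℝ) ^ 77 := by field_simp; norm_num
    have t4 : 133 / (n : ℝ) ^ 77 ≤ 399999 / (n : ℝ) ^ 77 :=
      div_le_div_of_nonneg_right (by norm_num) (by positivity)
    linarith
  calc (n : ℝ) ^ 30 * (n : ℝ) ^ 20 * (c ^ 4 * z / 6 + c ^ 2 / 2 * (1 + c * y) + c ^ 3 / 6) ≤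
      (n : ℝ) ^ 30 * (n : ℝ) ^ 20 * (5000000 / (n : ℝ) ^ 77) :=
        mul_le_mul_of_nonneg_left tot (by positivity)
    _ = _ := by field_simp

lemma kap_up : kap (n ^ 30) (n ^ 20) (TT n) ≤ 6000000 / (n : ℝ) ^ 27 := by
  have hx := x_ge hn
  have h1 := resB_up hn
  have h2 := qq_up hn
  unfold kap
  have h3 : 2 * (1 / (2 * (n : ℝ) ^ 30)) ≤ 1000000 / (n : ℝ) ^ 27 := by
    have e : 2 * (1 / (2 * (n : ℝ) ^ 30)) = 1 / (n : ℝ) ^ 30 := by field_simp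
    rw [e]
    have : (n : ℝ) ^ 27 ≤ (n : ℝ) ^ 30 := pow_le_pow_right₀ hx (by norm_num)
    calc 1 / (n : ℝ) ^ 30 ≤ 1 / (n : ℝ) ^ 27 :=
          div_le_div_of_nonneg_left (by norm_num) (by positivity) this
      _ ≤ _ := div_le_div_of_nonneg_right (by norm_num) (by positivity)
  have e : (6000000 : ℝ) / (n : ℝ) ^ 27 = 1000000 / (n : ℝ) ^ 27 + 5000000 / (n : ℝ) ^ 27 := by
    field_simp; norm_num
  linarith

lemma sqrtT_up : Real.sqrt (TT n) ≤ 4 * (n : ℝ) ^ 26 := by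
  have hx := x_ge hn
  rw [Real.sqrt_le_left (by positivity)]
  unfold TT
  push_cast
  have : (n : ℝ) ^ 51 ≤ (n : ℝ) ^ 52 := pow_le_pow_right₀ hx (by norm_num)
  have e : (4 * (n : ℝ) ^ 26) ^ 2 = 16 * (n : ℝ) ^ 52 := by ring
  rw [e]; linarith

lemma eB_up : eB (n ^ 30) (n ^ 20) (TT n) ≤ 110000000 * (n : ℝ) ^ 26 := by
  have hx := x_ge hn
  have h1 := kap_up hn
  have h2 := sqrtT_up hn
  unfold eB
  have h3 : kap (n ^ 30) (n ^ 20) (TT n) * TT n ≤ 96000000 * (n : ℝ) ^ 26 := by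
    calc kap (n ^ 30) (n ^ 20) (TT n) * TT n ≤ 6000000 / (n : ℝ) ^ 27 * TT n :=
          mul_le_mul_of_nonneg_right h1 (Nat.cast_nonneg _)
      _ = 96000000 * (n : ℝ) ^ 24 := by unfold TT; push_cast; field_simp; norm_num
      _ ≤ _ := by
          have : (n : ℝ) ^ 24 ≤ (n : ℝ) ^ 26 := pow_le_pow_right₀ hx (by norm_num)
          linarith
  have h4 : (1 : ℝ) ≤ (n : ℝ) ^ 26 := one_le_pow₀ hx
  linarith

lemma cT_up : cc (n ^ 30) (n ^ 20) * TT n ≤ 8 * n := by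
  have hx := x_ge hn
  have h := cc_up hn
  calc cc (n ^ 30) (n ^ 20) * TT n ≤ 1 / (2 * (n : ℝ) ^ 50) * TT n :=
        mul_le_mul_of_nonneg_right h (Nat.cast_nonneg _)
    _ = _ := by unfold TT; push_cast; field_simp; norm_num

lemma TbB_up : TT n * bB (n ^ 30) (n ^ 20) (TT n) ≤ 1900000000 * (n : ℝ) ^ 27 := by
  have hx := x_ge hn
  have hcT := cT_up hn
  have hcT0 : 0 ≤ cc (n ^ 30) (n ^ 20) * TT n := by
    have := cc_pos (M_pos' hn) (r_pos' hn); positivity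
  have heB := eB_up hn
  have heB0 := eB_nonneg (M_pos' hn) (r_pos' hn) (TT n)
  have hcp := cp_up hn
  have hcp0 := cp_pos (M_pos' hn) (r_pos' hn)
  have hy3 := y3_up hn
  have hy30 := y3_nonneg (M_pos' hn) (r_pos' hn) (TT n)
  have h3 : cp (n ^ 30) (n ^ 20) ^ 3 ≤ (1 / (n : ℝ) ^ 50) ^ 3 := pow_le_pow_left₀ hcp0.le hcp 3
  have e : TT n * bB (n ^ 30) (n ^ 20) (TT n) = 2 * ((cc (n ^ 30) (n ^ 20) * TT n) *
      eB (n ^ 30) (n ^ 20) (TT n)) + (cc (n ^ 30) (n ^ 20) * TT n) * (n : ℝ) ^ 50 / 3 *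
      (cp (n ^ 30) (n ^ 20) ^ 3 * y3 (n ^ 30) (n ^ 20) (TT n)) := by
    unfold bB; push_cast; ring
  rw [e]
  have p1 : (cc (n ^ 30) (n ^ 20) * TT n) * eB (n ^ 30) (n ^ 20) (TT n) ≤
      8 * n * (110000000 * (n : ℝ) ^ 26) := mul_le_mul hcT heB heB0 (by positivity)
  have p2 : cp (n ^ 30) (n ^ 20) ^ 3 * y3 (n ^ 30) (n ^ 20) (TT n) ≤
      (1 / (n : ℝ) ^ 50) ^ 3 * (27258880 * (n : ℝ) ^ 123) :=
    mul_le_mul h3 hy3 hy30 (by positivity)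
  have p3 : (cc (n ^ 30) (n ^ 20) * TT n) * (n : ℝ) ^ 50 / 3 *
      (cp (n ^ 30) (n ^ 20) ^ 3 * y3 (n ^ 30) (n ^ 20) (TT n)) ≤
      (8 * n) * (n : ℝ) ^ 50 / 3 * ((1 / (n : ℝ) ^ 50) ^ 3 * (27258880 * (n : ℝ) ^ 123)) := by
    apply mul_le_mul _ p2 (by positivity) (by positivity)
    apply div_le_div_of_nonneg_right _ (by norm_num)
    exact mul_le_mul_of_nonneg_right hcT (by positivity)
  have p4 : (8 * n) * (n : ℝ) ^ 50 / 3 * ((1 / (n : ℝ) ^ 50) ^ 3 * (27258880 * (n : ℝ) ^ 123)) ≤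
      100000000 * (n : ℝ) ^ 27 := by
    have e1 : (8 * n) * (n : ℝ) ^ 50 / 3 * ((1 / (n : ℝ) ^ 50) ^ 3 * (27258880 * (n : ℝ) ^ 123)) =
        (218071040 / 3) * (n : ℝ) ^ 24 := by field_simp; norm_num
    rw [e1]
    have : (n : ℝ) ^ 24 ≤ (n : ℝ) ^ 27 := pow_le_pow_right₀ hx (by norm_num)
    have h0 : (0 : ℝ) ≤ (n : ℝ) ^ 24 := by positivity
    nlinarith
  have p5 : 8 * n * (110000000 * (n : ℝ) ^ 26) = 880000000 * (n : ℝ) ^ 27 := by ring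
  have h0 : (0 : ℝ) ≤ (n : ℝ) ^ 27 := by positivity
  linarith

lemma kk_up : |kk (n ^ 30) (n ^ 20)| ≤ (n : ℝ) ^ 10 := by
  have hx := x_ge hn
  have hc := cc_pos (M_pos' hn) (r_pos' hn)
  have hcp0 := cp_pos (M_pos' hn) (r_pos' hn)
  have hcp := cp_le (M_pos' hn) (r_pos' hn)
  have hq := qq_pos (M_pos' hn) (r_pos' hn)
  unfold kk
  rw [abs_neg, abs_of_nonneg (by positivity), div_le_iff₀ (by positivity)]
  unfold qq
  push_cast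
  calc 2 * ((n : ℝ) ^ 30 * (n : ℝ) ^ 20) * cc (n ^ 30) (n ^ 20) * cp (n ^ 30) (n ^ 20) ≤
      2 * ((n : ℝ) ^ 30 * (n : ℝ) ^ 20) * cc (n ^ 30) (n ^ 20) * (2 * cc (n ^ 30) (n ^ 20)) :=
        mul_le_mul_of_nonneg_left hcp (by positivity)
    _ = _ := by ring

lemma kk_low : (n : ℝ) ^ 10 / 2 ≤ |kk (n ^ 30) (n ^ 20)| := by
  have hx := x_ge hn
  have hc := cc_pos (M_pos' hn) (r_pos' hn)
  have hc1 := cc_le_one (M_pos' hn) (r_pos' hn)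
  have hcp0 := cp_pos (M_pos' hn) (r_pos' hn)
  have hcp : cc (n ^ 30) (n ^ 20) ≤ cp (n ^ 30) (n ^ 20) := by
    unfold cp
    rw [le_div_iff₀ (by linarith)]
    nlinarith
  have hq := qq_pos (M_pos' hn) (r_pos' hn)
  unfold kk
  rw [abs_neg, abs_of_nonneg (by positivity), le_div_iff₀ (by positivity)]
  unfold qq
  push_cast
  calc (n : ℝ) ^ 10 / 2 * (2 * ((n : ℝ) ^ 20 * cc (n ^ 30) (n ^ 20))) ^ 2 =
      2 * ((n : ℝ) ^ 30 * (n : ℝ) ^ 20) * cc (n ^ 30) (n ^ 20) * cc (n ^ 30) (n ^ 20) := by ring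
    _ ≤ _ := mul_le_mul_of_nonneg_left hcp (by positivity)

lemma tot_up : totB (n ^ 30) (n ^ 20) (TT n) ≤ 2000000000 * (n : ℝ) ^ 27 := by
  have hx := x_ge hn
  have hq := qq_up hn
  have hq0 := qq_pos (M_pos' hn) (r_pos' hn)
  have hc0 := cc_pos (M_pos' hn) (r_pos' hn)
  have h1 := sqrtT_up hn
  have h2 := TbB_up hn
  have h3 := kk_up hn
  have hy1 := y1_up hn
  have hy10 := y1_nonneg (M_pos' hn) (r_pos' hn) (TT n)
  have hcT := cT_up hn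
  have hwT := wT_up hn
  have hw0 := ww_pos (M_pos' hn) (r_pos' hn)
  have i27 : (1 : ℝ) ≤ (n : ℝ) ^ 27 := one_le_pow₀ hx
  have i21 : (n : ℝ) ^ 21 ≤ (n : ℝ) ^ 27 := pow_le_pow_right₀ hx (by norm_num)
  have i26 : (n : ℝ) ^ 26 ≤ (n : ℝ) ^ 27 := pow_le_pow_right₀ hx (by norm_num)
  have q1 : qq (n ^ 30) (n ^ 20) * TT n ≤ 8 * (n : ℝ) ^ 21 := by
    calc qq (n ^ 30) (n ^ 20) * TT n ≤ 1 / (2 * (n : ℝ) ^ 30) * TT n :=
          mul_le_mul_of_nonneg_right hq (Nat.cast_nonneg _)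
      _ = _ := by unfold TT; push_cast; field_simp; norm_num
  have r1 : 2 * qq (n ^ 30) (n ^ 20) * cc (n ^ 30) (n ^ 20) *
      (y1 (n ^ 30) (n ^ 20) (TT n) + 1) * TT n ≤ 2200 * (n : ℝ) ^ 12 := by
    have e : 2 * qq (n ^ 30) (n ^ 20) * cc (n ^ 30) (n ^ 20) *
      (y1 (n ^ 30) (n ^ 20) (TT n) + 1) * TT n = 2 * qq (n ^ 30) (n ^ 20) *
      ((cc (n ^ 30) (n ^ 20) * TT n) * (y1 (n ^ 30) (n ^ 20) (TT n) + 1)) := by ring
    rw [e]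
    have i41 : (1 : ℝ) ≤ (n : ℝ) ^ 41 := one_le_pow₀ hx
    have a : (cc (n ^ 30) (n ^ 20) * TT n) * (y1 (n ^ 30) (n ^ 20) (TT n) + 1) ≤
        (8 * n) * (265 * (n : ℝ) ^ 41) := by
      apply mul_le_mul hcT _ (by linarith) (by positivity)
      linarith
    have b : 2 * qq (n ^ 30) (n ^ 20) ≤ 1 / (n : ℝ) ^ 30 := by
      have : 2 * (1 / (2 * (n : ℝ) ^ 30)) = 1 / (n : ℝ) ^ 30 := by field_simp
      linarith
    calc 2 * qq (n ^ 30) (n ^ 20) * ((cc (n ^ 30) (n ^ 20) * TT n) *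
          (y1 (n ^ 30) (n ^ 20) (TT n) + 1)) ≤
          (1 / (n : ℝ) ^ 30) * ((8 * n) * (265 * (n : ℝ) ^ 41)) :=
          mul_le_mul b a (by positivity) (by positivity)
      _ = 2120 * (n : ℝ) ^ 12 := by field_simp; norm_num
      _ ≤ _ := by
          have : (0 : ℝ) ≤ (n : ℝ) ^ 12 := by positivity
          linarith
  have r2 : Real.sqrt (4 * ww (n ^ 30) (n ^ 20) * TT n) ≤ 8 * (n : ℝ) ^ 11 := by
    rw [Real.sqrt_le_left (by positivity)]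
    have e : (8 * (n : ℝ) ^ 11) ^ 2 = 64 * (n : ℝ) ^ 22 := by ring
    rw [e]
    have : (n : ℝ) ^ 21 ≤ (n : ℝ) ^ 22 := pow_le_pow_right₀ hx (by norm_num)
    nlinarith
  have r3 : 2 * qq (n ^ 30) (n ^ 20) * y1 (n ^ 30) (n ^ 20) (TT n) ≤ 264 * (n : ℝ) ^ 11 := by
    have b : 2 * qq (n ^ 30) (n ^ 20) ≤ 1 / (n : ℝ) ^ 30 := by
      have : 2 * (1 / (2 * (n : ℝ) ^ 30)) = 1 / (n : ℝ) ^ 30 := by field_simp
      linarith
    calc 2 * qq (n ^ 30) (n ^ 20) * y1 (n ^ 30) (n ^ 20) (TT n) ≤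
        (1 / (n : ℝ) ^ 30) * (264 * (n : ℝ) ^ 41) := mul_le_mul b hy1 hy10 (by positivity)
      _ = _ := by field_simp
  have r4 : 2 * qq (n ^ 30) (n ^ 20) * cc (n ^ 30) (n ^ 20) *
      (y1 (n ^ 30) (n ^ 20) (TT n) + 1) * TT n + Real.sqrt (4 * ww (n ^ 30) (n ^ 20) * TT n) +
      2 * qq (n ^ 30) (n ^ 20) * y1 (n ^ 30) (n ^ 20) (TT n) ≤ 2500 * (n : ℝ) ^ 12 := by
    have i12 : (n : ℝ) ^ 11 ≤ (n : ℝ) ^ 12 := pow_le_pow_right₀ hx (by norm_num)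
    have : (0 : ℝ) ≤ (n : ℝ) ^ 11 := by positivity
    linarith
  have r5 : |kk (n ^ 30) (n ^ 20)| * (2 * qq (n ^ 30) (n ^ 20) * cc (n ^ 30) (n ^ 20) *
      (y1 (n ^ 30) (n ^ 20) (TT n) + 1) * TT n + Real.sqrt (4 * ww (n ^ 30) (n ^ 20) * TT n) +
      2 * qq (n ^ 30) (n ^ 20) * y1 (n ^ 30) (n ^ 20) (TT n)) ≤
      (n : ℝ) ^ 10 * (2500 * (n : ℝ) ^ 12) :=
    mul_le_mul h3 r4 (by positivity) (by positivity)
  have r6 : (n : ℝ) ^ 10 * (2500 * (n : ℝ) ^ 12) ≤ 2500 * (n : ℝ) ^ 27 := by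
    have : (n : ℝ) ^ 10 * (2500 * (n : ℝ) ^ 12) = 2500 * (n : ℝ) ^ 22 := by ring
    rw [this]
    have : (n : ℝ) ^ 22 ≤ (n : ℝ) ^ 27 := pow_le_pow_right₀ hx (by norm_num)
    linarith
  unfold totB
  linarith

lemma sqrt_eN_up : Real.sqrt (eN (n ^ 30) (n ^ 20) (TT n)) ≤ 2 * (n : ℝ) ^ 20 := by
  rw [Real.sqrt_le_left (by positivity)]
  have h := eN_le (M_pos' hn) (r_pos' hn) (TT n)
  push_cast at h
  refine h.trans (le_of_eq ?_)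
  ring

lemma eN_low : (n : ℝ) ^ 40 / 64 ≤ eN (n ^ 30) (n ^ 20) (TT n) := by
  have h := le_eN (M_pos' hn) (r_pos' hn) (LL_le_TT hn)
  push_cast at h
  have e : ((n : ℝ) ^ 20) ^ 2 = (n : ℝ) ^ 40 := by ring
  rwa [e] at h

/-- The relative `L²` error is small. -/
lemma tot_rel : totB (n ^ 30) (n ^ 20) (TT n) ^ 2 ≤
    (10 : ℝ) ^ 22 / n * (kk (n ^ 30) (n ^ 20) ^ 2 * eN (n ^ 30) (n ^ 20) (TT n)) := by
  have hx := x_ge hn
  have hx0 : (0 : ℝ) < n := by linarith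
  have h1 := tot_up hn
  have h0 : 0 ≤ totB (n ^ 30) (n ^ 20) (TT n) :=
    (nrm_nonneg _).trans (main_L2 (M_pos' hn) (r_pos' hn) (TT n))
  have h2 : totB (n ^ 30) (n ^ 20) (TT n) ^ 2 ≤ (2000000000 * (n : ℝ) ^ 27) ^ 2 :=
    pow_le_pow_left₀ h0 h1 2
  have h3 : ((n : ℝ) ^ 10 / 2) ^ 2 ≤ kk (n ^ 30) (n ^ 20) ^ 2 := by
    rw [← sq_abs (kk _ _)]
    exact pow_le_pow_left₀ (by positivity) (kk_low hn) 2
  have h4 := eN_low hn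
  have h5 : ((n : ℝ) ^ 10 / 2) ^ 2 * ((n : ℝ) ^ 40 / 64) ≤
      kk (n ^ 30) (n ^ 20) ^ 2 * eN (n ^ 30) (n ^ 20) (TT n) :=
    mul_le_mul h3 h4 (by positivity) (by positivity)
  refine h2.trans ?_
  have h6 : (2000000000 * (n : ℝ) ^ 27) ^ 2 ≤
      (10 : ℝ) ^ 22 / n * (((n : ℝ) ^ 10 / 2) ^ 2 * ((n : ℝ) ^ 40 / 64)) := by
    have e1 : (10 : ℝ) ^ 22 / n * (((n : ℝ) ^ 10 / 2) ^ 2 * ((n : ℝ) ^ 40 / 64)) =
        (10 : ℝ) ^ 22 / 256 * (n : ℝ) ^ 59 := by field_simp; norm_num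
    rw [e1]
    have e2 : (2000000000 * (n : ℝ) ^ 27) ^ 2 = 4 * 10 ^ 18 * (n : ℝ) ^ 54 := by ring
    rw [e2]
    have i : (n : ℝ) ^ 54 ≤ (n : ℝ) ^ 59 := pow_le_pow_right₀ hx (by norm_num)
    have i0 : (0 : ℝ) ≤ (n : ℝ) ^ 54 := by positivity
    nlinarith
  exact h6.trans (mul_le_mul_of_nonneg_left h5 (by positivity))

lemma err_up : TT n * err4 (n ^ 30) (n ^ 20) (TT n) ≤ (10 : ℝ) ^ 9 * (n : ℝ) ^ 75 := by
  have hx := x_ge hn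
  have hx0 : (0 : ℝ) < n := by linarith
  have hw := ww_up hn
  have hw0 := ww_pos (M_pos' hn) (r_pos' hn)
  have hwT := wT_up hn
  have hρ := rho_up hn
  have hρ1 := one_le_rho (M_pos' hn) (r_pos' hn) (TT n)
  have hs := sqrt_eN_up hn
  have hs0 := Real.sqrt_nonneg (eN (n ^ 30) (n ^ 20) (TT n))
  have hT : (TT n : ℝ) = 16 * (n : ℝ) ^ 51 := by unfold TT; push_cast; ring
  set w := ww (n ^ 30) (n ^ 20)
  set ρ := rho (n ^ 30) (n ^ 20) (TT n)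
  set σ := Real.sqrt (eN (n ^ 30) (n ^ 20) (TT n)) with hσ
  have hρ3 : ρ ^ 3 ≤ 85184 * (n : ℝ) ^ 33 := by
    have := pow_le_pow_left₀ (by linarith) hρ 3
    have e : (44 * (n : ℝ) ^ 11) ^ 3 = 85184 * (n : ℝ) ^ 33 := by ring
    rwa [e] at this
  have hw1 : w ≤ 1 := hw.trans (by
    rw [div_le_one (by positivity)]; exact one_le_pow₀ hx)
  -- the pieces
  have p1 : 4 * w ^ 3 * TT n ≤ 64 * (n : ℝ) ^ 3 := by
    have : w ^ 3 * TT n ≤ w * TT n * w := by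
      have : w ^ 3 * TT n = (w * TT n * w) * w := by ring
      rw [this]
      have h0 : 0 ≤ w * TT n * w := by positivity
      nlinarith
    have h2 : w * TT n * w ≤ 16 * (n : ℝ) ^ 21 * (1 / (n : ℝ) ^ 30) :=
      mul_le_mul hwT hw hw0.le (by positivity)
    have h3 : 16 * (n : ℝ) ^ 21 * (1 / (n : ℝ) ^ 30) ≤ 16 * (n : ℝ) ^ 3 := by
      have e : 16 * (n : ℝ) ^ 21 * (1 / (n : ℝ) ^ 30) = 16 / (n : ℝ) ^ 9 := by field_simp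
      rw [e]
      have h4 : 16 / (n : ℝ) ^ 9 ≤ 16 := div_le_self (by norm_num) (one_le_pow₀ hx)
      have h5 : (1 : ℝ) ≤ (n : ℝ) ^ 3 := one_le_pow₀ hx
      linarith
    linarith
  have p2 : 8 * w ^ 2 * ρ * TT n ≤ 5632 * (n : ℝ) ^ 3 := by
    have e : 8 * w ^ 2 * ρ * TT n = 8 * ((w * TT n) * (w * ρ)) := by ring
    rw [e]
    have h1 : w * ρ ≤ (1 / (n : ℝ) ^ 30) * (44 * (n : ℝ) ^ 11) :=
      mul_le_mul hw hρ (by linarith) (by positivity)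
    have h2 : (w * TT n) * (w * ρ) ≤ (16 * (n : ℝ) ^ 21) *
        ((1 / (n : ℝ) ^ 30) * (44 * (n : ℝ) ^ 11)) :=
      mul_le_mul hwT h1 (by positivity) (by positivity)
    have h3 : (16 * (n : ℝ) ^ 21) * ((1 / (n : ℝ) ^ 30) * (44 * (n : ℝ) ^ 11)) =
        704 * (n : ℝ) ^ 2 := by field_simp; norm_num
    have h4 : (n : ℝ) ^ 2 ≤ (n : ℝ) ^ 3 := pow_le_pow_right₀ hx (by norm_num)
    linarith
  have p3 : 4 * w * (σ * ρ) ≤ 352 * (n : ℝ) ^ 3 := by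
    have h1 : σ * ρ ≤ (2 * (n : ℝ) ^ 20) * (44 * (n : ℝ) ^ 11) :=
      mul_le_mul hs hρ (by linarith) (by positivity)
    have h2 : w * (σ * ρ) ≤ (1 / (n : ℝ) ^ 30) * ((2 * (n : ℝ) ^ 20) * (44 * (n : ℝ) ^ 11)) :=
      mul_le_mul hw h1 (by positivity) (by positivity)
    have h3 : (1 / (n : ℝ) ^ 30) * ((2 * (n : ℝ) ^ 20) * (44 * (n : ℝ) ^ 11)) =
        88 * (n : ℝ) := by field_simp; norm_num
    have h4 : (n : ℝ) ≤ (n : ℝ) ^ 3 := le_self_pow₀ hx (by norm_num)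
    linarith
  have p4 : 4 * w * ρ ^ 3 ≤ 340736 * (n : ℝ) ^ 3 := by
    have h2 : w * ρ ^ 3 ≤ (1 / (n : ℝ) ^ 30) * (85184 * (n : ℝ) ^ 33) :=
      mul_le_mul hw hρ3 (by positivity) (by positivity)
    have h3 : (1 / (n : ℝ) ^ 30) * (85184 * (n : ℝ) ^ 33) = 85184 * (n : ℝ) ^ 3 := by
      field_simp
    linarith
  have hH : errH (n ^ 30) (n ^ 20) (TT n) ≤ 400000 * (n : ℝ) ^ 3 := by
    have e : errH (n ^ 30) (n ^ 20) (TT n) = 4 * w ^ 3 * TT n + 8 * w ^ 2 * ρ * TT n +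
      4 * w * (σ * ρ) + 4 * w * ρ ^ 3 := rfl
    rw [e]
    have : (0 : ℝ) ≤ (n : ℝ) ^ 3 := by positivity
    linarith
  have hH0 := errH_nonneg (M_pos' hn) (r_pos' hn) (TT n)
  have q1 : 6 * w * (TT n * errH (n ^ 30) (n ^ 20) (TT n)) ≤ 38400000 * (n : ℝ) ^ 24 := by
    have h1 : (w * TT n) * errH (n ^ 30) (n ^ 20) (TT n) ≤
        (16 * (n : ℝ) ^ 21) * (400000 * (n : ℝ) ^ 3) :=
      mul_le_mul hwT hH hH0 (by positivity)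
    have h2 : (16 * (n : ℝ) ^ 21) * (400000 * (n : ℝ) ^ 3) = 6400000 * (n : ℝ) ^ 24 := by ring
    nlinarith
  have q2 : 3 * w ^ 4 * (TT n : ℝ) ^ 2 ≤ 768 * (n : ℝ) ^ 24 := by
    have h1 : (w * TT n) ^ 2 ≤ (16 * (n : ℝ) ^ 21) ^ 2 := pow_le_pow_left₀ (by positivity) hwT 2
    have h2 : w ^ 2 ≤ (1 / (n : ℝ) ^ 30) ^ 2 := pow_le_pow_left₀ hw0.le hw 2
    have h3 : w ^ 2 * (w * TT n) ^ 2 ≤ (1 / (n : ℝ) ^ 30) ^ 2 * (16 * (n : ℝ) ^ 21) ^ 2 :=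
      mul_le_mul h2 h1 (by positivity) (by positivity)
    have h4 : (1 / (n : ℝ) ^ 30) ^ 2 * (16 * (n : ℝ) ^ 21) ^ 2 = 256 / (n : ℝ) ^ 18 := by
      field_simp; norm_num
    have h5 : 256 / (n : ℝ) ^ 18 ≤ 256 := div_le_self (by norm_num) (one_le_pow₀ hx)
    have h6 : (1 : ℝ) ≤ (n : ℝ) ^ 24 := one_le_pow₀ hx
    have h7 : 3 * w ^ 4 * (TT n : ℝ) ^ 2 = 3 * (w ^ 2 * (w * TT n) ^ 2) := by ring
    rw [h7]
    linarith
  have q3 : 8 * w * (σ * ρ ^ 3) ≤ 1362944 * (n : ℝ) ^ 24 := by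
    have h1 : σ * ρ ^ 3 ≤ (2 * (n : ℝ) ^ 20) * (85184 * (n : ℝ) ^ 33) :=
      mul_le_mul hs hρ3 (by positivity) (by positivity)
    have h2 : w * (σ * ρ ^ 3) ≤ (1 / (n : ℝ) ^ 30) * ((2 * (n : ℝ) ^ 20) *
        (85184 * (n : ℝ) ^ 33)) := mul_le_mul hw h1 (by positivity) (by positivity)
    have h3 : (1 / (n : ℝ) ^ 30) * ((2 * (n : ℝ) ^ 20) * (85184 * (n : ℝ) ^ 33)) =
        170368 * (n : ℝ) ^ 23 := by field_simp; norm_num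
    have h4 : (n : ℝ) ^ 23 ≤ (n : ℝ) ^ 24 := pow_le_pow_right₀ hx (by norm_num)
    linarith
  have hE : err4 (n ^ 30) (n ^ 20) (TT n) ≤ 40000000 * (n : ℝ) ^ 24 := by
    have e : err4 (n ^ 30) (n ^ 20) (TT n) = 6 * w * (TT n * errH (n ^ 30) (n ^ 20) (TT n)) +
      3 * w ^ 4 * (TT n : ℝ) ^ 2 + 8 * w * (σ * ρ ^ 3) := rfl
    rw [e]
    have : (0 : ℝ) ≤ (n : ℝ) ^ 24 := by positivity
    linarith
  calc TT n * err4 (n ^ 30) (n ^ 20) (TT n) ≤ TT n * (40000000 * (n : ℝ) ^ 24) :=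
        mul_le_mul_of_nonneg_left hE (Nat.cast_nonneg _)
    _ = 640000000 * (n : ℝ) ^ 75 := by rw [hT]; ring
    _ ≤ _ := by
        have : (0 : ℝ) ≤ (n : ℝ) ^ 75 := by positivity
        nlinarith

/-- Kurtosis larger than three. -/
theorem kurt (hn2 : 10000 ≤ n) :
    (3 + 1 / 32768) * eN (n ^ 30) (n ^ 20) (TT n) ^ 2 ≤
      EE (n ^ 30) (n ^ 20) (TT n) (fun p => Nf (TT n) p.1 p.2 ^ 4) := by
  have hx := x_ge hn
  have hx2 : (10000 : ℝ) ≤ n := by exact_mod_cast hn2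
  have h1 := E_N4_ge (M_pos' hn) (r_pos' hn) (le_refl (TT n))
  have h2 := gain_ge (M_pos' hn) (r_pos' hn) (LL_le_TT hn) (four_le_LL hn (by omega))
  have h3 := err_up hn
  have h4 := eN_le (M_pos' hn) (r_pos' hn) (TT n)
  have h5 := eN_nonneg (M := n ^ 30) (r := n ^ 20) (TT n)
  push_cast at h2 h4
  have e1 : ((n : ℝ) ^ 20) ^ 4 = (n : ℝ) ^ 80 := by ring
  have e2 : ((n : ℝ) ^ 20) ^ 2 = (n : ℝ) ^ 40 := by ring
  rw [e1] at h2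
  rw [e2] at h4
  have h6 : eN (n ^ 30) (n ^ 20) (TT n) ^ 2 ≤ (4 * (n : ℝ) ^ 40) ^ 2 := pow_le_pow_left₀ h5 h4 2
  have e3 : (4 * (n : ℝ) ^ 40) ^ 2 = 16 * (n : ℝ) ^ 80 := by ring
  rw [e3] at h6
  have h7 : (10 : ℝ) ^ 9 * (n : ℝ) ^ 75 ≤ (n : ℝ) ^ 80 / 2048 := by
    have h8 : (10000 : ℝ) ^ 5 ≤ (n : ℝ) ^ 5 := pow_le_pow_left₀ (by norm_num) hx2 5
    have e4 : (n : ℝ) ^ 80 = (n : ℝ) ^ 75 * (n : ℝ) ^ 5 := by ring
    rw [e4]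
    have h9 : (0 : ℝ) < (n : ℝ) ^ 75 := by positivity
    have h10 : (n : ℝ) ^ 75 * (10000 : ℝ) ^ 5 ≤ (n : ℝ) ^ 75 * (n : ℝ) ^ 5 :=
      mul_le_mul_of_nonneg_left h8 h9.le
    nlinarith
  linarith

end

end TwoWalks
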