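import Pool.Agent.TwoWalks.CondA
import Pool.Agent.TwoWalks.Numer

/-! Mixing time, Green function, hitting probabilities: the sequence satisfies (A). -/

open Filter Topology

namespace TwoWalks

variable {M r : ℕ}

section

variable (hM : 0 < M) (hr : 0 < r)
include hM hr

lemma mix_mem {t : ℕ} (h1 : (1 - 2 * qq M r) ^ t ≤ 1 / 8)
    (h2 : 2 * ((M : ℝ) * r) * lam M r ^ t ≤ 1 / 8) :
    ∀ x y : VV M r, |kernelPow (GG M r) t x y / (1 / (Fintype.card (VV M r) : ℝ)) - 1| ≤ 1 / 4 := by
  intro x y
  have hq := qq_le_half hM hr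
  have hm : (0 : ℝ) < (M : ℝ) * r := by
    have : (0 : ℝ) < r := by exact_mod_cast hr
    have : (0 : ℝ) < M := by exact_mod_cast hM
    positivity
  have hc : (Fintype.card (VV M r) : ℝ) = 2 * ((M : ℝ) * r) := by
    rw [card_VV]; push_cast; ring
  have e : kernelPow (GG M r) t x y / (1 / (Fintype.card (VV M r) : ℝ)) - 1 =
      sg x * sg y * (1 - 2 * qq M r) ^ t + 2 * ((M : ℝ) * r) * et t x y := by
    rw [hc]; unfold et; field_simp; ring
  rw [e]
  have h3 := et_le hM hr t x y
  have h4 : |sg x * sg y * (1 - 2 * qq M r) ^ t| ≤ 1 / 8 := by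
    rw [abs_mul, sg_sg]
    have h0 : 0 ≤ (1 - 2 * qq M r) ^ t := pow_nonneg (by linarith) t
    rw [abs_of_nonneg h0]
    split_ifs <;> norm_num <;> linarith
  have h5 : |2 * ((M : ℝ) * r) * et t x y| ≤ 1 / 8 := by
    rw [abs_mul, abs_of_pos (by positivity)]
    exact (mul_le_mul_of_nonneg_left h3 (by positivity)).trans h2
  refine (abs_add_le _ _).trans ?_
  linarith

lemma mix_lower {t : ℕ}
    (h : ∀ x y : VV M r,
      |kernelPow (GG M r) t x y / (1 / (Fintype.card (VV M r) : ℝ)) - 1| ≤ 1 / 4) :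
    (1 - 2 * qq M r) ^ t ≤ 1 / 4 := by
  have hm : (0 : ℝ) < (M : ℝ) * r := by
    have : (0 : ℝ) < r := by exact_mod_cast hr
    have : (0 : ℝ) < M := by exact_mod_cast hM
    positivity
  have hc : (Fintype.card (VV M r) : ℝ) = 2 * ((M : ℝ) * r) := by
    rw [card_VV]; push_cast; ring
  let x : VV M r := (true, ⟨0, hM⟩, ⟨0, hr⟩)
  have h1 := kp_half hM hr t true x
  have h2 : ∑ z : Fin M × Fin r, kernelPow (GG M r) t (true, z) x ≤
      ∑ _z : Fin M × Fin r, (5 / 4) / (2 * ((M : ℝ) * r)) := by
    apply Finset.sum_le_sum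
    intro z _
    have h3 := (abs_le.1 (h (true, z) x)).2
    rw [hc] at h3
    rw [le_div_iff₀ (by positivity)]
    have : kernelPow (GG M r) t (true, z) x / (1 / (2 * ((M : ℝ) * r))) =
        kernelPow (GG M r) t (true, z) x * (2 * ((M : ℝ) * r)) := by field_simp
    rw [this] at h3
    linarith
  rw [h1] at h2
  simp only [Finset.sum_const, Finset.card_univ, Fintype.card_prod, Fintype.card_fin,
      nsmul_eq_mul] at h2
  push_cast at h2
  have h4 : (M : ℝ) * r * (5 / 4 / (2 * ((M : ℝ) * r))) = 5 / 8 := by field_simp; norm_num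
  rw [h4] at h2
  simp [x] at h2
  linarith

lemma qq_bern (t : ℕ) : (1 - 2 * qq M r) ^ t * (1 + 2 * qq M r * t) ≤ 1 := by
  have h1 := qq_pos hM hr
  have h2 := qq_le_half hM hr
  have h3 : 1 + 2 * qq M r * t ≤ (1 + 2 * qq M r) ^ t := by
    have := one_add_mul_le_pow (a := 2 * qq M r) (by linarith) t
    linarith
  have h0 : 0 ≤ (1 - 2 * qq M r) ^ t := pow_nonneg (by linarith) t
  calc (1 - 2 * qq M r) ^ t * (1 + 2 * qq M r * t) ≤
      (1 - 2 * qq M r) ^ t * (1 + 2 * qq M r) ^ t := mul_le_mul_of_nonneg_left h3 h0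
    _ = (1 - (2 * qq M r) ^ 2) ^ t := by rw [← mul_pow]; congr 1; ring
    _ ≤ 1 := by
        apply pow_le_one₀
        · nlinarith
        · nlinarith [sq_nonneg (qq M r)]

omit hM hr in
lemma green_eq (x y : VV M r) : green (GG M r) x y =
    ∑ t ∈ Finset.range (mixTime (GG M r) + 1), kernelPow (GG M r) t x y := rfl

lemma green_nonneg (x y : VV M r) : 0 ≤ green (GG M r) x y :=
  Finset.sum_nonneg fun t _ => kp_nonneg hM hr t x y

lemma green_le (hlam : lam M r ≤ 3 / 4) {x y : VV M r} (hxy : x ≠ y) :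
    green (GG M r) x y ≤ (mixTime (GG M r) + 1) / ((M : ℝ) * r) + 4 / r := by
  have hr0 : (0 : ℝ) < r := by exact_mod_cast hr
  have hl0 := lam_nonneg hM hr
  rw [green_eq]
  have h1 : ∀ t ∈ Finset.range (mixTime (GG M r) + 1), kernelPow (GG M r) t x y ≤
      1 / ((M : ℝ) * r) + (1 / r) * lam M r ^ t := by
    intro t _
    have a := kp_le hM hr t x y
    have b := Qt_le hM hr t hxy
    have : lam M r ^ t / r = (1 / r) * lam M r ^ t := by ring
    linarith
  refine (Finset.sum_le_sum h1).trans ?_
  rw [Finset.sum_add_distrib, ← Finset.mul_sum]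
  have h2 : ∑ t ∈ Finset.range (mixTime (GG M r) + 1), lam M r ^ t ≤ 4 := by
    have h3 : ∀ t ∈ Finset.range (mixTime (GG M r) + 1), lam M r ^ t ≤ (3 / 4 : ℝ) ^ t :=
      fun t _ => pow_le_pow_left₀ hl0 hlam t
    refine (Finset.sum_le_sum h3).trans ?_
    have h4 := geom_sum_mul (3 / 4 : ℝ) (mixTime (GG M r) + 1)
    have h5 : (0 : ℝ) ≤ (3 / 4) ^ (mixTime (GG M r) + 1) := by positivity
    linarith
  have h6 : ∑ _t ∈ Finset.range (mixTime (GG M r) + 1), 1 / ((M : ℝ) * r) =
      (mixTime (GG M r) + 1) / ((M : ℝ) * r) := by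
    rw [Finset.sum_const, Finset.card_range, nsmul_eq_mul]
    push_cast
    ring
  rw [h6]
  have h7 : (1 / (r : ℝ)) * ∑ t ∈ Finset.range (mixTime (GG M r) + 1), lam M r ^ t ≤
      (1 / (r : ℝ)) * 4 := mul_le_mul_of_nonneg_left h2 (by positivity)
  have h8 : (1 / (r : ℝ)) * 4 = 4 / r := by ring
  linarith

lemma green_row (x : VV M r) : ∑ y, green (GG M r) x y = mixTime (GG M r) + 1 := by
  simp only [green_eq]
  rw [Finset.sum_comm]
  simp only [kp_row hM hr]
  simp

end

/-! ### Hitting probabilities through path sums -/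

/-- path sum starting at `x` -/
lemma path_cons {T : ℕ} (x : VV M r) (F : (Fin (T + 2) → VV M r) → ℝ) :
    ∑ ω : Fin (T + 2) → VV M r, (if ω 0 = x then pathWeight (GG M r) ω * F ω else 0) =
    ∑ ω' : Fin (T + 1) → VV M r, pk x (ω' 0) * (pathWeight (GG M r) ω' * F (Fin.cons x ω')) := by
  rw [← (Fin.consEquiv (fun _ => VV M r)).sum_comp, Fintype.sum_prod_type]
  rw [Finset.sum_eq_single x]
  · apply Finset.sum_congr rfl
    intro ω' _
    have e1 : (Fin.consEquiv (fun _ => VV M r)) (x, ω') = Fin.cons x ω' := rfl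
    rw [e1]
    rw [if_pos (Fin.cons_zero _ _)]
    unfold pathWeight
    rw [Fin.prod_univ_succ]
    have e2 : (Fin.cons x ω' : Fin (T + 2) → VV M r) (Fin.castSucc 0) = x := rfl
    have e3 : (Fin.cons x ω' : Fin (T + 2) → VV M r) (Fin.succ 0) = ω' 0 := rfl
    rw [e2, e3, lazyKernel_GG]
    have e4 : ∀ s : Fin T, lazyKernel (GG M r) ((Fin.cons x ω' : Fin (T + 2) → VV M r)
        (Fin.castSucc s.succ)) ((Fin.cons x ω' : Fin (T + 2) → VV M r) s.succ.succ) =
        lazyKernel (GG M r) (ω' s.castSucc) (ω' s.succ) := fun s => rfl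
    simp only [e4]
    ring
  · intro b _ hb
    apply Finset.sum_eq_zero
    intro ω' _
    have e1 : (Fin.consEquiv (fun _ => VV M r)) (b, ω') = Fin.cons b ω' := rfl
    rw [e1, if_neg]
    rw [Fin.cons_zero]; exact hb
  · simp

lemma path_split {T : ℕ} (F : (Fin (T + 1) → VV M r) → ℝ) :
    ∑ ω : Fin (T + 1) → VV M r, F ω =
    ∑ x, ∑ ω : Fin (T + 1) → VV M r, if ω 0 = x then F ω else 0 := by
  rw [Finset.sum_comm]
  apply Finset.sum_congr rfl
  intro ω _
  simp

section

variable (hM : 0 < M) (hr : 0 < r)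
include hM hr

lemma path_mass (T : ℕ) (x : VV M r) :
    ∑ ω : Fin (T + 1) → VV M r, (if ω 0 = x then pathWeight (GG M r) ω * 1 else 0) = 1 := by
  induction T generalizing x with
  | zero =>
    rw [Finset.sum_eq_single (fun _ => x)]
    · simp [pathWeight]
    · intro ω _ hω
      rw [if_neg]
      intro e
      apply hω
      funext i
      rw [Fin.eq_zero i, e]
    · simp
  | succ T ih =>
    rw [path_cons x (fun _ => 1), path_split]
    have h1 : ∀ y : VV M r, ∑ ω : Fin (T + 1) → VV M r,
        (if ω 0 = y then pk x (ω 0) * (pathWeight (GG M r) ω * 1) else 0) = pk x y := by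
      intro y
      have h2 : ∀ ω : Fin (T + 1) → VV M r,
          (if ω 0 = y then pk x (ω 0) * (pathWeight (GG M r) ω * 1) else 0) =
          pk x y * (if ω 0 = y then pathWeight (GG M r) ω * 1 else 0) := by
        intro ω
        by_cases h : ω 0 = y
        · rw [if_pos h, if_pos h, h]
        · rw [if_neg h, if_neg h, mul_zero]
      simp_rw [h2]
      rw [← Finset.mul_sum, ih, mul_one]
    simp_rw [h1]
    exact pk_row hM hr x

open Classical in
lemma path_marg (T : ℕ) (s : Fin (T + 1)) (x y : VV M r) :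
    ∑ ω : Fin (T + 1) → VV M r,
      (if ω 0 = x then pathWeight (GG M r) ω * (if ω s = y then 1 else 0) else 0) =
      kernelPow (GG M r) s x y := by
  induction T generalizing x with
  | zero =>
    have hs : s = 0 := Fin.eq_zero s
    subst hs
    rw [Finset.sum_eq_single (fun _ => x)]
    · by_cases h : x = y <;> simp [pathWeight, kernelPow, h]
    · intro ω _ hω
      rw [if_neg]
      intro e
      apply hω
      funext i
      rw [Fin.eq_zero i, e]
    · simp
  | succ T ih =>
    rcases Fin.eq_zero_or_eq_succ s with hs | ⟨s', hs⟩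
    · subst hs
      have h1 : ∀ ω : Fin (T + 2) → VV M r,
          (if ω 0 = x then pathWeight (GG M r) ω * (if ω 0 = y then 1 else 0) else 0) =
          (if x = y then 1 else 0) * (if ω 0 = x then pathWeight (GG M r) ω * 1 else 0) := by
        intro ω
        by_cases h : ω 0 = x
        · rw [if_pos h, if_pos h, h]; ring
        · rw [if_neg h, if_neg h, mul_zero]
      simp_rw [h1]
      rw [← Finset.mul_sum, path_mass hM hr, mul_one]
      by_cases h : x = y <;> simp [kernelPow, h]
    · subst hs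
      rw [path_cons x (fun ω => if ω s'.succ = y then 1 else 0), path_split]
      have h1 : ∀ w : VV M r, ∑ ω : Fin (T + 1) → VV M r,
          (if ω 0 = w then pk x (ω 0) * (pathWeight (GG M r) ω *
            (if (Fin.cons x ω : Fin (T + 2) → VV M r) s'.succ = y then 1 else 0)) else 0) =
          pk x w * kernelPow (GG M r) s' w y := by
        intro w
        rw [← ih s' w, Finset.mul_sum]
        apply Finset.sum_congr rfl
        intro ω _
        by_cases h : ω 0 = w
        · rw [if_pos h, if_pos h, h, Fin.cons_succ]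
        · rw [if_neg h, if_neg h, mul_zero]
      simp_rw [h1]
      rw [Fin.val_succ, kp_succ]

lemma pathWeight_nonneg {T : ℕ} (ω : Fin (T + 1) → VV M r) : 0 ≤ pathWeight (GG M r) ω := by
  unfold pathWeight
  apply Finset.prod_nonneg
  intro s _
  rw [lazyKernel_GG]
  exact pk_nonneg hM hr _ _

open Classical in
lemma hit_le_green (x y z : VV M r) :
    hitProb (GG M r) (mixTime (GG M r)) x y z ≤ green (GG M r) x y + green (GG M r) x z := by
  have h1 : ∀ w : VV M r, green (GG M r) x w =
      ∑ ω : Fin (mixTime (GG M r) + 1) → VV M r, ∑ s : Fin (mixTime (GG M r) + 1),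
      (if ω 0 = x then pathWeight (GG M r) ω * (if ω s = w then 1 else 0) else 0) := by
    intro w
    rw [Finset.sum_comm, green_eq, Finset.sum_range]
    apply Finset.sum_congr rfl
    intro s _
    rw [path_marg hM hr]
  rw [h1 y, h1 z, ← Finset.sum_add_distrib]
  unfold hitProb
  apply Finset.sum_le_sum
  intro ω _
  have hw := pathWeight_nonneg hM hr ω
  by_cases h0 : ω 0 = x
  · simp only [h0, true_and, if_true]
    rw [← Finset.mul_sum, ← Finset.mul_sum]
    by_cases h2 : ∃ s, ω s = y ∨ ω s = z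
    · rw [if_pos h2]
      obtain ⟨s, hs⟩ := h2
      have h3 : ∀ w : VV M r, ω s = w →
          1 ≤ ∑ s : Fin (mixTime (GG M r) + 1), (if ω s = w then (1 : ℝ) else 0) := by
        intro w hsw
        have := Finset.single_le_sum (f := fun s : Fin (mixTime (GG M r) + 1) =>
          (if ω s = w then (1 : ℝ) else 0)) (s := Finset.univ)
          (fun i _ => by split_ifs <;> norm_num) (Finset.mem_univ s)
        simpa [hsw] using this
      have h4 : ∀ w : VV M r,
          0 ≤ ∑ s : Fin (mixTime (GG M r) + 1), (if ω s = w then (1 : ℝ) else 0) := by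
        intro w
        exact Finset.sum_nonneg fun i _ => by split_ifs <;> norm_num
      rcases hs with hs | hs
      · have a := h3 y hs
        have b := h4 z
        nlinarith
      · have a := h3 z hs
        have b := h4 y
        nlinarith
    · rw [if_neg h2]
      have h4 : ∀ w : VV M r,
          0 ≤ ∑ s : Fin (mixTime (GG M r) + 1), (if ω s = w then (1 : ℝ) else 0) := by
        intro w
        exact Finset.sum_nonneg fun i _ => by split_ifs <;> norm_num
      have a := h4 y
      have b := h4 z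
      positivity
  · simp [h0]

end

end TwoWalks
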