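import Pool.Agent.TwoWalks.CondA2

/-! The sequence satisfies assumption (A). -/

open Filter Topology

namespace TwoWalks

section

variable {n : ℕ} (hn : 2 ≤ n)
include hn

lemma one_le_of_two : 1 ≤ n := le_trans (by norm_num) hn

lemma lam_le : lam (n ^ 30) (n ^ 20) ≤ 3 / 4 := by
  have h1 := one_le_of_two hn
  have hx : (2 : ℝ) ≤ n := by exact_mod_cast hn
  have hc := cc_pos (M_pos' h1) (r_pos' h1)
  have hq := qq_up h1
  unfold lam
  have h2 : 1 / (2 * (n : ℝ) ^ 30) ≤ 1 / 4 := by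
    apply one_div_le_one_div_of_le (by norm_num)
    have : (2 : ℝ) ^ 30 ≤ (n : ℝ) ^ 30 := pow_le_pow_left₀ (by norm_num) hx 30
    norm_num at this
    linarith
  linarith

lemma lam_pow_le : 2 * (((n ^ 30 : ℕ) : ℝ) * ((n ^ 20 : ℕ) : ℝ)) *
    lam (n ^ 30) (n ^ 20) ^ (14 * n ^ 30) ≤ 1 / 8 := by
  have h1 := one_le_of_two hn
  have hx : (2 : ℝ) ≤ n := by exact_mod_cast hn
  have hx0 : (0 : ℝ) < n := by linarith
  have hl := lam_le hn
  have hl0 := lam_nonneg (M_pos' h1) (r_pos' h1)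
  have h2 : lam (n ^ 30) (n ^ 20) ^ (2 * n ^ 30) ≤ 3 / (2 * (n : ℝ) ^ 30) := by
    have h3 : lam (n ^ 30) (n ^ 20) ^ (2 * n ^ 30) ≤ (3 / 4 : ℝ) ^ (2 * n ^ 30) :=
      pow_le_pow_left₀ hl0 hl _
    refine h3.trans ?_
    have h4 : 1 + ((2 * n ^ 30 : ℕ) : ℝ) * (1 / 3) ≤ (4 / 3 : ℝ) ^ (2 * n ^ 30) := by
      have := one_add_mul_le_pow (a := (1 / 3 : ℝ)) (by norm_num) (2 * n ^ 30)
      have e : (1 : ℝ) + 1 / 3 = 4 / 3 := by norm_num
      rwa [e] at this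
    have h5 : (3 / 4 : ℝ) ^ (2 * n ^ 30) * (4 / 3 : ℝ) ^ (2 * n ^ 30) = 1 := by
      rw [← mul_pow]; norm_num
    rw [le_div_iff₀ (by positivity)]
    push_cast at h4
    have h6 : (0 : ℝ) < (3 / 4 : ℝ) ^ (2 * n ^ 30) := by positivity
    nlinarith [mul_le_mul_of_nonneg_left h4 h6.le]
  have h7 : lam (n ^ 30) (n ^ 20) ^ (14 * n ^ 30) ≤ (3 / (2 * (n : ℝ) ^ 30)) ^ 7 := by
    have e : 14 * n ^ 30 = (2 * n ^ 30) * 7 := by ring
    rw [e, pow_mul]
    exact pow_le_pow_left₀ (pow_nonneg hl0 _) h2 7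
  push_cast
  calc 2 * ((n : ℝ) ^ 30 * (n : ℝ) ^ 20) * lam (n ^ 30) (n ^ 20) ^ (14 * n ^ 30) ≤
      2 * ((n : ℝ) ^ 30 * (n : ℝ) ^ 20) * (3 / (2 * (n : ℝ) ^ 30)) ^ 7 :=
        mul_le_mul_of_nonneg_left h7 (by positivity)
    _ = (2187 / 64) / (n : ℝ) ^ 160 := by field_simp; norm_num
    _ ≤ 1 / 8 := by
        rw [div_le_div_iff₀ (by positivity) (by norm_num)]
        have : (2 : ℝ) ^ 160 ≤ (n : ℝ) ^ 160 := pow_le_pow_left₀ (by norm_num) hx 160
        norm_num at this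
        linarith

lemma q_pow_le : (1 - 2 * qq (n ^ 30) (n ^ 20)) ^ (14 * n ^ 30) ≤ 1 / 8 := by
  have h1 := one_le_of_two hn
  have hx : (2 : ℝ) ≤ n := by exact_mod_cast hn
  have hx0 : (0 : ℝ) < n := by linarith
  have hq := qq_low h1
  have hq2 := qq_le_half (M_pos' h1) (r_pos' h1)
  have h2 := qq_bern (M_pos' h1) (r_pos' h1) (14 * n ^ 30)
  have h3 : (7 : ℝ) ≤ 2 * qq (n ^ 30) (n ^ 20) * ((14 * n ^ 30 : ℕ) : ℝ) := by
    push_cast
    have e : (7 : ℝ) = 2 * (1 / (4 * (n : ℝ) ^ 30)) * (14 * (n : ℝ) ^ 30) := by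
      field_simp; norm_num
    rw [e]
    apply mul_le_mul_of_nonneg_right _ (by positivity)
    linarith
  have h0 : 0 ≤ (1 - 2 * qq (n ^ 30) (n ^ 20)) ^ (14 * n ^ 30) := pow_nonneg (by linarith) _
  nlinarith

lemma mix_up_mem : (14 * n ^ 30) ∈ {t : ℕ | ∀ x y : VV (n ^ 30) (n ^ 20),
    |kernelPow (GG (n ^ 30) (n ^ 20)) t x y /
      (1 / (Fintype.card (VV (n ^ 30) (n ^ 20)) : ℝ)) - 1| ≤ 1 / 4} := by
  have h1 := one_le_of_two hn
  exact mix_mem (M_pos' h1) (r_pos' h1) (q_pow_le hn) (lam_pow_le hn)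

lemma mixTime_le : mixTime (GG (n ^ 30) (n ^ 20)) ≤ 14 * n ^ 30 := Nat.sInf_le (mix_up_mem hn)

lemma mixTime_le' : (mixTime (GG (n ^ 30) (n ^ 20)) : ℝ) ≤ 14 * (n : ℝ) ^ 30 := by
  exact_mod_cast mixTime_le hn

lemma le_mixTime : (n : ℝ) ^ 30 / 2 ≤ mixTime (GG (n ^ 30) (n ^ 20)) := by
  have h1 := one_le_of_two hn
  have hx0 : (0 : ℝ) < n := by exact_mod_cast h1
  have hmem : mixTime (GG (n ^ 30) (n ^ 20)) ∈ {t : ℕ | ∀ x y : VV (n ^ 30) (n ^ 20),
    |kernelPow (GG (n ^ 30) (n ^ 20)) t x y /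
      (1 / (Fintype.card (VV (n ^ 30) (n ^ 20)) : ℝ)) - 1| ≤ 1 / 4} :=
    Nat.sInf_mem ⟨_, mix_up_mem hn⟩
  have h2 := mix_lower (M_pos' h1) (r_pos' h1) hmem
  have hq := qq_up h1
  have hq2 := qq_le_half (M_pos' h1) (r_pos' h1)
  have h3 := one_add_mul_le_pow (a := -(2 * qq (n ^ 30) (n ^ 20))) (by linarith)
    (mixTime (GG (n ^ 30) (n ^ 20)))
  have e : 1 + -(2 * qq (n ^ 30) (n ^ 20)) = 1 - 2 * qq (n ^ 30) (n ^ 20) := by ring
  rw [e] at h3
  have h4 : 3 / 4 ≤ 2 * qq (n ^ 30) (n ^ 20) * mixTime (GG (n ^ 30) (n ^ 20)) := by linarith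
  have h5 : 2 * qq (n ^ 30) (n ^ 20) * mixTime (GG (n ^ 30) (n ^ 20)) ≤
      2 * (1 / (2 * (n : ℝ) ^ 30)) * mixTime (GG (n ^ 30) (n ^ 20)) := by
    apply mul_le_mul_of_nonneg_right _ (Nat.cast_nonneg _)
    linarith
  have h6 : 2 * (1 / (2 * (n : ℝ) ^ 30)) * (mixTime (GG (n ^ 30) (n ^ 20)) : ℝ) =
      mixTime (GG (n ^ 30) (n ^ 20)) / (n : ℝ) ^ 30 := by field_simp
  rw [h6] at h5
  have h7 : 3 / 4 ≤ (mixTime (GG (n ^ 30) (n ^ 20)) : ℝ) / (n : ℝ) ^ 30 := h4.trans h5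
  rw [le_div_iff₀ (by positivity)] at h7
  have : (0 : ℝ) < (n : ℝ) ^ 30 := by positivity
  linarith

lemma green_up {x y : VV (n ^ 30) (n ^ 20)} (hxy : x ≠ y) :
    green (GG (n ^ 30) (n ^ 20)) x y ≤ 19 / (n : ℝ) ^ 20 := by
  have h1 := one_le_of_two hn
  have hx : (1 : ℝ) ≤ n := by exact_mod_cast h1
  have hx0 : (0 : ℝ) < n := by linarith
  have h2 := green_le (M_pos' h1) (r_pos' h1) (lam_le hn) hxy
  have h3 := mixTime_le' hn
  refine h2.trans ?_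
  push_cast
  have h4 : (mixTime (GG (n ^ 30) (n ^ 20)) + 1 : ℝ) / ((n : ℝ) ^ 30 * (n : ℝ) ^ 20) ≤
      15 / (n : ℝ) ^ 20 := by
    rw [div_le_div_iff₀ (by positivity) (by positivity)]
    have h5 : (mixTime (GG (n ^ 30) (n ^ 20)) + 1 : ℝ) ≤ 15 * (n : ℝ) ^ 30 := by
      have : (1 : ℝ) ≤ (n : ℝ) ^ 30 := one_le_pow₀ hx
      linarith
    have h6 : (0 : ℝ) < (n : ℝ) ^ 20 := by positivity
    nlinarith
  have h7 : (19 : ℝ) / (n : ℝ) ^ 20 = 15 / (n : ℝ) ^ 20 + 4 / (n : ℝ) ^ 20 := by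
    field_simp; norm_num
  linarith

lemma hit_up (x y z : VV (n ^ 30) (n ^ 20)) (hxy : x ≠ y) (hxz : x ≠ z) :
    hitProb (GG (n ^ 30) (n ^ 20)) (mixTime (GG (n ^ 30) (n ^ 20))) x y z ≤ 1 / 2 := by
  have h1 := one_le_of_two hn
  have hx : (2 : ℝ) ≤ n := by exact_mod_cast hn
  have hx0 : (0 : ℝ) < n := by linarith
  refine (hit_le_green (M_pos' h1) (r_pos' h1) x y z).trans ?_
  have h2 := green_up hn hxy
  have h3 := green_up hn hxz
  have h4 : 19 / (n : ℝ) ^ 20 ≤ 1 / 4 := by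
    rw [div_le_div_iff₀ (by positivity) (by norm_num)]
    have : (2 : ℝ) ^ 20 ≤ (n : ℝ) ^ 20 := pow_le_pow_left₀ (by norm_num) hx 20
    norm_num at this
    linarith
  linarith

open Classical in
lemma green_sq_sum (x : VV (n ^ 30) (n ^ 20)) :
    ∑ y ∈ Finset.univ.erase x, green (GG (n ^ 30) (n ^ 20)) x y ^ 2 ≤
      19 / (n : ℝ) ^ 20 * (2 * mixTime (GG (n ^ 30) (n ^ 20))) := by
  have h1 := one_le_of_two hn
  have hx : (2 : ℝ) ≤ n := by exact_mod_cast hn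
  have hx0 : (0 : ℝ) < n := by linarith
  have h2 : ∀ y ∈ Finset.univ.erase x, green (GG (n ^ 30) (n ^ 20)) x y ^ 2 ≤
      19 / (n : ℝ) ^ 20 * green (GG (n ^ 30) (n ^ 20)) x y := by
    intro y hy
    have hyx : x ≠ y := fun e => (Finset.mem_erase.1 hy).1 e.symm
    have a := green_up hn hyx
    have b := green_nonneg (M_pos' h1) (r_pos' h1) x y
    nlinarith
  refine (Finset.sum_le_sum h2).trans ?_
  rw [← Finset.mul_sum]
  apply mul_le_mul_of_nonneg_left _ (by positivity)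
  have h3 : ∑ y ∈ Finset.univ.erase x, green (GG (n ^ 30) (n ^ 20)) x y ≤
      ∑ y, green (GG (n ^ 30) (n ^ 20)) x y :=
    Finset.sum_le_sum_of_subset_of_nonneg (Finset.erase_subset _ _)
      (fun y _ _ => green_nonneg (M_pos' h1) (r_pos' h1) x y)
  rw [green_row (M_pos' h1) (r_pos' h1)] at h3
  have h4 := le_mixTime hn
  have h5 : (2 : ℝ) ^ 30 ≤ (n : ℝ) ^ 30 := pow_le_pow_left₀ (by norm_num) hx 30
  norm_num at h5
  linarith

lemma log_card_le : Real.log (Fintype.card (VV (n ^ 30) (n ^ 20)) : ℝ) ≤ 51 * n ∧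
    0 < Real.log (Fintype.card (VV (n ^ 30) (n ^ 20)) : ℝ) := by
  have hx : (2 : ℝ) ≤ n := by exact_mod_cast hn
  have hx0 : (0 : ℝ) < n := by linarith
  have hc : (Fintype.card (VV (n ^ 30) (n ^ 20)) : ℝ) = 2 * (n : ℝ) ^ 50 := by
    rw [card_VV]; push_cast; ring
  rw [hc]
  constructor
  · rw [Real.log_mul (by norm_num) (by positivity), Real.log_pow]
    have h1 := Real.log_le_sub_one_of_pos hx0
    have h2 := Real.log_le_sub_one_of_pos (show (0 : ℝ) < 2 by norm_num)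
    push_cast
    linarith
  · apply Real.log_pos
    have : (1 : ℝ) ≤ (n : ℝ) ^ 50 := one_le_pow₀ (by linarith)
    linarith

omit hn in
lemma card_n : (Fintype.card (VV (n ^ 30) (n ^ 20)) : ℝ) = 2 * (n : ℝ) ^ 50 := by
  rw [card_VV]; push_cast; ring

lemma mix_small {ε : ℝ} (hε : 0 < ε) (h : 20000 / ε ≤ n) :
    (mixTime (GG (n ^ 30) (n ^ 20)) : ℝ) ≤ ε * ((Fintype.card (VV (n ^ 30) (n ^ 20)) : ℝ) /
      Real.log (Fintype.card (VV (n ^ 30) (n ^ 20))) ^ 2) := by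
  have hx : (2 : ℝ) ≤ n := by exact_mod_cast hn
  have hx0 : (0 : ℝ) < n := by linarith
  have hm := mixTime_le' hn
  have hl := log_card_le hn
  have h3 : 2 * (n : ℝ) ^ 50 / (51 * n) ^ 2 ≤
      (Fintype.card (VV (n ^ 30) (n ^ 20)) : ℝ) /
        Real.log (Fintype.card (VV (n ^ 30) (n ^ 20))) ^ 2 := by
    rw [card_n] at hl ⊢
    apply div_le_div_of_nonneg_left (by positivity) (pow_pos hl.2 2)
    exact pow_le_pow_left₀ hl.2.le hl.1 2
  refine hm.trans ?_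
  refine le_trans ?_ (mul_le_mul_of_nonneg_left h3 hε.le)
  have h4 : ε * (2 * (n : ℝ) ^ 50 / (51 * n) ^ 2) = (ε * n) * (2 / 2601 * (n : ℝ) ^ 47) := by
    field_simp; norm_num
  rw [h4]
  have h5 : 20000 ≤ ε * n := by
    rw [div_le_iff₀ hε] at h
    linarith
  have h7 : (n : ℝ) ^ 30 ≤ (n : ℝ) ^ 47 := pow_le_pow_right₀ (by linarith) (by norm_num)
  have h8 : (0 : ℝ) < (n : ℝ) ^ 47 := by positivity
  have h9 : 20000 * (2 / 2601 * (n : ℝ) ^ 47) ≤ (ε * n) * (2 / 2601 * (n : ℝ) ^ 47) :=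
    mul_le_mul_of_nonneg_right h5 (by positivity)
  linarith

open Classical in
lemma green_small {ε : ℝ} (hε : 0 < ε) (h : 2000 / ε ≤ n) (v : VV (n ^ 30) (n ^ 20)) :
    ∑ y ∈ Finset.univ.erase v, green (GG (n ^ 30) (n ^ 20)) v y ^ 2 ≤
      ε * ((mixTime (GG (n ^ 30) (n ^ 20)) : ℝ) /
        Real.log (Fintype.card (VV (n ^ 30) (n ^ 20)))) := by
  have hx : (2 : ℝ) ≤ n := by exact_mod_cast hn
  have hx0 : (0 : ℝ) < n := by linarith
  have hg := green_sq_sum hn v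
  have hl := log_card_le hn
  refine hg.trans ?_
  set m : ℝ := (mixTime (GG (n ^ 30) (n ^ 20)) : ℝ) with hm
  have hm0 : 0 ≤ m := Nat.cast_nonneg _
  have h3 : m / (51 * n) ≤ m / Real.log (Fintype.card (VV (n ^ 30) (n ^ 20))) := by
    apply div_le_div_of_nonneg_left hm0 hl.2 hl.1
  refine le_trans ?_ (mul_le_mul_of_nonneg_left h3 hε.le)
  have h4 : ε * (m / (51 * n)) = (ε * n) * (m / (51 * (n : ℝ) ^ 2)) := by
    field_simp
  rw [h4]
  have h5 : 2000 ≤ ε * n := by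
    rw [div_le_iff₀ hε] at h
    linarith
  have h9 : 2000 * (m / (51 * (n : ℝ) ^ 2)) ≤ (ε * n) * (m / (51 * (n : ℝ) ^ 2)) :=
    mul_le_mul_of_nonneg_right h5 (by positivity)
  refine le_trans ?_ h9
  have h10 : 19 / (n : ℝ) ^ 20 * (2 * m) = 38 * m / (n : ℝ) ^ 20 := by
    ring
  have h11 : 2000 * (m / (51 * (n : ℝ) ^ 2)) = 2000 / 51 * m / (n : ℝ) ^ 2 := by
    field_simp
  have h12 : (n : ℝ) ^ 2 ≤ (n : ℝ) ^ 20 := pow_le_pow_right₀ (by linarith) (by norm_num)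
  rw [h10, h11]
  calc 38 * m / (n : ℝ) ^ 20 ≤ 38 * m / (n : ℝ) ^ 2 :=
        div_le_div_of_nonneg_left (by positivity) (by positivity) h12
    _ ≤ _ := by
        apply div_le_div_of_nonneg_right _ (by positivity)
        linarith

lemma log_nonneg' : 0 ≤ Real.log (Fintype.card (VV (n ^ 30) (n ^ 20))) := (log_card_le hn).2.le

lemma card_ge : (n : ℝ) ≤ Fintype.card (VV (n ^ 30) (n ^ 20)) := by
  have hx := x_ge (one_le_of_two hn)
  rw [card_n]
  have : (n : ℝ) ≤ (n : ℝ) ^ 50 := le_self_pow₀ hx (by norm_num)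
  linarith

lemma mix_ge : (1 / 2 : ℝ) * n ≤ mixTime (GG (n ^ 30) (n ^ 20)) := by
  have hx := x_ge (one_le_of_two hn)
  have := le_mixTime hn
  have h2 : (n : ℝ) ≤ (n : ℝ) ^ 30 := le_self_pow₀ hx (by norm_num)
  linarith

end

/-- The parameter of the `k`-th graph. -/
def idx (k : ℕ) : ℕ := k + 10000

lemma idx_ge (k : ℕ) : 10000 ≤ idx k := by unfold idx; omega

lemma tendsto_k : Tendsto (fun k : ℕ => ((idx k : ℕ) : ℝ)) atTop atTop := by
  have := tendsto_natCast_atTop_atTop (R := ℝ)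
  exact this.comp (tendsto_add_atTop_nat 10000)

attribute [irreducible] idx

lemma two_le_k (k : ℕ) : 2 ≤ idx k := le_trans (by norm_num) (idx_ge k)

/-- The vertex sets of the sequence. -/
abbrev Vn (k : ℕ) : Type := VV (idx k ^ 30) (idx k ^ 20)

/-- The graphs of the sequence. -/
abbrev Gn (k : ℕ) : SimpleGraph (Vn k) := GG (idx k ^ 30) (idx k ^ 20)

theorem assumptionA : AssumptionA Vn Gn where
  connected k := GG_connected (M_pos' (one_le_of_two (two_le_k k)))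
    (r_pos' (one_le_of_two (two_le_k k)))
  transitive k := GG_transitive
  card_tendsto := tendsto_atTop_mono (fun k => card_ge (two_le_k k)) tendsto_k
  mixTime_tendsto := by
    have h : Tendsto (fun k : ℕ => (1 / 2 : ℝ) * ((idx k : ℕ) : ℝ)) atTop atTop :=
      tendsto_k.const_mul_atTop (by norm_num)
    exact tendsto_atTop_mono (fun k => mix_ge (two_le_k k)) h
  mixTime_isLittleO := by
    rw [Asymptotics.isLittleO_iff]
    intro ε hε
    have h := tendsto_k.eventually (eventually_ge_atTop (20000 / ε))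
    filter_upwards [h] with k hk
    rw [Real.norm_of_nonneg (Nat.cast_nonneg _), Real.norm_of_nonneg (by positivity)]
    exact mix_small (two_le_k k) hε hk
  green_isLittleO := by
    intro v
    rw [Asymptotics.isLittleO_iff]
    intro ε hε
    have h := tendsto_k.eventually (eventually_ge_atTop (2000 / ε))
    filter_upwards [h] with k hk
    rw [Real.norm_of_nonneg (Finset.sum_nonneg fun y _ => sq_nonneg _),
      Real.norm_of_nonneg (div_nonneg (Nat.cast_nonneg _) (log_nonneg' (two_le_k k)))]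
    refine le_trans (le_of_eq (Finset.sum_congr ?_ fun _ _ => rfl))
      (green_small (two_le_k k) hε hk (v k))
    ext y
    simp only [Finset.mem_erase]
  hit_le := by
    refine ⟨1 / 2, by norm_num, ?_⟩
    intro k x y z hxy hxz _
    exact hit_up (two_le_k k) x y z hxy hxz

end TwoWalks
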