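import Pool.Agent.TwoWalks.Numer

/-! Every vertex is visited by time `T` with overwhelming probability. -/

namespace TwoWalks

variable {M r : ℕ}

section

variable (hM : 0 < M) (hr : 0 < r)
include hM hr

/-- Weight of a position relative to the half of `v`. -/
noncomputable def wt (v y : VV M r) : ℝ := if y.1 = v.1 then 1 else 1 + 1 / (2 * (r : ℝ))

omit hM in
lemma wt_bounds (v y : VV M r) : 1 ≤ wt v y ∧ wt v y ≤ 2 := by
  have h1 : (1 : ℝ) ≤ r := by exact_mod_cast hr
  have h2 : 1 / (2 * (r : ℝ)) ≤ 1 := by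
    rw [div_le_one (by positivity)]; linarith
  have h3 : 0 ≤ 1 / (2 * (r : ℝ)) := by positivity
  unfold wt
  split_ifs <;> constructor <;> linarith

lemma one_step_wt (v x : VV M r) (hxv : x ≠ v) :
    ∑ y, pk x y * ((if y = v then 0 else 1) * wt v y) ≤ (1 - cc M r / 4) * wt v x := by
  have hc := cc_pos hM hr
  have hc1 := cc_le_one hM hr
  have hrel := cc_rel hM hr
  have hr1 : (1 : ℝ) ≤ r := by exact_mod_cast hr
  have hx2 : 1 / (2 * (r : ℝ)) ≤ 1 := by rw [div_le_one (by positivity)]; linarith
  have hx0 : 0 ≤ 1 / (2 * (r : ℝ)) := by positivity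
  have hxr : (r : ℝ) * (1 / (2 * (r : ℝ))) = 1 / 2 := by field_simp
  rw [pk_sum]
  by_cases h : x.1 = v.1
  · have e0 : ((if x = v then (0 : ℝ) else 1) * wt v x) = 1 := by
      rw [if_neg hxv]; unfold wt; rw [if_pos h]; norm_num
    have e1 : ∑ z : Fin M × Fin r, ((if ((x.1, z) : VV M r) = v then (0 : ℝ) else 1) *
        wt v (x.1, z)) = (M : ℝ) * r - 1 := by
      have : ∀ z : Fin M × Fin r, ((if ((x.1, z) : VV M r) = v then (0 : ℝ) else 1) *
        wt v (x.1, z)) = 1 - if z = v.2 then 1 else 0 := by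
        intro z
        have e : ((x.1, z) : VV M r) = v ↔ z = v.2 := by
          constructor
          · intro e; rw [← e]
          · intro e; rw [e, h]
        have e3 : wt v (x.1, z) = 1 := by unfold wt; rw [if_pos h]
        rw [e3, mul_one]
        by_cases hz : z = v.2
        · rw [if_pos (e.2 hz), if_pos hz]; ring
        · rw [if_neg (fun h => hz (e.1 h)), if_neg hz]; ring
      simp_rw [this]
      rw [Finset.sum_sub_distrib]
      simp
    have e2 : ∑ j : Fin r, ((if ((!x.1, x.2.1, j) : VV M r) = v then (0 : ℝ) else 1) *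
        wt v (!x.1, x.2.1, j)) = r * (1 + 1 / (2 * (r : ℝ))) := by
      have : ∀ j : Fin r, ((if ((!x.1, x.2.1, j) : VV M r) = v then (0 : ℝ) else 1) *
        wt v (!x.1, x.2.1, j)) = 1 + 1 / (2 * (r : ℝ)) := by
        intro j
        have e3 : (!x.1) ≠ v.1 := by rw [h]; simp
        have e4 : ((!x.1, x.2.1, j) : VV M r) ≠ v := by
          intro e; apply e3; rw [← e]
        unfold wt
        rw [if_neg e4, if_neg e3, one_mul]
      simp_rw [this]
      simp
      ring
    rw [e0, e1, e2]
    have e5 : wt v x = 1 := by unfold wt; rw [if_pos h]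
    rw [e5]
    nlinarith
  · have e0 : ((if x = v then (0 : ℝ) else 1) * wt v x) = 1 + 1 / (2 * (r : ℝ)) := by
      rw [if_neg hxv]; unfold wt; rw [if_neg h, one_mul]
    have e1 : ∑ z : Fin M × Fin r, ((if ((x.1, z) : VV M r) = v then (0 : ℝ) else 1) *
        wt v (x.1, z)) = (M : ℝ) * r * (1 + 1 / (2 * (r : ℝ))) := by
      have : ∀ z : Fin M × Fin r, ((if ((x.1, z) : VV M r) = v then (0 : ℝ) else 1) *
        wt v (x.1, z)) = 1 + 1 / (2 * (r : ℝ)) := by
        intro z
        have e4 : ((x.1, z) : VV M r) ≠ v := by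
          intro e; apply h; rw [← e]
        unfold wt
        rw [if_neg e4, if_neg h, one_mul]
      simp_rw [this]
      simp
      ring
    have e2 : ∑ j : Fin r, ((if ((!x.1, x.2.1, j) : VV M r) = v then (0 : ℝ) else 1) *
        wt v (!x.1, x.2.1, j)) ≤ r := by
      have : ∀ j : Fin r, ((if ((!x.1, x.2.1, j) : VV M r) = v then (0 : ℝ) else 1) *
        wt v (!x.1, x.2.1, j)) ≤ 1 := by
        intro j
        have e3 : (!x.1) = v.1 := by
          cases hx : x.1 <;> cases hv : v.1 <;> simp_all
        unfold wt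
        rw [if_pos e3]
        split_ifs <;> norm_num
      refine (Finset.sum_le_sum fun j _ => this j).trans ?_
      simp
    rw [e0, e1]
    have e5 : wt v x = 1 + 1 / (2 * (r : ℝ)) := by unfold wt; rw [if_neg h]
    rw [e5]
    have e6 := mul_le_mul_of_nonneg_left e2 hc.le
    have e7 : (1 / 2 - cc M r) * (1 + 1 / (2 * (r : ℝ))) + cc M r * ((M : ℝ) * r *
        (1 + 1 / (2 * (r : ℝ)))) + cc M r * r = 1 + 1 / (2 * (r : ℝ)) -
        cc M r * (r * (1 / (2 * (r : ℝ)))) := by
      linear_combination (1 + 1 / (2 * (r : ℝ))) * hrel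
    rw [hxr] at e7
    nlinarith

lemma step_W (v : VV M r) (s : SS M r) (h : List (SS M r)) :
    step KK s (fun s' => nv v s' (s :: h) * wt v s'.1) ≤
      (1 - cc M r / 4) * (nv v s h * wt v s.1) := by
  have hE := (isChain_KK hM hr).stepE s
  have h1 : step KK s (fun s' => nv v s' (s :: h) * wt v s'.1) ≤
      step KK s (fun s' => nv v s h * ((if s'.1 = v then 0 else 1) * wt v s'.1)) := by
    apply hE.mono
    intro s'
    simp only [nv]
    have a := nv_nonneg v s h
    have b := (wt_bounds hr v s'.1).1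
    by_cases e1 : s'.1 = v <;> by_cases e2 : s'.2.1 = v <;> simp [e1, e2]
    · exact mul_nonneg a (by linarith)
  refine h1.trans ?_
  rw [IsExp.mul', step_KK]
  have h2 : ∀ x : VV M r, ∑ y, pk s.2.1 y * (((if x = v then (0 : ℝ) else 1) * wt v x +
      (if x = v then (0 : ℝ) else 1) * wt v x) / 2) = (if x = v then (0 : ℝ) else 1) * wt v x := by
    intro x
    rw [← Finset.sum_mul, pk_row hM hr]
    ring
  simp_rw [h2]
  rcases nv_cases v s h with h0 | h0
  · rw [h0]; simp
  · rw [h0, one_mul, one_mul]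
    apply one_step_wt hM hr
    intro e
    have := nv_fst s h
    rw [e, h0] at this
    norm_num at this

lemma E_W_le (v : VV M r) (t : ℕ) :
    EE M r t (fun p => nv v p.1 p.2 * wt v p.1.1) ≤ 2 * (1 - cc M r / 4) ^ t := by
  have hc := cc_pos hM hr
  have hc1 := cc_le_one hM hr
  induction t with
  | zero =>
    have h1 : EE M r 0 (fun p => nv v p.1 p.2 * wt v p.1.1) ≤ EE M r 0 (fun _ => 2) := by
      apply (EE_isExp hM hr 0).mono
      intro p
      have a := nv_nonneg v p.1 p.2
      have a' := nv_le_one v p.1 p.2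
      have b := wt_bounds hr v p.1.1
      nlinarith
    rw [(EE_isExp hM hr 0).const] at h1
    simpa using h1
  | succ t ih =>
    rw [Ex_succ]
    have h1 : ∀ p : SS M r × List (SS M r),
        step KK p.1 (fun s' => nv v s' (p.1 :: p.2) * wt v s'.1) ≤
        (1 - cc M r / 4) * (nv v p.1 p.2 * wt v p.1.1) := fun p => step_W hM hr v p.1 p.2
    refine ((EE_isExp hM hr t).mono h1).trans ?_
    rw [IsExp.mul', pow_succ]
    have := mul_le_mul_of_nonneg_left ih (show 0 ≤ 1 - cc M r / 4 by linarith)
    linarith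

lemma E_nv_le (v : VV M r) (t : ℕ) :
    EE M r t (fun p => nv v p.1 p.2) ≤ 2 * (1 - cc M r / 4) ^ t := by
  refine ((EE_isExp hM hr t).mono ?_).trans (E_W_le hM hr v t)
  intro p
  have a := nv_nonneg v p.1 p.2
  have b := wt_bounds hr v p.1.1
  nlinarith [b.1]

end

/-- The number of unvisited vertices. -/
noncomputable def unv (s : SS M r) (l : List (SS M r)) : ℝ := ∑ v, nv v s l

/-- Counting. -/
lemma count_total (s : SS M r) (l : List (SS M r)) :
    cnt false s l + cnt true s l + unv s l = 2 * ((M : ℝ) * r) := by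
  have key : ∀ (s' : SS M r) (f : VV M r → ℝ), (∀ v, f v = 0 ∨ f v = 1) →
      f (posi false s') * tieok false s' + f (posi true s') * tieok true s' +
        ∑ v, f v * ((if s'.1 = v then 0 else 1) * (if s'.2.1 = v then 0 else 1)) =
      ∑ v, f v := by
    intro s' f hf
    have h1 : ∀ v, f v * ((if s'.1 = v then (0 : ℝ) else 1) * (if s'.2.1 = v then 0 else 1)) =
        f v - (if v = s'.1 then f v else 0) - (if v = s'.2.1 then f v else 0) +
        (if v = s'.1 then (if s'.1 = s'.2.1 then f v else 0) else 0) := by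
      intro v
      by_cases e1 : s'.1 = v
      · subst e1
        by_cases e2 : s'.2.1 = s'.1
        · have e2' : s'.1 = s'.2.1 := e2.symm
          simp [e2]
        · have e2' : ¬ s'.1 = s'.2.1 := fun e => e2 e.symm
          simp [e2, e2']
      · have e1' : ¬ v = s'.1 := fun e => e1 e.symm
        by_cases e2 : s'.2.1 = v
        · subst e2
          simp [e1, e1']
        · have e2' : ¬ v = s'.2.1 := fun e => e2 e.symm
          simp [e1, e1', e2, e2']
    simp_rw [h1]
    rw [Finset.sum_add_distrib, Finset.sum_sub_distrib, Finset.sum_sub_distrib]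
    rw [Finset.sum_ite_eq' Finset.univ s'.1, Finset.sum_ite_eq' Finset.univ s'.2.1,
      Finset.sum_ite_eq' Finset.univ s'.1]
    simp only [Finset.mem_univ, if_true]
    unfold posi tieok
    by_cases e : s'.1 = s'.2.1
    · cases hb : s'.2.2 <;> simp [e]
    · simp [e]
  induction l generalizing s with
  | nil =>
    have := key s (fun _ => 1) (fun _ => Or.inr rfl)
    simp only [one_mul, Finset.sum_const, Finset.card_univ, card_VV, nsmul_eq_mul, mul_one] at this
    push_cast at this
    simpa only [cnt, unv, nv] using this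
  | cons a l ih =>
    have h1 := key s (fun v => nv v a l) (fun v => nv_cases v a l)
    have h2 := ih a
    have e1 : cnt false s (a :: l) = cnt false a l + nv (posi false s) a l * tieok false s := rfl
    have e2 : cnt true s (a :: l) = cnt true a l + nv (posi true s) a l * tieok true s := rfl
    have e3 : unv s (a :: l) = ∑ v, nv v a l * ((if s.1 = v then 0 else 1) *
      (if s.2.1 = v then 0 else 1)) := rfl
    have e4 : unv a l = ∑ v, nv v a l := rfl
    rw [e4] at h2
    rw [e1, e2, e3]
    linarith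

lemma unv_nonneg (s : SS M r) (l : List (SS M r)) : 0 ≤ unv s l :=
  Finset.sum_nonneg fun v _ => nv_nonneg v s l

lemma unv_le (s : SS M r) (l : List (SS M r)) : unv s l ≤ 2 * ((M : ℝ) * r) := by
  have : unv s l ≤ ∑ _v : VV M r, (1 : ℝ) := Finset.sum_le_sum fun v _ => nv_le_one v s l
  rw [Finset.sum_const, Finset.card_univ, card_VV, nsmul_eq_mul, mul_one] at this
  push_cast at this
  exact this

/-- `E (unv)²` is tiny. -/
lemma E_unv_sq (hM : 0 < M) (hr : 0 < r) (t : ℕ) :
    EE M r t (fun p => unv p.1 p.2 ^ 2) ≤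
      2 * ((M : ℝ) * r) * (2 * ((M : ℝ) * r) * (2 * (1 - cc M r / 4) ^ t)) := by
  have h1 : ∀ p : SS M r × List (SS M r), unv p.1 p.2 ^ 2 ≤
      (2 * ((M : ℝ) * r)) * ∑ v, nv v p.1 p.2 := by
    intro p
    have a := unv_nonneg p.1 p.2
    have b := unv_le p.1 p.2
    change unv p.1 p.2 ^ 2 ≤ (2 * ((M : ℝ) * r)) * unv p.1 p.2
    nlinarith
  refine ((EE_isExp hM hr t).mono h1).trans ?_
  rw [IsExp.mul']
  apply mul_le_mul_of_nonneg_left _ (by positivity)
  have h2 : (fun p : SS M r × List (SS M r) => ∑ v, nv v p.1 p.2) =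
      ∑ v, fun p => nv v p.1 p.2 := by
    ext p; simp
  rw [h2, map_sum]
  refine (Finset.sum_le_sum fun v _ => E_nv_le hM hr v t).trans ?_
  rw [Finset.sum_const, Finset.card_univ, card_VV, nsmul_eq_mul]
  push_cast
  exact le_rfl

end TwoWalks
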