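import Mathlib

/-! Definitions used in the statement: lazy random walk, uniform mixing time, truncated Green
function, the two competing walks and the sets of marked vertices. -/

open MeasureTheory Filter Topology

namespace TwoWalks

section Graph

variable {V : Type} [Fintype V]

open Classical in
/-- The kernel of the lazy random walk on `G`: `p(x,x) = 1/2`, `p(x,y) = 1/(2 deg x)` if `x ~ y`,
and `p(x,y) = 0` otherwise. -/
noncomputable def lazyKernel (G : SimpleGraph V) (x y : V) : ℝ :=
  if x = y then 1 / 2 else if G.Adj x y then 1 / (2 * (G.degree x : ℝ)) else 0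

open Classical in
/-- The `t`-step kernel `p^t(x,y)`. -/
noncomputable def kernelPow (G : SimpleGraph V) : ℕ → V → V → ℝ
  | 0, x, y => if x = y then 1 else 0
  | t + 1, x, y => ∑ z, lazyKernel G x z * kernelPow G t z y

/-- The uniform mixing time: the least `t` with `|p^t(x,y)/π(y) - 1| ≤ 1/4` for all `x, y`, where
`π(y) = 1/|V|`. -/
noncomputable def mixTime (G : SimpleGraph V) : ℕ :=
  sInf {t : ℕ | ∀ x y, |kernelPow G t x y / (1 / (Fintype.card V : ℝ)) - 1| ≤ 1 / 4}

/-- The truncated Green function `g(x,y;G) = ∑_{t=0}^{T_mix(G)} p^t(x,y)`. -/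
noncomputable def green (G : SimpleGraph V) (x y : V) : ℝ :=
  ∑ t ∈ Finset.range (mixTime G + 1), kernelPow G t x y

/-- The probability that the lazy walk started from `ω 0` follows the trajectory `ω` of length
`T`. -/
noncomputable def pathWeight (G : SimpleGraph V) {T : ℕ} (ω : Fin (T + 1) → V) : ℝ :=
  ∏ s : Fin T, lazyKernel G (ω s.castSucc) (ω s.succ)

open Classical in
/-- `P_x[τ(y) ∧ τ(z) ≤ T]` for a single lazy walk started from `x`: the total probability of the
trajectories of length `T` from `x` that visit `y` or `z`. -/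
noncomputable def hitProb (G : SimpleGraph V) (T : ℕ) (x y z : V) : ℝ :=
  ∑ ω : Fin (T + 1) → V,
    if ω 0 = x ∧ ∃ s, ω s = y ∨ ω s = z then pathWeight G ω else 0

/-- `G` is vertex-transitive. -/
def VertexTransitive (G : SimpleGraph V) : Prop := ∀ x y : V, ∃ φ : G ≃g G, φ x = y

end Graph

open Classical in
/-- Assumption (A) for a sequence of finite graphs (together with the standing assumptions that
the graphs are connected and vertex-transitive). -/
structure AssumptionA (V : ℕ → Type) [∀ n, Fintype (V n)] (G : ∀ n, SimpleGraph (V n)) :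
    Prop where
  connected : ∀ n, (G n).Connected
  transitive : ∀ n, VertexTransitive (G n)
  card_tendsto : Tendsto (fun n => (Fintype.card (V n) : ℝ)) atTop atTop
  mixTime_tendsto : Tendsto (fun n => (mixTime (G n) : ℝ)) atTop atTop
  mixTime_isLittleO : (fun n => (mixTime (G n) : ℝ)) =o[atTop]
    fun n => (Fintype.card (V n) : ℝ) / Real.log (Fintype.card (V n)) ^ 2
  green_isLittleO : ∀ x : (n : ℕ) → V n,
    (fun n => ∑ y ∈ Finset.univ.erase (x n), green (G n) (x n) y ^ 2) =o[atTop]
    fun n => (mixTime (G n) : ℝ) / Real.log (Fintype.card (V n))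
  hit_le : ∃ ρ₀ : ℝ, ρ₀ < 1 ∧ ∀ n, ∀ x y z : V n, x ≠ y → x ≠ z → y ≠ z →
    hitProb (G n) (mixTime (G n)) x y z ≤ ρ₀

section Walks

variable {V : Type} [Fintype V] {Ω : Type} [MeasurableSpace Ω]

/-- `X false` and `X true` are two independent lazy random walks on `G`, both started from the
uniform distribution `π`, and `ξ` is a sequence of fair coins, independent of each other and of
the walks. That is, the joint law of `(X false, X true, ξ)` is the product law: for all
trajectories `a`, `b`, `e` and all times `t`, the probability of following them up to time `t`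
is `π(a 0) ∏_{s<t} p(a s, a (s+1)) * π(b 0) ∏_{s<t} p(b s, b (s+1)) * (1/2)^(t+1)`. -/
structure IsTwoWalks (G : SimpleGraph V) (P : Measure Ω) (X : Bool → ℕ → Ω → V)
    (ξ : ℕ → Ω → Bool) : Prop where
  measurable_walk : ∀ i t v, MeasurableSet {ω | X i t ω = v}
  measurable_coin : ∀ t b, MeasurableSet {ω | ξ t ω = b}
  law : ∀ (t : ℕ) (a b : ℕ → V) (e : ℕ → Bool),
    P {ω | ∀ s ≤ t, X false s ω = a s ∧ X true s ω = b s ∧ ξ s ω = e s} =
      ENNReal.ofReal
        ((1 / (Fintype.card V : ℝ) * ∏ s ∈ Finset.range t, lazyKernel G (a s) (a (s + 1))) *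
        (1 / (Fintype.card V : ℝ) * ∏ s ∈ Finset.range t, lazyKernel G (b s) (b (s + 1))) *
        (1 / 2) ^ (t + 1))

/-- The set `A_i` of the vertices marked `i` in the realization `ω`: those `v` such that at the
first time `t` at which `v` is visited by one of the two walks, it is visited by walk `i`, and, if
the other walk visits it at time `t` too, the coin `ξ t` picks `i`. -/
def marked (X : Bool → ℕ → Ω → V) (ξ : ℕ → Ω → Bool) (i : Bool) (ω : Ω) : Set V :=
  {v | ∃ t, X i t ω = v ∧ (∀ s < t, ∀ j, X j s ω ≠ v) ∧ (X (!i) t ω = v → ξ t ω = i)}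

/-- The number `|A_i|` of the vertices marked `i`. -/
noncomputable def markCount (X : Bool → ℕ → Ω → V) (ξ : ℕ → Ω → Bool) (i : Bool) (ω : Ω) : ℝ :=
  ((marked X ξ i ω).ncard : ℝ)

/-- The normalised count `(|A_i| - E|A_i|) / √Var(|A_i|)`. -/
noncomputable def normalisedCount (P : Measure Ω) (X : Bool → ℕ → Ω → V) (ξ : ℕ → Ω → Bool)
    (i : Bool) (ω : Ω) : ℝ :=
  (markCount X ξ i ω - ∫ ω', markCount X ξ i ω' ∂P) /
    Real.sqrt (ProbabilityTheory.variance (markCount X ξ i) P)

end Walks

end TwoWalks
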