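import Pool.Agent.TwoWalks.Target

/-! The difference of the two counts and its `L²` approximation. -/

namespace TwoWalks

variable {M r : ℕ}

/-- Position of walk `i`. -/
def posi (i : Bool) (s : SS M r) : VV M r := if i then s.2.1 else s.1

open Classical in
/-- `0` if there is a tie that walk `i` loses. -/
noncomputable def tieok (i : Bool) (s : SS M r) : ℝ := if s.1 = s.2.1 ∧ s.2.2 ≠ i then 0 else 1

/-- Number of vertices marked `i` so far. -/
noncomputable def cnt (i : Bool) : SS M r → List (SS M r) → ℝ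
  | s, [] => tieok i s
  | s', s :: h => cnt i s h + nv (posi i s') s h * tieok i s'

/-- Difference of the counts. -/
noncomputable def Df (s : SS M r) (l : List (SS M r)) : ℝ := cnt false s l - cnt true s l

/-- The sum of the drifts. -/
noncomputable def Bf : SS M r → List (SS M r) → ℝ
  | _, [] => 0
  | _, s :: h => Bf s h + cc M r * zz s * (uu false s h - uu true s h)

lemma tieok_cases (i : Bool) (s : SS M r) : tieok i s = 0 ∨ tieok i s = 1 := by
  unfold tieok; split_ifs <;> simp

section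

variable (hM : 0 < M) (hr : 0 < r)
include hM hr

lemma step_delta (s : SS M r) (h : List (SS M r)) :
    step KK s (fun s' => nv (posi false s') s h * tieok false s' -
      nv (posi true s') s h * tieok true s') =
      ∑ x, pk s.1 x * nv x s h - ∑ y, pk s.2.1 y * nv y s h := by
  rw [step_KK]
  have h1 : ∀ x y : VV M r, ((nv (posi false ((x, y, true) : SS M r)) s h *
      tieok false ((x, y, true) : SS M r) - nv (posi true ((x, y, true) : SS M r)) s h *
      tieok true ((x, y, true) : SS M r)) +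
      (nv (posi false ((x, y, false) : SS M r)) s h *
      tieok false ((x, y, false) : SS M r) - nv (posi true ((x, y, false) : SS M r)) s h *
      tieok true ((x, y, false) : SS M r))) / 2 = nv x s h - nv y s h := by
    intro x y
    unfold posi tieok
    by_cases hxy : x = y
    · subst hxy; simp
    · simp [hxy]
  simp_rw [h1]
  have h2 : ∀ x : VV M r, ∑ y, pk s.2.1 y * (nv x s h - nv y s h) =
      nv x s h - ∑ y, pk s.2.1 y * nv y s h := by
    intro x
    simp_rw [mul_sub]
    rw [Finset.sum_sub_distrib, ← Finset.sum_mul, pk_row hM hr, one_mul]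
  simp_rw [h2, mul_sub]
  rw [Finset.sum_sub_distrib, ← Finset.sum_mul, pk_row hM hr, one_mul]

lemma sum_pk_nv (x : VV M r) (s : SS M r) (h : List (SS M r)) (hx : nv x s h = 0) :
    0 ≤ ∑ y, pk x y * nv y s h - cc M r * uu x.1 s h ∧
    ∑ y, pk x y * nv y s h - cc M r * uu x.1 s h ≤ qq M r := by
  have hc := cc_pos hM hr
  rw [pk_sum, hx]
  unfold uu qq
  have h1 : 0 ≤ ∑ j : Fin r, nv (!x.1, x.2.1, j) s h :=
    Finset.sum_nonneg fun j _ => nv_nonneg _ _ _
  have h2 : ∑ j : Fin r, nv (!x.1, x.2.1, j) s h ≤ r := by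
    have : ∑ j : Fin r, nv (!x.1, x.2.1, j) s h ≤ ∑ _j : Fin r, (1 : ℝ) :=
      Finset.sum_le_sum fun j _ => nv_le_one _ _ _
    simpa using this
  constructor <;> nlinarith

lemma step_delta_bound (s : SS M r) (h : List (SS M r)) :
    |step KK s (fun s' => nv (posi false s') s h * tieok false s' -
      nv (posi true s') s h * tieok true s') -
      cc M r * zz s * (uu false s h - uu true s h)| ≤ qq M r := by
  rw [step_delta hM hr]
  have h1 := sum_pk_nv hM hr s.1 s h (nv_fst s h)
  have h2 := sum_pk_nv hM hr s.2.1 s h (nv_snd s h)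
  have h3 : cc M r * zz s * (uu false s h - uu true s h) =
      cc M r * uu s.1.1 s h - cc M r * uu s.2.1.1 s h := by
    unfold zz sg
    cases s.1.1 <;> cases s.2.1.1 <;> norm_num <;> ring
  rw [h3, abs_le]
  constructor <;> linarith [h1.1, h1.2, h2.1, h2.2]

lemma G_rec (n : ℕ) :
    nrm (EE M r (n + 1)) (fun p => Df p.1 p.2 - Bf p.1 p.2) ≤
      Real.sqrt ((nrm (EE M r n) (fun p => Df p.1 p.2 - Bf p.1 p.2) + qq M r) ^ 2 + 1 ^ 2) := by
  have hE := EE_isExp hM hr n
  apply (isChain_KK hM hr).nrm_next n _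
    (fun p => Df p.1 p.2 - (Bf p.1 p.2 + cc M r * zz p.1 * (uu false p.1 p.2 - uu true p.1 p.2)))
  · intro s' p
    have e1 : Df s' (p.1 :: p.2) - Bf s' (p.1 :: p.2) -
        (Df p.1 p.2 - (Bf p.1 p.2 + cc M r * zz p.1 * (uu false p.1 p.2 - uu true p.1 p.2))) =
        nv (posi false s') p.1 p.2 * tieok false s' -
        nv (posi true s') p.1 p.2 * tieok true s' := by
      simp only [Df, Bf, cnt]; ring
    simp only [e1]
    rcases nv_cases (posi false s') p.1 p.2 with h1 | h1 <;>
    rcases nv_cases (posi true s') p.1 p.2 with h2 | h2 <;>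
    rcases tieok_cases false s' with h3 | h3 <;>
    rcases tieok_cases true s' with h4 | h4 <;> rw [h1, h2, h3, h4] <;> norm_num
  · have e1 : ∀ p : SS M r × List (SS M r),
        step KK p.1 (fun s' => Df s' (p.1 :: p.2) - Bf s' (p.1 :: p.2)) =
        (Df p.1 p.2 - Bf p.1 p.2) +
        (step KK p.1 (fun s' => nv (posi false s') p.1 p.2 * tieok false s' -
          nv (posi true s') p.1 p.2 * tieok true s') -
          cc M r * zz p.1 * (uu false p.1 p.2 - uu true p.1 p.2)) := by
      intro p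
      have e2 : (fun s' => Df s' (p.1 :: p.2) - Bf s' (p.1 :: p.2)) =
          fun s' => (Df p.1 p.2 - Bf p.1 p.2 - cc M r * zz p.1 *
            (uu false p.1 p.2 - uu true p.1 p.2)) +
          (nv (posi false s') p.1 p.2 * tieok false s' -
          nv (posi true s') p.1 p.2 * tieok true s') := by
        ext s'; simp only [Df, Bf, cnt]; ring
      rw [e2, IsExp.add', ((isChain_KK hM hr).stepE p.1).const]
      ring
    simp_rw [e1]
    refine (hE.nrm_add _ _).trans (add_le_add le_rfl ?_)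
    exact hE.nrm_le_const fun p => step_delta_bound hM hr p.1 p.2

lemma G_zero : nrm (EE M r 0) (fun p => Df p.1 p.2 - Bf p.1 p.2) ≤ 1 := by
  have hE := EE_isExp hM hr 0
  rw [nrm_le_iff (by norm_num)]
  have h2 : (EE M r 0) (fun p => (Df p.1 p.2 - Bf p.1 p.2) ^ 2) ≤
      (EE M r 0) (fun _ => 1 ^ 2) := by
    rw [Ex_zero, Ex_zero]
    apply Finset.sum_le_sum
    intro s _
    apply mul_le_mul_of_nonneg_left
    · simp only [Df, Bf, cnt]
      rcases tieok_cases false s with h3 | h3 <;>
      rcases tieok_cases true s with h4 | h4 <;> rw [h3, h4] <;> norm_num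
    · unfold mu0; positivity
  rwa [hE.const] at h2

lemma G_le (T : ℕ) :
    nrm (EE M r T) (fun p => Df p.1 p.2 - Bf p.1 p.2) ≤ 1 + qq M r * T + Real.sqrt T := by
  have h1 := sqrt_rec (b := fun t => nrm (EE M r t) (fun p => Df p.1 p.2 - Bf p.1 p.2))
    (b0 := 1) (κ := qq M r) (g := 1 ^ 2) (T := T) (by norm_num) (qq_pos hM hr).le
    (by norm_num) (G_zero hM hr) (fun t => nrm_nonneg _)
    (fun t _ => G_rec hM hr t) T le_rfl
  simpa using h1

omit hM hr in
lemma tau_diff (t : ℕ) (s : SS M r) (l : List (SS M r)) :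
    tau false t s l - tau true t s l = -((M * r : ℝ) * (1 - cc M r) ^ t *
      (2 * (cp M r * Yf s l) + cp M r ^ 3 * Yf s l ^ 3 / 3)) := by
  unfold tau Pp sa
  simp
  ring

/-- Bound for the error of each step of `Bf`. -/
noncomputable def bB (M r T : ℕ) : ℝ :=
  cc M r * (2 * eB M r T) + cc M r * (M * r) * cp M r ^ 3 / 3 * y3 M r T

lemma B_rec {n T : ℕ} (h : n ≤ T) :
    nrm (EE M r (n + 1)) (fun p => Bf p.1 p.2 + 2 * (M * r) * cc M r * cp M r *
      Sf (n + 1) p.1 p.2) ≤
    nrm (EE M r n) (fun p => Bf p.1 p.2 + 2 * (M * r) * cc M r * cp M r * Sf n p.1 p.2) +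
      bB M r T := by
  have hE := EE_isExp hM hr n
  have hc := cc_pos hM hr
  have hcp := cp_pos hM hr
  rw [(isChain_KK hM hr).nrm_past n (fun p =>
    (Bf p.1 p.2 + 2 * (M * r) * cc M r * cp M r * Sf n p.1 p.2) +
    ((cc M r * ((uu false p.1 p.2 - tau false n p.1 p.2) * zz p.1) -
      cc M r * ((uu true p.1 p.2 - tau true n p.1 p.2) * zz p.1)) -
    (cc M r * (M * r) * cp M r ^ 3 / 3) * ((1 - cc M r) ^ n * Yf p.1 p.2 ^ 3 * zz p.1)))]
  · refine (hE.nrm_add _ _).trans (add_le_add le_rfl ?_)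
    refine (hE.nrm_sub _ _).trans ?_
    unfold bB
    apply add_le_add
    · refine (hE.nrm_sub _ _).trans ?_
      rw [nrm_const_mul, nrm_const_mul, abs_of_pos hc]
      have h1 : ∀ a : Bool, nrm (EE M r n)
          (fun p => (uu a p.1 p.2 - tau a n p.1 p.2) * zz p.1) ≤ eB M r T := by
        intro a
        refine (hE.nrm_mono ?_).trans (ea_le hM hr a h)
        intro p
        rw [abs_mul]
        have := abs_zz p.1
        nlinarith [abs_nonneg (uu a p.1 p.2 - tau a n p.1 p.2)]
      have h2 := mul_le_mul_of_nonneg_left (h1 false) hc.le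
      have h3 := mul_le_mul_of_nonneg_left (h1 true) hc.le
      linarith
    · rw [nrm_const_mul, abs_of_nonneg (by positivity)]
      apply mul_le_mul_of_nonneg_left _ (by positivity)
      refine (hE.nrm_mono ?_).trans (nrm_Y3_le hM hr h)
      intro p
      have hβ := beta_pow_le hM hr n
      have hz := abs_zz p.1
      rw [abs_mul, abs_mul, abs_of_nonneg hβ.1, abs_pow, abs_of_nonneg
        (show 0 ≤ |Yf p.1 p.2| ^ 3 by positivity)]
      have h0 : 0 ≤ |Yf p.1 p.2| ^ 3 := by positivity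
      calc (1 - cc M r) ^ n * |Yf p.1 p.2| ^ 3 * |zz p.1| ≤
          1 * |Yf p.1 p.2| ^ 3 * 1 := by
            apply mul_le_mul _ hz (abs_nonneg _) (by positivity)
            exact mul_le_mul_of_nonneg_right hβ.2 h0
        _ = _ := by ring
  · intro s' p
    have e1 := tau_diff n p.1 p.2
    simp only [Bf, Sf]
    linear_combination (cc M r * zz p.1) * e1

lemma eB_nonneg (T : ℕ) : 0 ≤ eB M r T := by
  have := kap_nonneg hM hr T
  unfold eB; positivity

lemma bB_nonneg (T : ℕ) : 0 ≤ bB M r T := by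
  have := eB_nonneg hM hr T
  have := y3_nonneg hM hr T
  have := cc_pos hM hr
  have := cp_pos hM hr
  unfold bB; positivity

lemma B_le {n T : ℕ} (h : n ≤ T) :
    nrm (EE M r n) (fun p => Bf p.1 p.2 + 2 * (M * r) * cc M r * cp M r * Sf n p.1 p.2) ≤
      n * bB M r T := by
  induction n with
  | zero =>
    have : nrm (EE M r 0) (fun p => Bf p.1 p.2 + 2 * (M * r) * cc M r * cp M r *
        Sf 0 p.1 p.2) = 0 := by
      unfold nrm
      rw [Ex_zero]
      simp [Bf, Sf]
    rw [this]; simp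
  | succ n ih =>
    refine (B_rec hM hr (show n ≤ T by omega)).trans ?_
    have := ih (by omega)
    push_cast
    linarith

/-- The remainder of the summation by parts. -/
noncomputable def Rf (t : ℕ) (s : SS M r) (l : List (SS M r)) : ℝ :=
  (2 * qq M r) ^ 2 * Sf t s l + 2 * qq M r * (1 - cc M r) ^ t * Yf s l * zz s - Nf t s l

omit hM hr in
lemma Rf_step (n : ℕ) (s' s : SS M r) (h : List (SS M r)) :
    Rf (n + 1) s' (s :: h) = Rf n s h +
      ((1 - cc M r) ^ n * (y0f s h - (1 - 2 * qq M r) * yy s)) * dm s' s +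
      (-(2 * qq M r * cc M r * (1 - cc M r) ^ n * (Yf s h + yy s) * zz s')) := by
  have e1 := two_q_Y s h
  have e2 := yy_zz s
  have e3 : zz s' = (1 - 2 * qq M r) * zz s + dm s' s := by unfold dm; ring
  simp only [Rf, Sf, Nf, Yf]
  rw [e3]
  linear_combination ((1 - cc M r) ^ n * dm s' s) * e1 +
    (2 * qq M r * (1 - cc M r) ^ n * (1 - 2 * qq M r)) * e2

lemma R_rec {n T : ℕ} (h : n ≤ T) :
    nrm (EE M r (n + 1)) (fun p => Rf (n + 1) p.1 p.2) ≤
      Real.sqrt (nrm (EE M r n) (fun p => Rf n p.1 p.2) ^ 2 + 4 * ww M r) +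
      2 * qq M r * cc M r * (y1 M r T + 1) := by
  have hE := EE_isExp hM hr n
  have hc := cc_pos hM hr
  have hq := qq_pos hM hr
  have hq2 := qq_le_half hM hr
  have hw := ww_pos hM hr
  have hβ := beta_pow_le hM hr n
  apply (isChain_KK hM hr).nrm_next' n (fun p => Rf (n + 1) p.1 p.2) (fun p => Rf n p.1 p.2)
    (fun p => 2 * qq M r * cc M r * (|Yf p.1 p.2| + 1))
    (fun s' p => ((1 - cc M r) ^ n * (y0f p.1 p.2 - (1 - 2 * qq M r) * yy p.1)) * dm s' p.1)
    (fun s' p => (-(2 * qq M r * cc M r * (1 - cc M r) ^ n * (Yf p.1 p.2 + yy p.1) * zz s')))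
    le_rfl
  · intro s' p; exact Rf_step n s' p.1 p.2
  · intro p
    rw [IsExp.mul', step_dm hM hr, mul_zero]
  · intro p
    have e1 : (fun s' => (((1 - cc M r) ^ n * (y0f p.1 p.2 - (1 - 2 * qq M r) * yy p.1)) *
        dm s' p.1) ^ 2) = fun s' => ((1 - cc M r) ^ n * (y0f p.1 p.2 -
        (1 - 2 * qq M r) * yy p.1)) ^ 2 * dm s' p.1 ^ 2 := by
      ext s'; ring
    rw [e1, IsExp.mul', step_dm_sq hM hr]
    apply mul_le_mul_of_nonneg_right _ hw.le
    have h1 : |(1 - cc M r) ^ n * (y0f p.1 p.2 - (1 - 2 * qq M r) * yy p.1)| ≤ 2 := by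
      rw [abs_mul, abs_of_nonneg hβ.1]
      have h2 := abs_le.1 (abs_y0f p.1 p.2)
      have h3 := abs_le.1 (abs_yy p.1)
      have h4 : |y0f p.1 p.2 - (1 - 2 * qq M r) * yy p.1| ≤ 2 := by
        rw [abs_le]; constructor <;> nlinarith
      nlinarith [abs_nonneg (y0f p.1 p.2 - (1 - 2 * qq M r) * yy p.1)]
    rw [← sq_abs]
    nlinarith [abs_nonneg ((1 - cc M r) ^ n * (y0f p.1 p.2 - (1 - 2 * qq M r) * yy p.1))]
  · intro s' p
    rw [abs_neg, abs_mul, abs_mul, abs_mul, abs_of_pos (show 0 < 2 * qq M r * cc M r by positivity),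
      abs_of_nonneg hβ.1, abs_of_nonneg (show 0 ≤ 2 * qq M r * cc M r * (|Yf p.1 p.2| + 1) by
        positivity)]
    have h1 : |Yf p.1 p.2 + yy p.1| ≤ |Yf p.1 p.2| + 1 :=
      (abs_add_le _ _).trans (by linarith [abs_yy p.1])
    have h2 := abs_zz s'
    calc 2 * qq M r * cc M r * (1 - cc M r) ^ n * |Yf p.1 p.2 + yy p.1| * |zz s'| ≤
        2 * qq M r * cc M r * 1 * (|Yf p.1 p.2| + 1) * 1 := by
          apply mul_le_mul _ h2 (abs_nonneg _) (by positivity)
          apply mul_le_mul _ h1 (abs_nonneg _) (by positivity)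
          exact mul_le_mul_of_nonneg_left hβ.2 (by positivity)
      _ = _ := by ring
  · rw [nrm_const_mul, abs_of_pos (show 0 < 2 * qq M r * cc M r by positivity)]
    apply mul_le_mul_of_nonneg_left _ (by positivity)
    refine (hE.nrm_add _ _).trans ?_
    rw [hE.nrm_const]
    have := nrm_Y_le hM hr h
    norm_num
    exact this

lemma R_le (T : ℕ) :
    nrm (EE M r T) (fun p => Rf T p.1 p.2) ≤
      2 * qq M r * cc M r * (y1 M r T + 1) * T + Real.sqrt (4 * ww M r * T) + 2 * qq M r * 0 := by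
  have hy := y1_nonneg hM hr T
  have hc := cc_pos hM hr
  have hq := qq_pos hM hr
  have hw := ww_pos hM hr
  have h0 : nrm (EE M r 0) (fun p => Rf 0 p.1 p.2) ≤ 0 := by
    have : nrm (EE M r 0) (fun p => Rf 0 p.1 p.2) = 0 := by
      unfold nrm
      rw [Ex_zero]
      simp [Rf, Sf, Yf, Nf]
    rw [this]
  have h1 := sqrt_rec' (b := fun t => nrm (EE M r t) (fun p => Rf t p.1 p.2))
    (b0 := 0) (κ := 2 * qq M r * cc M r * (y1 M r T + 1)) (g := 4 * ww M r) (T := T)
    le_rfl (by positivity) (by positivity) h0 (fun t => nrm_nonneg _)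
    (fun t ht => R_rec hM hr ht.le) T le_rfl
  simp only [zero_add] at h1
  linarith

/-- The scale factor of the main term. -/
noncomputable def kk (M r : ℕ) : ℝ := -(2 * (M * r) * cc M r * cp M r / (2 * qq M r) ^ 2)

/-- The total `L²` error. -/
noncomputable def totB (M r T : ℕ) : ℝ :=
  (1 + qq M r * T + Real.sqrt T) + T * bB M r T +
    |kk M r| * (2 * qq M r * cc M r * (y1 M r T + 1) * T + Real.sqrt (4 * ww M r * T) +
      2 * qq M r * y1 M r T)

theorem main_L2 (T : ℕ) :
    nrm (EE M r T) (fun p => Df p.1 p.2 - kk M r * Nf T p.1 p.2) ≤ totB M r T := by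
  have hE := EE_isExp hM hr T
  have hq := qq_pos hM hr
  have e1 : (fun p : SS M r × List (SS M r) => Df p.1 p.2 - kk M r * Nf T p.1 p.2) =
      fun p => ((Df p.1 p.2 - Bf p.1 p.2) +
        (Bf p.1 p.2 + 2 * (M * r) * cc M r * cp M r * Sf T p.1 p.2)) +
        kk M r * (Rf T p.1 p.2 - (2 * qq M r) * ((1 - cc M r) ^ T * Yf p.1 p.2 * zz p.1)) := by
    ext p
    unfold kk Rf
    field_simp
    ring
  rw [e1]
  refine (hE.nrm_add _ _).trans ?_
  unfold totB
  apply add_le_add
  · refine (hE.nrm_add _ _).trans ?_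
    exact add_le_add (G_le hM hr T) (B_le hM hr le_rfl)
  · rw [nrm_const_mul]
    apply mul_le_mul_of_nonneg_left _ (abs_nonneg _)
    refine (hE.nrm_sub _ _).trans ?_
    have h1 := R_le hM hr T
    simp only [mul_zero, add_zero] at h1
    apply add_le_add h1
    rw [nrm_const_mul, abs_of_pos (by positivity)]
    apply mul_le_mul_of_nonneg_left _ (by positivity)
    refine (hE.nrm_mono ?_).trans (nrm_Y_le hM hr le_rfl)
    intro p
    have hβ := beta_pow_le hM hr T
    have hz := abs_zz p.1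
    rw [abs_mul, abs_mul, abs_of_nonneg hβ.1, abs_abs]
    calc (1 - cc M r) ^ T * |Yf p.1 p.2| * |zz p.1| ≤ 1 * |Yf p.1 p.2| * 1 := by
          apply mul_le_mul _ hz (abs_nonneg _) (by positivity)
          exact mul_le_mul_of_nonneg_right hβ.2 (abs_nonneg _)
      _ = _ := by ring

end

end TwoWalks
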