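import Mathlib

/-! Normalised positive linear functionals and expectations over finite histories. -/

namespace TwoWalks

/-- A normalised positive linear functional. -/
structure IsExp {X : Type*} (E : (X → ℝ) →ₗ[ℝ] ℝ) : Prop where
  nonneg : ∀ f : X → ℝ, (∀ x, 0 ≤ f x) → 0 ≤ E f
  one : E (fun _ => 1) = 1

section IsExp

variable {X : Type*} {E : (X → ℝ) →ₗ[ℝ] ℝ}

lemma IsExp.mono (hE : IsExp E) {f g : X → ℝ} (h : ∀ x, f x ≤ g x) : E f ≤ E g := by
  have h1 := hE.nonneg (g - f) (fun x => by simp [h x])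
  rw [map_sub] at h1
  linarith

lemma IsExp.const (hE : IsExp E) (a : ℝ) : E (fun _ => a) = a := by
  have h1 : (fun _ : X => a) = a • (fun _ : X => (1 : ℝ)) := by ext x; simp
  rw [h1, map_smul, hE.one]; simp

lemma IsExp.add' (f g : X → ℝ) : E (fun x => f x + g x) = E f + E g := map_add E f g

lemma IsExp.sub' (f g : X → ℝ) : E (fun x => f x - g x) = E f - E g := map_sub E f g

lemma IsExp.mul' (a : ℝ) (f : X → ℝ) : E (fun x => a * f x) = a * E f := map_smul E a f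

lemma IsExp.neg' (f : X → ℝ) : E (fun x => - f x) = - E f := map_neg E f

lemma IsExp.cs (hE : IsExp E) (f g : X → ℝ) :
    (E (fun x => f x * g x)) ^ 2 ≤ E (fun x => f x ^ 2) * E (fun x => g x ^ 2) := by
  have key : ∀ t : ℝ, 0 ≤ E (fun x => g x ^ 2) * (t * t) + (2 * E (fun x => f x * g x)) * t +
      E (fun x => f x ^ 2) := by
    intro t
    have h1 := hE.nonneg (fun x => (f x + t * g x) ^ 2) (fun x => sq_nonneg _)
    have h2 : (fun x => (f x + t * g x) ^ 2) =
        (fun x => f x ^ 2) + (2 * t) • (fun x => f x * g x) + (t * t) • (fun x => g x ^ 2) := by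
      ext x; simp; ring
    rw [h2, map_add, map_add, map_smul, map_smul, smul_eq_mul, smul_eq_mul] at h1
    linarith
  have h := discrim_le_zero key
  unfold discrim at h
  nlinarith

/-- The `L²` norm. -/
noncomputable def nrm (E : (X → ℝ) →ₗ[ℝ] ℝ) (f : X → ℝ) : ℝ := Real.sqrt (E (fun x => f x ^ 2))

lemma nrm_nonneg (f : X → ℝ) : 0 ≤ nrm E f := Real.sqrt_nonneg _

lemma IsExp.nrm_sq (hE : IsExp E) (f : X → ℝ) : nrm E f ^ 2 = E (fun x => f x ^ 2) :=
  Real.sq_sqrt (hE.nonneg _ fun _ => sq_nonneg _)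

lemma nrm_le_iff {f : X → ℝ} {b : ℝ} (hb : 0 ≤ b) : nrm E f ≤ b ↔ E (fun x => f x ^ 2) ≤ b ^ 2 :=
  Real.sqrt_le_left hb

lemma IsExp.mul_le (hE : IsExp E) (f g : X → ℝ) :
    E (fun x => f x * g x) ≤ nrm E f * nrm E g := by
  have h := hE.cs f g
  rw [← hE.nrm_sq, ← hE.nrm_sq, ← mul_pow] at h
  exact (abs_le_of_sq_le_sq' h (mul_nonneg (nrm_nonneg _) (nrm_nonneg _))).2

lemma IsExp.abs_le_nrm (hE : IsExp E) (f : X → ℝ) : |E f| ≤ nrm E f := by
  have h := hE.cs f (fun _ => 1)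
  simp only [mul_one, one_pow, hE.one] at h
  rw [← hE.nrm_sq] at h
  exact abs_le_of_sq_le_sq h (nrm_nonneg _)

lemma IsExp.nrm_add (hE : IsExp E) (f g : X → ℝ) :
    nrm E (fun x => f x + g x) ≤ nrm E f + nrm E g := by
  rw [nrm_le_iff (add_nonneg (nrm_nonneg _) (nrm_nonneg _))]
  have h2 : (fun x => (f x + g x) ^ 2) =
      (fun x => f x ^ 2) + (2 : ℝ) • (fun x => f x * g x) + (fun x => g x ^ 2) := by
    ext x; simp; ring
  rw [h2, map_add, map_add, map_smul, smul_eq_mul, ← hE.nrm_sq, ← hE.nrm_sq]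
  have := hE.mul_le f g
  nlinarith

lemma nrm_const_mul (a : ℝ) (f : X → ℝ) :
    nrm E (fun x => a * f x) = |a| * nrm E f := by
  unfold nrm
  have h : (fun x => (a * f x) ^ 2) = (a ^ 2) • (fun x => f x ^ 2) := by
    ext x; simp; ring
  rw [h, map_smul, smul_eq_mul, Real.sqrt_mul (sq_nonneg a), Real.sqrt_sq_eq_abs]

lemma nrm_neg (f : X → ℝ) : nrm E (fun x => - f x) = nrm E f := by
  unfold nrm; simp

lemma IsExp.nrm_sub (hE : IsExp E) (f g : X → ℝ) :
    nrm E (fun x => f x - g x) ≤ nrm E f + nrm E g := by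
  have := hE.nrm_add f (fun x => - g x)
  rw [nrm_neg] at this
  simpa [sub_eq_add_neg] using this

lemma IsExp.nrm_mono (hE : IsExp E) {f g : X → ℝ} (h : ∀ x, |f x| ≤ |g x|) :
    nrm E f ≤ nrm E g := by
  apply Real.sqrt_le_sqrt
  exact hE.mono fun x => sq_le_sq.2 (h x)

lemma IsExp.nrm_const (hE : IsExp E) (a : ℝ) : nrm E (fun _ => a) = |a| := by
  unfold nrm
  rw [hE.const, Real.sqrt_sq_eq_abs]

lemma IsExp.nrm_le_const (hE : IsExp E) {f : X → ℝ} {a : ℝ} (h : ∀ x, |f x| ≤ a) :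
    nrm E f ≤ a := by
  have h1 : nrm E f ≤ nrm E (fun _ => a) := hE.nrm_mono fun x => (h x).trans (le_abs_self a)
  rw [hE.nrm_const] at h1
  by_cases hX : Nonempty X
  · obtain ⟨x⟩ := hX
    have : 0 ≤ a := (abs_nonneg _).trans (h x)
    rwa [abs_of_nonneg this] at h1
  · exfalso
    have h0 : (fun _ : X => (1 : ℝ)) = 0 := by
      ext x; exact (hX ⟨x⟩).elim
    have := hE.one
    rw [h0, map_zero] at this
    norm_num at this

/-- The variance is at most the squared sup distance to any constant. -/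
lemma IsExp.var_le (hE : IsExp E) {f : X → ℝ} {a b : ℝ} (h : ∀ x, |f x - a| ≤ b) :
    E (fun x => (f x - E f) ^ 2) ≤ b ^ 2 := by
  have h1 : (fun x => (f x - E f) ^ 2) =
      (fun x => (f x - a) ^ 2) - (2 * (E f - a)) • (fun x => f x) +
        (fun _ => (E f) ^ 2 - a ^ 2) := by
    ext x; simp; ring
  rw [h1, map_add, map_sub, map_smul, hE.const, smul_eq_mul]
  have h2 : E (fun x => (f x - a) ^ 2) ≤ b ^ 2 := by
    have : E (fun x => (f x - a) ^ 2) ≤ E (fun _ => b ^ 2) := by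
      apply hE.mono
      intro x
      have := h x
      exact sq_le_sq' (by linarith [(abs_le.1 this).1]) (abs_le.1 this).2
    rwa [hE.const] at this
  have h3 : (fun x => f x) = f := rfl
  rw [h3]
  nlinarith [sq_nonneg (E f - a)]

end IsExp

section Paths

variable {S : Type*} [Fintype S]

/-- Expectation for one step. -/
def step (K : S → S → ℝ) (s : S) : (S → ℝ) →ₗ[ℝ] ℝ where
  toFun f := ∑ s', K s s' * f s'
  map_add' f g := by simp [mul_add, Finset.sum_add_distrib]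
  map_smul' a f := by simp [Finset.mul_sum, mul_left_comm]

lemma step_apply (K : S → S → ℝ) (s : S) (f : S → ℝ) : step K s f = ∑ s', K s s' * f s' := rfl

/-- Averaging one step of a functional of the history. -/
def lift (K : S → S → ℝ) : (S × List S → ℝ) →ₗ[ℝ] (S × List S → ℝ) where
  toFun Φ p := step K p.1 (fun s' => Φ (s', p.1 :: p.2))
  map_add' f g := by
    ext p
    exact map_add (step K p.1) _ _
  map_smul' a f := by
    ext p
    exact map_smul (step K p.1) a _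

/-- Expectation over histories of length `n+1`. -/
def Ex (μ : S → ℝ) (K : S → S → ℝ) : ℕ → ((S × List S → ℝ) →ₗ[ℝ] ℝ)
  | 0 =>
    { toFun := fun Φ => ∑ s, μ s * Φ (s, [])
      map_add' := fun f g => by simp [mul_add, Finset.sum_add_distrib]
      map_smul' := fun a f => by simp [Finset.mul_sum, mul_left_comm] }
  | n + 1 => (Ex μ K n).comp (lift K)

variable {μ : S → ℝ} {K : S → S → ℝ}

lemma Ex_zero (Φ : S × List S → ℝ) : Ex μ K 0 Φ = ∑ s, μ s * Φ (s, []) := rfl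

lemma Ex_succ (n : ℕ) (Φ : S × List S → ℝ) :
    Ex μ K (n + 1) Φ = Ex μ K n (fun p => step K p.1 (fun s' => Φ (s', p.1 :: p.2))) := rfl

/-- `μ` is a probability vector and `K` a stochastic matrix. -/
structure IsChain (μ : S → ℝ) (K : S → S → ℝ) : Prop where
  μ_nonneg : ∀ s, 0 ≤ μ s
  μ_sum : ∑ s, μ s = 1
  K_nonneg : ∀ s s', 0 ≤ K s s'
  K_sum : ∀ s, ∑ s', K s s' = 1

lemma IsChain.stepE (h : IsChain μ K) (s : S) : IsExp (step K s) where
  nonneg f hf := Finset.sum_nonneg fun s' _ => mul_nonneg (h.K_nonneg s s') (hf s')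
  one := by simp [step_apply, h.K_sum]

lemma IsChain.ex (h : IsChain μ K) (n : ℕ) : IsExp (Ex μ K n) := by
  induction n with
  | zero =>
    constructor
    · intro f hf
      exact Finset.sum_nonneg fun s _ => mul_nonneg (h.μ_nonneg s) (hf _)
    · simp [Ex_zero, h.μ_sum]
  | succ n ih =>
    constructor
    · intro f hf
      rw [Ex_succ]
      exact ih.nonneg _ fun p => (h.stepE p.1).nonneg _ fun s' => hf _
    · rw [Ex_succ]
      simp only [(h.stepE _).one]
      exact ih.one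

/-- A functional of the past has the same expectation. -/
lemma IsChain.ex_past (h : IsChain μ K) (n : ℕ) (F : S × List S → ℝ) (Φ : S × List S → ℝ)
    (hΦ : ∀ s' p, Φ (s', p.1 :: p.2) = F p) : Ex μ K (n + 1) Φ = Ex μ K n F := by
  rw [Ex_succ]
  congr 1
  ext p
  have : (fun s' => Φ (s', p.1 :: p.2)) = fun _ => F p := by ext s'; exact hΦ s' p
  rw [this, (h.stepE p.1).const]

/-- Splitting into predictable part and centred increment. -/
lemma IsChain.ex_orth (h : IsChain μ K) (n : ℕ) (Φ : S × List S → ℝ) (A g : S × List S → ℝ)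
    (ξ : S → S × List S → ℝ)
    (hΦ : ∀ s' p, Φ (s', p.1 :: p.2) = A p + ξ s' p)
    (h0 : ∀ p, TwoWalks.step K p.1 (fun s' => ξ s' p) = 0)
    (h2 : ∀ p, TwoWalks.step K p.1 (fun s' => ξ s' p ^ 2) ≤ g p) :
    Ex μ K (n + 1) (fun q => Φ q ^ 2) ≤ Ex μ K n (fun p => A p ^ 2) + Ex μ K n g := by
  rw [Ex_succ, ← map_add]
  apply (h.ex n).mono
  intro p
  have h1 : (fun s' => Φ (s', p.1 :: p.2) ^ 2) =
      (fun _ => A p ^ 2) + (2 * A p) • (fun s' => ξ s' p) + (fun s' => ξ s' p ^ 2) := by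
    ext s'; simp [hΦ]; ring
  rw [h1, map_add, map_add, map_smul, (h.stepE p.1).const, h0]
  simp only [smul_eq_mul, mul_zero, add_zero, Pi.add_apply]
  linarith [h2 p]

/-- Recursion for the `L²` norm. -/
lemma IsChain.nrm_orth (h : IsChain μ K) (n : ℕ) (Φ : S × List S → ℝ) (A : S × List S → ℝ)
    (ξ : S → S × List S → ℝ) {a g : ℝ} (ha : nrm (Ex μ K n) A ≤ a)
    (hΦ : ∀ s' p, Φ (s', p.1 :: p.2) = A p + ξ s' p)
    (h0 : ∀ p, TwoWalks.step K p.1 (fun s' => ξ s' p) = 0)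
    (h2 : ∀ p, TwoWalks.step K p.1 (fun s' => ξ s' p ^ 2) ≤ g) :
    nrm (Ex μ K (n + 1)) Φ ≤ Real.sqrt (a ^ 2 + g) := by
  apply Real.sqrt_le_sqrt
  have h3 := h.ex_orth n Φ A (fun _ => g) ξ hΦ h0 h2
  rw [(h.ex n).const] at h3
  have ha0 : 0 ≤ a := (nrm_nonneg _).trans ha
  have h4 := (nrm_le_iff ha0).1 ha
  linarith

end Paths

/-- Numerical recursion: `a_{t+1} ≤ √((a_t + κ)² + g)` gives `a_t ≤ a_0 + κ t + √(g t)`. -/
lemma sqrt_rec {b : ℕ → ℝ} {b0 κ g : ℝ} {T : ℕ} (hb0 : 0 ≤ b0) (hκ : 0 ≤ κ) (hg : 0 ≤ g)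
    (h0 : b 0 ≤ b0) (hpos : ∀ t, 0 ≤ b t)
    (hrec : ∀ t, t < T → b (t + 1) ≤ Real.sqrt ((b t + κ) ^ 2 + g)) :
    ∀ t, t ≤ T → b t ≤ b0 + κ * t + Real.sqrt (g * t) := by
  intro t
  induction t with
  | zero => intro _; simpa using h0
  | succ t ih =>
    intro ht
    have h1 := ih (by omega)
    refine (hrec t (by omega)).trans ?_
    have hs : 0 ≤ Real.sqrt (g * (t + 1 : ℕ)) := Real.sqrt_nonneg _
    rw [Real.sqrt_le_left (by positivity)]
    have hA : 0 ≤ b0 + κ * t + κ := by positivity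
    have h2 : b t + κ ≤ (b0 + κ * t + κ) + Real.sqrt (g * t) := by linarith
    have h3 : (b t + κ) ^ 2 ≤ ((b0 + κ * t + κ) + Real.sqrt (g * t)) ^ 2 :=
      pow_le_pow_left₀ (by linarith [hpos t]) h2 2
    have h4 : Real.sqrt (g * t) ^ 2 = g * t := Real.sq_sqrt (by positivity)
    have h5 : Real.sqrt (g * (t + 1 : ℕ)) ^ 2 = g * (t + 1 : ℕ) := Real.sq_sqrt (by positivity)
    have h6 : Real.sqrt (g * t) ≤ Real.sqrt (g * (t + 1 : ℕ)) := by
      apply Real.sqrt_le_sqrt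
      push_cast
      nlinarith
    have h7 : b0 + κ * ((t + 1 : ℕ) : ℝ) = b0 + κ * t + κ := by push_cast; ring
    rw [h7]
    push_cast at h5 h6 ⊢
    nlinarith [mul_le_mul_of_nonneg_left h6 hA]

end TwoWalks
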