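import Pool.Agent.TwoWalks.Marks

/-! The final argument. -/

open MeasureTheory ProbabilityTheory Filter Topology

namespace TwoWalks

lemma two_sq (a b : ℝ) : (a + b) ^ 2 ≤ 2 * a ^ 2 + 2 * b ^ 2 := by
  nlinarith [sq_nonneg (a - b)]

/-- Comparison of a normalised variable with a normalised main term. -/
lemma normalise {Ω : Type} [MeasurableSpace Ω] {P : Measure Ω} [IsProbabilityMeasure P]
    {Z G : Ω → ℝ} (hZ : Measurable Z) (hG : Measurable G) {B B' : ℝ} (hB : ∀ ω, |Z ω| ≤ B)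
    (hB' : ∀ ω, |G ω| ≤ B') {a L θ : ℝ} (hL : 0 < L) (hθ : 0 < θ) (hθ4 : θ ≤ 1 / 4)
    (h1 : ∫ ω, G ω ∂P = 0) (h2 : ∫ ω, G ω ^ 2 ∂P = L ^ 2)
    (h3 : ∫ ω, (Z ω - a - G ω) ^ 2 ∂P ≤ θ ^ 2 * L ^ 2) :
    ∫ ω, ((Z ω - ∫ ω', Z ω' ∂P) / Real.sqrt (variance Z P) - G ω / L) ^ 2 ∂P ≤ 20 * θ ^ 2 := by
  have iZ : Integrable Z P := int_of_bdd hZ hB
  have iG : Integrable G P := int_of_bdd hG hB'
  set H : Ω → ℝ := fun ω => Z ω - a - G ω with hH
  have hHm : Measurable H := (hZ.sub_const a).sub hG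
  have hHb : ∀ ω, |H ω| ≤ B + |a| + B' := by
    intro ω
    have e : |H ω| ≤ |Z ω - a| + |G ω| := abs_sub _ _
    have e2 : |Z ω - a| ≤ |Z ω| + |a| := abs_sub _ _
    linarith [hB ω, hB' ω]
  have iH : Integrable H P := int_of_bdd hHm hHb
  set hb := ∫ ω, H ω ∂P with hhb
  have eZ : ∫ ω, Z ω ∂P = a + hb := by
    have e : ∀ ω, Z ω = a + G ω + H ω := by intro ω; simp only [hH]; ring
    have e' : ∫ ω, Z ω ∂P = ∫ ω, (a + G ω + H ω) ∂P := by
      congr 1; ext ω; exact e ω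
    have i0 : Integrable (fun ω => a + G ω) P := (integrable_const a).add iG
    rw [e', integral_add i0 iH, integral_add (integrable_const a) iG, h1]
    simp [hhb]
  set K : Ω → ℝ := fun ω => H ω - hb with hK
  have hKm : Measurable K := hHm.sub_const hb
  have hKb : ∀ ω, |K ω| ≤ B + |a| + B' + |hb| := by
    intro ω
    have e : |K ω| ≤ |H ω| + |hb| := abs_sub _ _
    linarith [hHb ω]
  have sq_int : ∀ {f : Ω → ℝ} (_ : Measurable f) {C : ℝ} (_ : ∀ ω, |f ω| ≤ C),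
      Integrable (fun ω => f ω ^ 2) P := by
    intro f hf C hC
    apply int_of_bdd (hf.pow_const 2) (B := C ^ 2)
    intro ω
    rw [abs_pow]
    exact pow_le_pow_left₀ (abs_nonneg _) (hC ω) 2
  have iH2 := sq_int hHm hHb
  have iK2 := sq_int hKm hKb
  have iG2 := sq_int hG hB'
  have iGK : Integrable (fun ω => G ω * K ω) P := by
    apply int_of_bdd (hG.mul hKm) (B := B' * (B + |a| + B' + |hb|))
    intro ω
    change |G ω * K ω| ≤ _
    rw [abs_mul]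
    exact mul_le_mul (hB' ω) (hKb ω) (abs_nonneg _) ((abs_nonneg _).trans (hB' ω))
  have K2 : ∫ ω, K ω ^ 2 ∂P ≤ θ ^ 2 * L ^ 2 := by
    have e : ∫ ω, K ω ^ 2 ∂P = ∫ ω, H ω ^ 2 ∂P - hb ^ 2 := by
      have e1 : ∀ ω, K ω ^ 2 = H ω ^ 2 - (2 * hb) * H ω + hb ^ 2 := by
        intro ω; simp only [hK]; ring
      have i1 : Integrable (fun ω => H ω ^ 2 - (2 * hb) * H ω) P := iH2.sub (iH.const_mul _)
      simp_rw [e1]
      rw [integral_add i1 (integrable_const _), integral_sub iH2 (iH.const_mul _),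
        integral_const_mul, ← hhb]
      simp
      ring
    rw [e]
    have : 0 ≤ hb ^ 2 := sq_nonneg _
    linarith
  have K20 : 0 ≤ ∫ ω, K ω ^ 2 ∂P := integral_nonneg fun ω => sq_nonneg _
  have Z0 : ∀ ω, Z ω - ∫ ω', Z ω' ∂P = G ω + K ω := by
    intro ω; rw [eZ]; simp only [hK, hH]; ring
  have hvar : variance Z P = L ^ 2 + 2 * ∫ ω, G ω * K ω ∂P + ∫ ω, K ω ^ 2 ∂P := by
    rw [variance_eq_integral hZ.aemeasurable]
    simp_rw [Z0]
    have e1 : ∀ ω, (G ω + K ω) ^ 2 = G ω ^ 2 + 2 * (G ω * K ω) + K ω ^ 2 := by intro ω; ring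
    have i1 : Integrable (fun ω => G ω ^ 2 + 2 * (G ω * K ω)) P := iG2.add (iGK.const_mul 2)
    simp_rw [e1]
    rw [integral_add i1 iK2, integral_add iG2 (iGK.const_mul 2), integral_const_mul, h2]
  have iθ : Integrable (fun ω => θ * G ω ^ 2 + (1 / θ) * K ω ^ 2) P :=
    (iG2.const_mul θ).add (iK2.const_mul (1 / θ))
  have iGK2' : Integrable (fun ω => 2 * (G ω * K ω)) P := iGK.const_mul 2
  have iGK2n : Integrable (fun ω => -(2 * (G ω * K ω))) P := iGK2'.neg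
  have hGK : |2 * ∫ ω, G ω * K ω ∂P| ≤ 2 * θ * L ^ 2 := by
    have up : 2 * ∫ ω, G ω * K ω ∂P ≤ 2 * θ * L ^ 2 := by
      have e1 : ∫ ω, 2 * (G ω * K ω) ∂P ≤ ∫ ω, (θ * G ω ^ 2 + (1 / θ) * K ω ^ 2) ∂P := by
        apply integral_mono iGK2' iθ
        intro ω
        simp only
        have : θ * G ω ^ 2 + (1 / θ) * K ω ^ 2 - 2 * (G ω * K ω) = (θ * G ω - K ω) ^ 2 / θ := by
          field_simp; ring
        have h0 : 0 ≤ (θ * G ω - K ω) ^ 2 / θ := by positivity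
        linarith
      rw [integral_const_mul, integral_add (iG2.const_mul θ) (iK2.const_mul (1 / θ)),
        integral_const_mul, integral_const_mul, h2] at e1
      have e2 : (1 / θ) * ∫ ω, K ω ^ 2 ∂P ≤ (1 / θ) * (θ ^ 2 * L ^ 2) :=
        mul_le_mul_of_nonneg_left K2 (by positivity)
      have e3 : (1 / θ) * (θ ^ 2 * L ^ 2) = θ * L ^ 2 := by field_simp
      linarith
    have lo : -(2 * θ * L ^ 2) ≤ 2 * ∫ ω, G ω * K ω ∂P := by
      have e1 : ∫ ω, -(2 * (G ω * K ω)) ∂P ≤ ∫ ω, (θ * G ω ^ 2 + (1 / θ) * K ω ^ 2) ∂P := by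
        apply integral_mono iGK2n iθ
        intro ω
        simp only
        have : θ * G ω ^ 2 + (1 / θ) * K ω ^ 2 + 2 * (G ω * K ω) = (θ * G ω + K ω) ^ 2 / θ := by
          field_simp; ring
        have h0 : 0 ≤ (θ * G ω + K ω) ^ 2 / θ := by positivity
        linarith
      rw [integral_neg, integral_const_mul, integral_add (iG2.const_mul θ)
        (iK2.const_mul (1 / θ)), integral_const_mul, integral_const_mul, h2] at e1
      have e2 : (1 / θ) * ∫ ω, K ω ^ 2 ∂P ≤ (1 / θ) * (θ ^ 2 * L ^ 2) :=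
        mul_le_mul_of_nonneg_left K2 (by positivity)
      have e3 : (1 / θ) * (θ ^ 2 * L ^ 2) = θ * L ^ 2 := by field_simp
      linarith
    exact abs_le.2 ⟨lo, up⟩
  have hL2 : 0 < L ^ 2 := by positivity
  have hvar1 : |variance Z P - L ^ 2| ≤ 3 * θ * L ^ 2 := by
    have a1 := abs_le.1 hGK
    have : θ ^ 2 * L ^ 2 ≤ θ * L ^ 2 := by
      apply mul_le_mul_of_nonneg_right _ hL2.le
      nlinarith
    rw [hvar, abs_le]
    constructor
    · linarith [a1.1]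
    · linarith [a1.2]
  have hvpos : 0 < variance Z P := by
    have := (abs_le.1 hvar1).1
    nlinarith
  set sd := Real.sqrt (variance Z P) with hsd
  have hsd0 : 0 < sd := Real.sqrt_pos.2 hvpos
  have hsd2 : sd ^ 2 = variance Z P := Real.sq_sqrt hvpos.le
  have hu : |1 - sd / L| ≤ 3 * θ := by
    have e1 : |sd - L| * (sd + L) ≤ 3 * θ * L ^ 2 := by
      rw [← abs_of_pos (show 0 < sd + L by linarith), ← abs_mul]
      have : (sd - L) * (sd + L) = variance Z P - L ^ 2 := by rw [← hsd2]; ring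
      rw [this]; exact hvar1
    have e2 : |sd - L| * L ≤ 3 * θ * L ^ 2 := by
      nlinarith [abs_nonneg (sd - L)]
    have e3 : |1 - sd / L| = |sd - L| / L := by
      have : 1 - sd / L = -((sd - L) / L) := by field_simp; ring
      rw [this, abs_neg, abs_div, abs_of_pos hL]
    rw [e3, div_le_iff₀ hL]
    have e4 : |sd - L| * L ≤ (3 * θ * L) * L := by nlinarith
    exact le_of_mul_le_mul_right e4 hL
  have hu2 : (1 - sd / L) ^ 2 ≤ 9 * θ ^ 2 := by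
    have := pow_le_pow_left₀ (abs_nonneg _) hu 2
    rw [sq_abs] at this
    nlinarith
  -- pointwise bound
  have iGK2 : Integrable (fun ω => (G ω + K ω) ^ 2) P := by
    apply sq_int (hG.add hKm) (C := B' + (B + |a| + B' + |hb|))
    intro ω
    exact (abs_add_le _ _).trans (add_le_add (hB' ω) (hKb ω))
  have hvar2 : ∫ ω, (G ω + K ω) ^ 2 ∂P = sd ^ 2 := by
    rw [hsd2, variance_eq_integral hZ.aemeasurable]
    simp_rw [Z0]
  have pt : ∀ ω, ((Z ω - ∫ ω', Z ω' ∂P) / sd - G ω / L) ^ 2 ≤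
      (2 / L ^ 2) * K ω ^ 2 + (2 * (1 / sd - 1 / L) ^ 2) * (G ω + K ω) ^ 2 := by
    intro ω
    rw [Z0]
    have e : (G ω + K ω) / sd - G ω / L = K ω / L + (G ω + K ω) * (1 / sd - 1 / L) := by
      field_simp; ring
    rw [e]
    refine (two_sq _ _).trans (le_of_eq ?_)
    rw [mul_pow, div_pow]
    ring
  have fin : ∫ ω, ((Z ω - ∫ ω', Z ω' ∂P) / sd - G ω / L) ^ 2 ∂P ≤
      ∫ ω, ((2 / L ^ 2) * K ω ^ 2 + (2 * (1 / sd - 1 / L) ^ 2) * (G ω + K ω) ^ 2) ∂P := by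
    apply integral_mono_of_nonneg
    · exact Eventually.of_forall fun ω => sq_nonneg _
    · exact (iK2.const_mul _).add (iGK2.const_mul _)
    · exact Eventually.of_forall pt
  rw [integral_add (iK2.const_mul _) (iGK2.const_mul _), integral_const_mul, integral_const_mul,
    hvar2] at fin
  refine fin.trans ?_
  have f1 : 2 / L ^ 2 * ∫ ω, K ω ^ 2 ∂P ≤ 2 / L ^ 2 * (θ ^ 2 * L ^ 2) :=
    mul_le_mul_of_nonneg_left K2 (by positivity)
  have f2 : 2 / L ^ 2 * (θ ^ 2 * L ^ 2) = 2 * θ ^ 2 := by field_simp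
  have f3 : 2 * (1 / sd - 1 / L) ^ 2 * sd ^ 2 = 2 * (1 - sd / L) ^ 2 := by field_simp
  rw [f3]
  linarith

/-- The constant in the tail bound. -/
noncomputable def C1 : ℝ := 2048 * (Nat.factorial 41 : ℝ)

lemma C1_pos : 0 < C1 := by unfold C1; positivity

section

variable {n : ℕ} (hn : 1 ≤ n)
include hn

lemma kk2eN_low : (n : ℝ) ^ 60 / 256 ≤
    kk (n ^ 30) (n ^ 20) ^ 2 * eN (n ^ 30) (n ^ 20) (TT n) := by
  have h3 : ((n : ℝ) ^ 10 / 2) ^ 2 ≤ kk (n ^ 30) (n ^ 20) ^ 2 := by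
    rw [← sq_abs (kk _ _)]
    exact pow_le_pow_left₀ (by positivity) (kk_low hn) 2
  have h4 := eN_low hn
  have h5 : ((n : ℝ) ^ 10 / 2) ^ 2 * ((n : ℝ) ^ 40 / 64) ≤
      kk (n ^ 30) (n ^ 20) ^ 2 * eN (n ^ 30) (n ^ 20) (TT n) :=
    mul_le_mul h3 h4 (by positivity) (by positivity)
  refine le_trans (le_of_eq ?_) h5
  ring

lemma unv_small : EE (n ^ 30) (n ^ 20) (TT n) (fun p => unv p.1 p.2 ^ 2) ≤
    C1 / n * (kk (n ^ 30) (n ^ 20) ^ 2 * eN (n ^ 30) (n ^ 20) (TT n)) := by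
  have hx := x_ge hn
  have hx0 : (0 : ℝ) < n := by linarith
  have h1 := E_unv_sq (M_pos' hn) (r_pos' hn) (TT n)
  have hc := cc_low hn
  have hc0 := cc_pos (M_pos' hn) (r_pos' hn)
  have hc1 := cc_le_one (M_pos' hn) (r_pos' hn)
  have h2 : (1 - cc (n ^ 30) (n ^ 20) / 4) ^ (TT n) ≤ Real.exp (-(n : ℝ)) := by
    have h3 : 1 - cc (n ^ 30) (n ^ 20) / 4 ≤ Real.exp (-(cc (n ^ 30) (n ^ 20) / 4)) := by
      have := Real.add_one_le_exp (-(cc (n ^ 30) (n ^ 20) / 4))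
      linarith
    have h4 : (1 - cc (n ^ 30) (n ^ 20) / 4) ^ (TT n) ≤
        Real.exp (-(cc (n ^ 30) (n ^ 20) / 4)) ^ (TT n) :=
      pow_le_pow_left₀ (by linarith) h3 _
    refine h4.trans ?_
    rw [← Real.exp_nat_mul]
    apply Real.exp_le_exp.2
    have h5 : (n : ℝ) ≤ TT n * (cc (n ^ 30) (n ^ 20) / 4) := by
      have h6 : (TT n : ℝ) * (1 / (4 * (n : ℝ) ^ 50) / 4) ≤ TT n * (cc (n ^ 30) (n ^ 20) / 4) := by
        apply mul_le_mul_of_nonneg_left _ (Nat.cast_nonneg _)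
        linarith
      refine le_trans (le_of_eq ?_) h6
      unfold TT; push_cast; field_simp; norm_num
    linarith
  have h7 : Real.exp (-(n : ℝ)) ≤ (Nat.factorial 41 : ℝ) / (n : ℝ) ^ 41 := by
    rw [Real.exp_neg, inv_eq_one_div, div_le_div_iff₀ (Real.exp_pos _) (by positivity)]
    have h8 := Real.pow_div_factorial_le_exp (n : ℝ) hx0.le 41
    rw [div_le_iff₀ (by positivity)] at h8
    linarith
  have h9 := kk2eN_low hn
  push_cast at h1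
  refine h1.trans ?_
  have h10 : 2 * ((n : ℝ) ^ 30 * (n : ℝ) ^ 20) * (2 * ((n : ℝ) ^ 30 * (n : ℝ) ^ 20) *
      (2 * (1 - cc (n ^ 30) (n ^ 20) / 4) ^ (TT n))) ≤
      2 * ((n : ℝ) ^ 30 * (n : ℝ) ^ 20) * (2 * ((n : ℝ) ^ 30 * (n : ℝ) ^ 20) *
      (2 * ((Nat.factorial 41 : ℝ) / (n : ℝ) ^ 41))) := by
    apply mul_le_mul_of_nonneg_left _ (by positivity)
    apply mul_le_mul_of_nonneg_left _ (by positivity)
    linarith
  refine h10.trans ?_
  have h11 : 2 * ((n : ℝ) ^ 30 * (n : ℝ) ^ 20) * (2 * ((n : ℝ) ^ 30 * (n : ℝ) ^ 20) *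
      (2 * ((Nat.factorial 41 : ℝ) / (n : ℝ) ^ 41))) = C1 / n * ((n : ℝ) ^ 60 / 256) := by
    unfold C1
    generalize (Nat.factorial 41 : ℝ) = f
    field_simp
    ring
  rw [h11]
  have := C1_pos
  exact mul_le_mul_of_nonneg_left h9 (by positivity)

lemma D_small : EE (n ^ 30) (n ^ 20) (TT n) (fun p => (Df p.1 p.2 - kk (n ^ 30) (n ^ 20) *
    Nf (TT n) p.1 p.2) ^ 2) ≤
    (10 : ℝ) ^ 22 / n * (kk (n ^ 30) (n ^ 20) ^ 2 * eN (n ^ 30) (n ^ 20) (TT n)) := by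
  refine le_trans ?_ (tot_rel hn)
  have h1 := main_L2 (M_pos' hn) (r_pos' hn) (TT n)
  have h0 : 0 ≤ totB (n ^ 30) (n ^ 20) (TT n) := (nrm_nonneg _).trans h1
  exact (nrm_le_iff h0).1 h1

end

/-- The normalised main term as a functional of the history. -/
noncomputable def FF (i : Bool) (n : ℕ) (p : SS (n ^ 30) (n ^ 20) × List (SS (n ^ 30) (n ^ 20))) :
    ℝ :=
  (sa i * kk (n ^ 30) (n ^ 20) / |kk (n ^ 30) (n ^ 20)|) *
    (Nf (TT n) p.1 p.2 / Real.sqrt (eN (n ^ 30) (n ^ 20) (TT n)))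

section

variable {n : ℕ} (hn : 1 ≤ n)
include hn

lemma kk_abs_pos : 0 < |kk (n ^ 30) (n ^ 20)| := by
  have h := kk_low hn
  have hx := x_ge hn
  have : 0 < (n : ℝ) ^ 10 / 2 := by positivity
  linarith

lemma eN_pos' : 0 < eN (n ^ 30) (n ^ 20) (TT n) := by
  have h := eN_low hn
  have hx := x_ge hn
  have : 0 < (n : ℝ) ^ 40 / 64 := by positivity
  linarith

lemma sgn_sq (i : Bool) : (sa i * kk (n ^ 30) (n ^ 20) / |kk (n ^ 30) (n ^ 20)|) ^ 2 = 1 := by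
  have h := kk_abs_pos hn
  rw [div_pow, mul_pow, sq_abs]
  have h1 : sa i ^ 2 = 1 := by rcases sa_cases i with h | h <;> rw [h] <;> norm_num
  rw [h1, one_mul]
  apply div_self
  have : kk (n ^ 30) (n ^ 20) ≠ 0 := abs_pos.1 h
  positivity

lemma FF_zero (i : Bool) : EE (n ^ 30) (n ^ 20) (TT n) (FF i n) = 0 := by
  have e : FF i n = fun p => ((sa i * kk (n ^ 30) (n ^ 20) / |kk (n ^ 30) (n ^ 20)|) /
      Real.sqrt (eN (n ^ 30) (n ^ 20) (TT n))) * Nf (TT n) p.1 p.2 := by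
    funext p; unfold FF; ring
  rw [e, IsExp.mul', E_N_zero (M_pos' hn) (r_pos' hn), mul_zero]

lemma FF_two (i : Bool) : EE (n ^ 30) (n ^ 20) (TT n) (fun p => FF i n p ^ 2) = 1 := by
  have hs := sgn_sq hn i
  have he := eN_pos' hn
  have hsq : Real.sqrt (eN (n ^ 30) (n ^ 20) (TT n)) ^ 2 = eN (n ^ 30) (n ^ 20) (TT n) :=
    Real.sq_sqrt he.le
  have e : (fun p => FF i n p ^ 2) = fun p => (1 / eN (n ^ 30) (n ^ 20) (TT n)) *
      Nf (TT n) p.1 p.2 ^ 2 := by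
    funext p; unfold FF
    rw [mul_pow, hs, div_pow, hsq]; ring
  rw [e, IsExp.mul', E_N_sq (M_pos' hn) (r_pos' hn)]
  field_simp

lemma FF_four (hn2 : 10000 ≤ n) (i : Bool) :
    3 + 1 / 32768 ≤ EE (n ^ 30) (n ^ 20) (TT n) (fun p => FF i n p ^ 4) := by
  have hs := sgn_sq hn i
  have he := eN_pos' hn
  have hsq : Real.sqrt (eN (n ^ 30) (n ^ 20) (TT n)) ^ 4 = eN (n ^ 30) (n ^ 20) (TT n) ^ 2 := by
    have : Real.sqrt (eN (n ^ 30) (n ^ 20) (TT n)) ^ 4 =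
      (Real.sqrt (eN (n ^ 30) (n ^ 20) (TT n)) ^ 2) ^ 2 := by ring
    rw [this, Real.sq_sqrt he.le]
  have e : (fun p => FF i n p ^ 4) = fun p => (1 / eN (n ^ 30) (n ^ 20) (TT n) ^ 2) *
      Nf (TT n) p.1 p.2 ^ 4 := by
    funext p; unfold FF
    have e4 : (sa i * kk (n ^ 30) (n ^ 20) / |kk (n ^ 30) (n ^ 20)|) ^ 4 = 1 := by
      have : (sa i * kk (n ^ 30) (n ^ 20) / |kk (n ^ 30) (n ^ 20)|) ^ 4 =
        ((sa i * kk (n ^ 30) (n ^ 20) / |kk (n ^ 30) (n ^ 20)|) ^ 2) ^ 2 := by ring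
      rw [this, hs, one_pow]
    rw [mul_pow, e4, div_pow, hsq]; ring
  rw [e, IsExp.mul']
  have hk := kurt hn hn2
  rw [one_div_mul_eq_div, le_div_iff₀ (by positivity)]
  exact hk

lemma FF_six (i : Bool) :
    EE (n ^ 30) (n ^ 20) (TT n) (fun p => FF i n p ^ 6) ≤ 3717184 ^ 3 := by
  have hs := sgn_sq hn i
  have he := eN_pos' hn
  have hsq : Real.sqrt (eN (n ^ 30) (n ^ 20) (TT n)) ^ 6 = eN (n ^ 30) (n ^ 20) (TT n) ^ 3 := by
    have : Real.sqrt (eN (n ^ 30) (n ^ 20) (TT n)) ^ 6 =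
      (Real.sqrt (eN (n ^ 30) (n ^ 20) (TT n)) ^ 2) ^ 3 := by ring
    rw [this, Real.sq_sqrt he.le]
  have e : (fun p => FF i n p ^ 6) = fun p => (1 / eN (n ^ 30) (n ^ 20) (TT n) ^ 3) *
      Nf (TT n) p.1 p.2 ^ 6 := by
    funext p; unfold FF
    have e4 : (sa i * kk (n ^ 30) (n ^ 20) / |kk (n ^ 30) (n ^ 20)|) ^ 6 = 1 := by
      have : (sa i * kk (n ^ 30) (n ^ 20) / |kk (n ^ 30) (n ^ 20)|) ^ 6 =
        ((sa i * kk (n ^ 30) (n ^ 20) / |kk (n ^ 30) (n ^ 20)|) ^ 2) ^ 3 := by ring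
      rw [this, hs, one_pow]
    rw [mul_pow, e4, div_pow, hsq]; ring
  rw [e, IsExp.mul', one_div, inv_mul_eq_div, div_le_iff₀ (by positivity)]
  have hk := E_N_six_le (M_pos' hn) (r_pos' hn) (LL_le_TT hn)
  refine hk.trans (le_of_eq ?_)
  ring

end

/-- For each `n`, the normalised count is close to the normalised main term. -/
lemma close_n {n : ℕ} (hn : 1 ≤ n) {Ω : Type} [MeasurableSpace Ω] {P : Measure Ω}
    [IsProbabilityMeasure P] {X : Bool → ℕ → Ω → VV (n ^ 30) (n ^ 20)} {ξ : ℕ → Ω → Bool}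
    (hW : IsTwoWalks (GG (n ^ 30) (n ^ 20)) P X ξ) (i : Bool)
    (hθ : 2 * ((10 : ℝ) ^ 22 + C1) / n ≤ (1 / 4) ^ 2) :
    ∫ ω, (normalisedCount P X ξ i ω - FF i n (HH (TT n) (PP X ξ (TT n) ω))) ^ 2 ∂P ≤
      20 * (2 * ((10 : ℝ) ^ 22 + C1) / n) := by
  have hx := x_ge hn
  have hx0 : (0 : ℝ) < n := by linarith
  have hC := C1_pos
  have hkk := kk_abs_pos hn
  have he := eN_pos' hn
  set T := TT n with hT
  set k := kk (n ^ 30) (n ^ 20) with hk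
  set e := eN (n ^ 30) (n ^ 20) T with heq
  set L := |k| * Real.sqrt e / 2 with hL
  have hse : 0 < Real.sqrt e := Real.sqrt_pos.2 he
  have hL0 : 0 < L := by positivity
  have hL2 : L ^ 2 = k ^ 2 * e / 4 := by
    rw [hL, div_pow, mul_pow, sq_abs, Real.sq_sqrt he.le]; norm_num
  set θ := Real.sqrt (2 * ((10 : ℝ) ^ 22 + C1) / n) with hθdef
  have hθ0 : 0 < θ := Real.sqrt_pos.2 (by positivity)
  have hθ2 : θ ^ 2 = 2 * ((10 : ℝ) ^ 22 + C1) / n := Real.sq_sqrt (by positivity)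
  have hθ4 : θ ≤ 1 / 4 := by
    rw [hθdef, Real.sqrt_le_left (by norm_num)]; exact hθ
  set G : Ω → ℝ := fun ω => (fun p : SS (n ^ 30) (n ^ 20) × List (SS (n ^ 30) (n ^ 20)) =>
    (sa i / 2 * k) * Nf T p.1 p.2) (HH T (PP X ξ T ω)) with hG
  have hGm : Measurable G := func_meas hW
    (fun p : SS (n ^ 30) (n ^ 20) × List (SS (n ^ 30) (n ^ 20)) =>
      (sa i / 2 * k) * Nf T p.1 p.2) T
  obtain ⟨B', hB'⟩ := func_bdd (X := X) (ξ := ξ)
    (fun p : SS (n ^ 30) (n ^ 20) × List (SS (n ^ 30) (n ^ 20)) =>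
      (sa i / 2 * k) * Nf T p.1 p.2) T
  have h1 : ∫ ω, G ω ∂P = 0 := by
    rw [hG, func_integral (M_pos' hn) (r_pos' hn) hW, IsExp.mul',
      E_N_zero (M_pos' hn) (r_pos' hn), mul_zero]
  have hsa : sa i ^ 2 = 1 := by rcases sa_cases i with h | h <;> rw [h] <;> norm_num
  have h2 : ∫ ω, G ω ^ 2 ∂P = L ^ 2 := by
    have e1 : ∀ ω, G ω ^ 2 = (fun p : SS (n ^ 30) (n ^ 20) × List (SS (n ^ 30) (n ^ 20)) =>
        (k ^ 2 / 4) * Nf T p.1 p.2 ^ 2) (HH T (PP X ξ T ω)) := by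
      intro ω
      simp only [hG]
      have : (sa i / 2 * k * Nf T (HH T (PP X ξ T ω)).1 (HH T (PP X ξ T ω)).2) ^ 2 =
        sa i ^ 2 * (k ^ 2 / 4 * Nf T (HH T (PP X ξ T ω)).1 (HH T (PP X ξ T ω)).2 ^ 2) := by ring
      rw [this, hsa, one_mul]
    have e2 := func_integral (M_pos' hn) (r_pos' hn) hW
      (fun p : SS (n ^ 30) (n ^ 20) × List (SS (n ^ 30) (n ^ 20)) =>
        (k ^ 2 / 4) * Nf T p.1 p.2 ^ 2) T
    have e3 : ∫ ω, G ω ^ 2 ∂P = ∫ ω, (fun p : SS (n ^ 30) (n ^ 20) ×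
        List (SS (n ^ 30) (n ^ 20)) => (k ^ 2 / 4) * Nf T p.1 p.2 ^ 2) (HH T (PP X ξ T ω)) ∂P := by
      congr 1; ext ω; exact e1 ω
    rw [e3, e2, IsExp.mul', E_N_sq (M_pos' hn) (r_pos' hn), hL2]
    ring
  set Φ2 : SS (n ^ 30) (n ^ 20) × List (SS (n ^ 30) (n ^ 20)) → ℝ := fun p =>
        (1 / 2) * unv p.1 p.2 ^ 2 + (1 / 2) * (Df p.1 p.2 - k * Nf T p.1 p.2) ^ 2 with hΦ2
  have h3 : ∫ ω, (markCount X ξ i ω - (((n ^ 30 : ℕ) : ℝ) * ((n ^ 20 : ℕ) : ℝ)) - G ω) ^ 2 ∂P ≤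
      θ ^ 2 * L ^ 2 := by
    have pt : ∀ ω, (markCount X ξ i ω - (((n ^ 30 : ℕ) : ℝ) * ((n ^ 20 : ℕ) : ℝ)) - G ω) ^ 2 ≤
        Φ2 (HH T (PP X ξ T ω)) := by
      intro ω
      have a := markCount_close (X := X) (ξ := ξ) i T ω
      simp only [hG, hΦ2]
      set u := unv (HH T (PP X ξ T ω)).1 (HH T (PP X ξ T ω)).2
      set D := Df (HH T (PP X ξ T ω)).1 (HH T (PP X ξ T ω)).2
      set N := Nf T (HH T (PP X ξ T ω)).1 (HH T (PP X ξ T ω)).2
      set A := markCount X ξ i ω - ((n ^ 30 : ℕ) : ℝ) * ((n ^ 20 : ℕ) : ℝ) - sa i / 2 * D with hA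
      have b : A ^ 2 ≤ (u / 2) ^ 2 := by
        rw [← sq_abs]; exact pow_le_pow_left₀ (abs_nonneg _) a 2
      have c : markCount X ξ i ω - ((n ^ 30 : ℕ) : ℝ) * ((n ^ 20 : ℕ) : ℝ) - sa i / 2 * k * N =
          A + sa i / 2 * (D - k * N) := by rw [hA]; ring
      rw [c]
      have d : (sa i / 2 * (D - k * N)) ^ 2 = (D - k * N) ^ 2 / 4 := by
        have : (sa i / 2 * (D - k * N)) ^ 2 = sa i ^ 2 * ((D - k * N) ^ 2 / 4) := by ring
        rw [this, hsa, one_mul]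
      nlinarith [sq_nonneg (A - sa i / 2 * (D - k * N))]
    have hmono : ∫ ω, (markCount X ξ i ω - (((n ^ 30 : ℕ) : ℝ) * ((n ^ 20 : ℕ) : ℝ)) -
        G ω) ^ 2 ∂P ≤ ∫ ω, Φ2 (HH T (PP X ξ T ω)) ∂P := by
      apply integral_mono_of_nonneg
      · exact Eventually.of_forall fun ω => sq_nonneg _
      · obtain ⟨B, hB⟩ := func_bdd (X := X) (ξ := ξ) Φ2 T
        exact int_of_bdd (func_meas hW Φ2 T) hB
      · exact Eventually.of_forall pt
    rw [func_integral (M_pos' hn) (r_pos' hn) hW Φ2 T, hΦ2, IsExp.add', IsExp.mul',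
      IsExp.mul'] at hmono
    have a1 := unv_small hn
    have a2 := D_small hn
    rw [hθ2, hL2]
    have e3 : 2 * ((10 : ℝ) ^ 22 + C1) / n * (k ^ 2 * e / 4) =
        (1 / 2) * (C1 / n * (k ^ 2 * e)) + (1 / 2) * ((10 : ℝ) ^ 22 / n * (k ^ 2 * e)) := by
      ring
    rw [e3]
    linarith
  have key := normalise (P := P) (Z := markCount X ξ i) (G := G)
    (a := ((n ^ 30 : ℕ) : ℝ) * ((n ^ 20 : ℕ) : ℝ)) (markCount_meas hW i) hGm
    (markCount_bdd X ξ i) hB' hL0 hθ0 hθ4 h1 h2 h3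
  rw [hθ2] at key
  refine le_trans (le_of_eq ?_) key
  congr 1
  ext ω
  have e5 : FF i n (HH T (PP X ξ T ω)) = G ω / L := by
    unfold FF
    simp only [hG]
    rw [hL, ← hT, ← hk, ← heq]
    have := hkk.ne'
    have := hse.ne'
    field_simp
  rw [e5]
  rfl

end TwoWalks
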