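import Mathlib

/-! Fourth moment of the standard normal law; truncated powers. -/

open MeasureTheory ProbabilityTheory Filter Topology

namespace TwoWalks

lemma gauss_int_pow (μ : ℝ) (v : NNReal) (k : ℕ) :
    Integrable (fun x : ℝ => x ^ k) (gaussianReal μ v) := by
  have h : (0 : ℝ) ∈ interior (integrableExpSet (fun x : ℝ => x) (gaussianReal μ v)) := by
    rw [integrableExpSet_fun_id_gaussianReal]; simp
  exact integrable_pow_of_mem_interior_integrableExpSet h k

lemma gauss_four : ∫ x, x ^ 4 ∂(gaussianReal 0 1) = 3 := by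
  have h : (0 : ℝ) ∈ interior (integrableExpSet (fun x : ℝ => x) (gaussianReal 0 1)) := by
    rw [integrableExpSet_fun_id_gaussianReal]; simp
  have h1 := iteratedDeriv_mgf_zero h 4
  have hm : mgf (fun x : ℝ => x) (gaussianReal 0 1) = fun t => Real.exp (t ^ 2 / 2) := by
    rw [mgf_fun_id_gaussianReal]
    ext t; simp
  rw [hm] at h1
  have d0 : ∀ t : ℝ, HasDerivAt (fun t : ℝ => Real.exp (t ^ 2 / 2)) (t * Real.exp (t ^ 2 / 2)) t := by
    intro t
    have := ((hasDerivAt_pow 2 t).div_const 2).exp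
    convert this using 1
    simp; ring
  have e1 : iteratedDeriv 1 (fun t : ℝ => Real.exp (t ^ 2 / 2)) =
      fun t => t * Real.exp (t ^ 2 / 2) := by
    rw [iteratedDeriv_one]
    ext t; exact (d0 t).deriv
  have e2 : iteratedDeriv 2 (fun t : ℝ => Real.exp (t ^ 2 / 2)) =
      fun t => (1 + t ^ 2) * Real.exp (t ^ 2 / 2) := by
    rw [iteratedDeriv_succ, e1]
    ext t
    have := ((hasDerivAt_id t).mul (d0 t)).deriv
    simp only [id] at this
    have e : (fun t : ℝ => t * Real.exp (t ^ 2 / 2)) = (id * fun t : ℝ => Real.exp (t ^ 2 / 2)) := rfl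
    rw [e, this]
    ring
  have e3 : iteratedDeriv 3 (fun t : ℝ => Real.exp (t ^ 2 / 2)) =
      fun t => (3 * t + t ^ 3) * Real.exp (t ^ 2 / 2) := by
    rw [iteratedDeriv_succ, e2]
    ext t
    have h2 : HasDerivAt (fun t : ℝ => 1 + t ^ 2) (2 * t) t := by
      have := (hasDerivAt_pow 2 t).const_add 1
      simpa using this
    have := (h2.mul (d0 t)).deriv
    have e : (fun t : ℝ => (1 + t ^ 2) * Real.exp (t ^ 2 / 2)) =
      ((fun t : ℝ => 1 + t ^ 2) * fun t : ℝ => Real.exp (t ^ 2 / 2)) := rfl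
    rw [e, this]
    ring
  have e4 : iteratedDeriv 4 (fun t : ℝ => Real.exp (t ^ 2 / 2)) 0 = 3 := by
    rw [iteratedDeriv_succ, e3]
    have h2 : HasDerivAt (fun t : ℝ => 3 * t + t ^ 3) 3 0 := by
      have h3 : HasDerivAt (fun t : ℝ => 3 * t) 3 0 := by
        simpa using (hasDerivAt_id (0 : ℝ)).const_mul 3
      have h4 : HasDerivAt (fun t : ℝ => t ^ 3) 0 0 := by
        simpa using hasDerivAt_pow 3 (0 : ℝ)
      have := h3.add h4
      rw [add_zero] at this
      exact this
    have := (h2.mul (d0 0)).deriv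
    have e : (fun t : ℝ => (3 * t + t ^ 3) * Real.exp (t ^ 2 / 2)) =
      ((fun t : ℝ => 3 * t + t ^ 3) * fun t : ℝ => Real.exp (t ^ 2 / 2)) := rfl
    rw [e, this]
    simp
  rw [e4] at h1
  rw [h1]
  simp

/-- Truncation at level `R`. -/
def clip (R x : ℝ) : ℝ := max (-R) (min x R)

lemma clip_cont (R : ℝ) : Continuous (clip R) := by
  unfold clip; fun_prop

lemma abs_clip {R : ℝ} (hR : 0 ≤ R) (x : ℝ) : |clip R x| ≤ R := by
  unfold clip
  rw [abs_le]
  exact ⟨le_max_left _ _, max_le (by linarith) (min_le_right _ _)⟩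

lemma clip_eq {R x : ℝ} (h : |x| ≤ R) : clip R x = x := by
  unfold clip
  have := abs_le.1 h
  rw [min_eq_left this.2, max_eq_right this.1]

lemma clip_lip (R x y : ℝ) : |clip R x - clip R y| ≤ |x - y| := by
  unfold clip
  have h1 : |max (-R) (min x R) - max (-R) (min y R)| ≤ |min x R - min y R| := by
    have := abs_max_sub_max_le_max (-R) (min x R) (-R) (min y R)
    simpa using this
  have h2 : |min x R - min y R| ≤ |x - y| := by
    have := abs_min_sub_min_le_max x R y R
    simpa using this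
  exact h1.trans h2

lemma clip_abs_le {R : ℝ} (hR : 0 ≤ R) (x : ℝ) : |clip R x| ≤ |x| := by
  have := clip_lip R x 0
  have h0 : clip R 0 = 0 := clip_eq (by simpa using hR)
  rw [h0] at this
  simpa using this

end TwoWalks
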