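import Pool.Agent.TwoWalks.Signs

/-! Lower bound for the fourth moment of the main term. -/

namespace TwoWalks

variable {M r : ℕ}

section

variable (hM : 0 < M) (hr : 0 < r)
include hM hr

omit hM hr in
lemma eN_nonneg (n : ℕ) : 0 ≤ eN M r n := by
  unfold eN
  apply Finset.sum_nonneg
  intro t _
  positivity

omit hM hr in
lemma eN_mono {n T : ℕ} (h : n ≤ T) : eN M r n ≤ eN M r T := by
  unfold eN
  apply Finset.sum_le_sum_of_subset_of_nonneg
  · exact Finset.range_subset_range.2 h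
  · intro t _ _; positivity

lemma beta_pow_le (n : ℕ) : 0 ≤ (1 - cc M r) ^ n ∧ (1 - cc M r) ^ n ≤ 1 := by
  have hc := cc_le_one hM hr
  have hc0 := cc_pos hM hr
  exact ⟨pow_nonneg (by linarith) n, pow_le_one₀ (by linarith) (by linarith)⟩

/-- The scale of `M` up to time `T`. -/
noncomputable def rho (M r T : ℕ) : ℝ := Real.sqrt (1 + 120 * ww M r * T)

lemma rho_sq (T : ℕ) : rho M r T ^ 2 = 1 + 120 * ww M r * T := by
  have := ww_pos hM hr
  exact Real.sq_sqrt (by positivity)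

lemma one_le_rho (T : ℕ) : 1 ≤ rho M r T := by
  have := ww_pos hM hr
  unfold rho
  rw [Real.one_le_sqrt]
  have : 0 ≤ 120 * ww M r * T := by positivity
  linarith

lemma nrm_M_le {n T : ℕ} (h : n ≤ T) :
    nrm (EE M r n) (fun p => |Mf p.1 p.2|) ≤ rho M r T := by
  have hw := ww_pos hM hr
  have hρ := one_le_rho hM hr T
  rw [nrm_le_iff (by linarith)]
  simp only [sq_abs]
  rw [E_M_sq hM hr, rho_sq hM hr]
  have : (n : ℝ) ≤ T := by exact_mod_cast h
  nlinarith [mul_nonneg hw.le (sub_nonneg.2 this), mul_nonneg hw.le (Nat.cast_nonneg (α := ℝ) T)]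

lemma nrm_M3_le {n T : ℕ} (h : n ≤ T) :
    nrm (EE M r n) (fun p => |Mf p.1 p.2| ^ 3) ≤ rho M r T ^ 3 := by
  have hw := ww_pos hM hr
  have hρ := one_le_rho hM hr T
  rw [nrm_le_iff (by positivity)]
  have e1 : (fun p : SS M r × List (SS M r) => (|Mf p.1 p.2| ^ 3) ^ 2) =
      fun p => Mf p.1 p.2 ^ 6 := by
    ext p
    rw [← abs_pow, sq_abs]; ring
  rw [e1]
  have e2 : (rho M r T ^ 3) ^ 2 = (rho M r T ^ 2) ^ 3 := by ring
  rw [e2, rho_sq hM hr]
  refine (E_M_six hM hr n).trans ?_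
  apply pow_le_pow_left₀ (by positivity)
  have : (n : ℝ) ≤ T := by exact_mod_cast h
  nlinarith [mul_nonneg hw.le (sub_nonneg.2 this)]

lemma nrm_N_le {n T : ℕ} (h : n ≤ T) :
    nrm (EE M r n) (fun p => |Nf n p.1 p.2|) ≤ Real.sqrt (eN M r T) := by
  rw [nrm_le_iff (Real.sqrt_nonneg _), Real.sq_sqrt (eN_nonneg T)]
  simp only [sq_abs]
  rw [E_N_sq hM hr]
  exact eN_mono h

lemma E_absM_le {n T : ℕ} (h : n ≤ T) : EE M r n (fun p => |Mf p.1 p.2|) ≤ rho M r T :=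
  (le_abs_self _).trans (((EE_isExp hM hr n).abs_le_nrm _).trans (nrm_M_le hM hr h))

lemma E_absM3_le {n T : ℕ} (h : n ≤ T) :
    EE M r n (fun p => |Mf p.1 p.2| ^ 3) ≤ rho M r T ^ 3 :=
  (le_abs_self _).trans (((EE_isExp hM hr n).abs_le_nrm _).trans (nrm_M3_le hM hr h))

lemma E_NM_le {n T : ℕ} (h : n ≤ T) :
    EE M r n (fun p => |Nf n p.1 p.2| * |Mf p.1 p.2|) ≤
      Real.sqrt (eN M r T) * rho M r T := by
  refine ((EE_isExp hM hr n).mul_le _ _).trans ?_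
  exact mul_le_mul (nrm_N_le hM hr h) (nrm_M_le hM hr h) (nrm_nonneg _) (Real.sqrt_nonneg _)

lemma E_NM3_le {n T : ℕ} (h : n ≤ T) :
    EE M r n (fun p => |Nf n p.1 p.2| * |Mf p.1 p.2| ^ 3) ≤
      Real.sqrt (eN M r T) * rho M r T ^ 3 := by
  refine ((EE_isExp hM hr n).mul_le _ _).trans ?_
  exact mul_le_mul (nrm_N_le hM hr h) (nrm_M3_le hM hr h) (nrm_nonneg _) (Real.sqrt_nonneg _)

lemma E_M4_ge {n T : ℕ} (h : n ≤ T) :
    3 * ww M r ^ 2 * (n * (n - 1)) - 8 * ww M r * rho M r T * n ≤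
      EE M r n (fun p => Mf p.1 p.2 ^ 4) := by
  have hw := ww_pos hM hr
  induction n with
  | zero => simp [Ex_zero, Mf]
  | succ n ih =>
    have ih' := ih (by omega)
    rw [Ex_succ]
    have h1 : ∀ p : SS M r × List (SS M r),
        Mf p.1 p.2 ^ 4 + (6 * ww M r) * Mf p.1 p.2 ^ 2 - (8 * ww M r) * |Mf p.1 p.2| ≤
        step KK p.1 (fun s' => Mf s' (p.1 :: p.2) ^ 4) := by
      intro p
      have h2 := ((isChain_KK hM hr).stepE p.1).mono
        (f := fun s' => Mf p.1 p.2 ^ 4 + (4 * Mf p.1 p.2 ^ 3) * dp s' p.1 +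
          (6 * Mf p.1 p.2 ^ 2 - 8 * |Mf p.1 p.2|) * dp s' p.1 ^ 2)
        (g := fun s' => Mf s' (p.1 :: p.2) ^ 4) (by
          intro s'
          have := four_pt (A := Mf p.1 p.2) (g := 1) (abs_dp hM hr s' p.1)
          simp only [mul_one, one_pow, abs_one, one_mul] at this
          simpa only [Mf] using this)
      rw [IsExp.add', IsExp.add', IsExp.mul', IsExp.mul', step_dp hM hr, step_dp_sq hM hr,
        ((isChain_KK hM hr).stepE p.1).const] at h2
      linarith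
    refine le_trans ?_ ((EE_isExp hM hr n).mono h1)
    rw [IsExp.sub', IsExp.add', IsExp.mul', IsExp.mul', E_M_sq hM hr]
    have h3 := E_absM_le hM hr (show n ≤ T by omega)
    push_cast
    nlinarith [mul_le_mul_of_nonneg_left h3 hw.le]

lemma step_poly (s : SS M r) (a0 a1 a2 a3 a4 a5 a6 : ℝ) :
    step KK s (fun s' => a0 + a1 * dp s' s + a2 * dp s' s ^ 2 + a3 * dm s' s +
      a4 * (dp s' s * dm s' s) - a5 * dp s' s ^ 2 + a6 * dm s' s ^ 2) =
      a0 + a2 * ww M r - a5 * ww M r + a6 * ww M r := by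
  rw [IsExp.add', IsExp.sub', IsExp.add', IsExp.add', IsExp.add', IsExp.add', IsExp.mul',
      IsExp.mul', IsExp.mul', IsExp.mul', IsExp.mul', IsExp.mul', step_dp hM hr, step_dp_sq hM hr,
      step_dm hM hr, step_dm_sq hM hr, step_dp_dm hM hr,
      ((isChain_KK hM hr).stepE s).const]
  ring

lemma E_H_rec {n T : ℕ} (h : n ≤ T) :
    EE M r n (fun p => Nf n p.1 p.2 ^ 2 * Mf p.1 p.2 ^ 2) + ww M r * eN M r n +
      ww M r * ((1 - cc M r) ^ n) ^ 2 * EE M r n (fun p => Mf p.1 p.2 ^ 4) -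
      4 * ww M r * (Real.sqrt (eN M r T) * rho M r T) - 4 * ww M r * rho M r T ^ 3 ≤
    EE M r (n + 1) (fun p => Nf (n + 1) p.1 p.2 ^ 2 * Mf p.1 p.2 ^ 2) := by
  have hw := ww_pos hM hr
  have hβ := beta_pow_le hM hr n
  rw [Ex_succ]
  have h1 : ∀ p : SS M r × List (SS M r),
      Nf n p.1 p.2 ^ 2 * Mf p.1 p.2 ^ 2 + ww M r * Nf n p.1 p.2 ^ 2 +
      (ww M r * ((1 - cc M r) ^ n) ^ 2) * Mf p.1 p.2 ^ 4 -
      (4 * ww M r) * (|Nf n p.1 p.2| * |Mf p.1 p.2|) - (4 * ww M r) * |Mf p.1 p.2| ^ 3 ≤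
      step KK p.1 (fun s' => Nf (n + 1) s' (p.1 :: p.2) ^ 2 * Mf s' (p.1 :: p.2) ^ 2) := by
    intro p
    set N := Nf n p.1 p.2 with hN
    set m := Mf p.1 p.2 with hm
    set b := (1 - cc M r) ^ n with hb
    have h2 := ((isChain_KK hM hr).stepE p.1).mono
      (f := fun s' => N ^ 2 * m ^ 2 + (2 * N ^ 2 * m) * dp s' p.1 + N ^ 2 * dp s' p.1 ^ 2 +
        (2 * N * (b * m) * m ^ 2) * dm s' p.1 + (4 * N * (b * m) * m) * (dp s' p.1 * dm s' p.1) -
        (4 * |N| * |b * m|) * dp s' p.1 ^ 2 +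
        ((b * m) ^ 2 * m ^ 2 - 4 * (b * m) ^ 2 * |m|) * dm s' p.1 ^ 2)
      (g := fun s' => Nf (n + 1) s' (p.1 :: p.2) ^ 2 * Mf s' (p.1 :: p.2) ^ 2) (by
        intro s'
        have := mixed_pt (N := N) (g := b * m) (m := m) (abs_dm hM hr s' p.1)
          (abs_dp hM hr s' p.1)
        simpa only [Mf, Nf, ← hN, ← hm, ← hb] using this)
    rw [step_poly hM hr] at h2
    refine le_trans ?_ h2
    have h3 : |b * m| ≤ |m| := by
      rw [abs_mul, abs_of_nonneg hβ.1]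
      nlinarith [abs_nonneg m, hβ.2]
    have h4 : |N| * |b * m| ≤ |N| * |m| := mul_le_mul_of_nonneg_left h3 (abs_nonneg _)
    have h5 : (b * m) ^ 2 * |m| ≤ |m| ^ 3 := by
      have : (b * m) ^ 2 ≤ |m| ^ 2 := by
        rw [← sq_abs (b * m)]
        exact pow_le_pow_left₀ (abs_nonneg _) h3 2
      calc (b * m) ^ 2 * |m| ≤ |m| ^ 2 * |m| := mul_le_mul_of_nonneg_right this (abs_nonneg _)
        _ = |m| ^ 3 := by ring
    have h6 : (b * m) ^ 2 * m ^ 2 = b ^ 2 * m ^ 4 := by ring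
    rw [h6]
    nlinarith [mul_le_mul_of_nonneg_left h4 hw.le, mul_le_mul_of_nonneg_left h5 hw.le]
  refine le_trans ?_ ((EE_isExp hM hr n).mono h1)
  rw [IsExp.sub', IsExp.sub', IsExp.add', IsExp.add', IsExp.mul', IsExp.mul', IsExp.mul',
    IsExp.mul', E_N_sq hM hr]
  have h7 := E_NM_le hM hr h
  have h8 := E_absM3_le hM hr h
  nlinarith [mul_le_mul_of_nonneg_left h7 hw.le, mul_le_mul_of_nonneg_left h8 hw.le]

lemma E_N4_rec {n T : ℕ} (h : n ≤ T) :
    EE M r n (fun p => Nf n p.1 p.2 ^ 4) +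
      6 * ww M r * ((1 - cc M r) ^ n) ^ 2 *
        EE M r n (fun p => Nf n p.1 p.2 ^ 2 * Mf p.1 p.2 ^ 2) -
      8 * ww M r * (Real.sqrt (eN M r T) * rho M r T ^ 3) ≤
    EE M r (n + 1) (fun p => Nf (n + 1) p.1 p.2 ^ 4) := by
  have hw := ww_pos hM hr
  have hβ := beta_pow_le hM hr n
  rw [Ex_succ]
  have h1 : ∀ p : SS M r × List (SS M r),
      Nf n p.1 p.2 ^ 4 + (6 * ww M r * ((1 - cc M r) ^ n) ^ 2) *
        (Nf n p.1 p.2 ^ 2 * Mf p.1 p.2 ^ 2) -
      (8 * ww M r) * (|Nf n p.1 p.2| * |Mf p.1 p.2| ^ 3) ≤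
      step KK p.1 (fun s' => Nf (n + 1) s' (p.1 :: p.2) ^ 4) := by
    intro p
    set N := Nf n p.1 p.2 with hN
    set m := Mf p.1 p.2 with hm
    set b := (1 - cc M r) ^ n with hb
    have h2 := ((isChain_KK hM hr).stepE p.1).mono
      (f := fun s' => N ^ 4 + (4 * N ^ 3 * (b * m)) * dm s' p.1 +
        (6 * N ^ 2 * (b * m) ^ 2 - 8 * |N| * |b * m| ^ 3) * dm s' p.1 ^ 2)
      (g := fun s' => Nf (n + 1) s' (p.1 :: p.2) ^ 4) (by
        intro s'
        have := four_pt (A := N) (g := b * m) (abs_dm hM hr s' p.1)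
        simpa only [Mf, Nf, ← hN, ← hm, ← hb] using this)
    rw [IsExp.add', IsExp.add', IsExp.mul', IsExp.mul', step_dm hM hr, step_dm_sq hM hr,
      ((isChain_KK hM hr).stepE p.1).const] at h2
    refine le_trans ?_ h2
    have h3 : |b * m| ≤ |m| := by
      rw [abs_mul, abs_of_nonneg hβ.1]
      nlinarith [abs_nonneg m, hβ.2]
    have h5 : |N| * |b * m| ^ 3 ≤ |N| * |m| ^ 3 := by
      apply mul_le_mul_of_nonneg_left _ (abs_nonneg _)
      exact pow_le_pow_left₀ (abs_nonneg _) h3 3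
    nlinarith [mul_le_mul_of_nonneg_left h5 hw.le]
  refine le_trans ?_ ((EE_isExp hM hr n).mono h1)
  rw [IsExp.sub', IsExp.add', IsExp.mul', IsExp.mul']
  have h7 := E_NM3_le hM hr h
  nlinarith [mul_le_mul_of_nonneg_left h7 hw.le]

/-- The error constant for `E N² M²`. -/
noncomputable def errH (M r T : ℕ) : ℝ :=
  4 * ww M r ^ 3 * T + 8 * ww M r ^ 2 * rho M r T * T +
    4 * ww M r * (Real.sqrt (eN M r T) * rho M r T) + 4 * ww M r * rho M r T ^ 3

lemma errH_nonneg (T : ℕ) : 0 ≤ errH M r T := by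
  have hw := ww_pos hM hr
  have hρ := one_le_rho hM hr T
  unfold errH
  have : 0 ≤ Real.sqrt (eN M r T) := Real.sqrt_nonneg _
  positivity

lemma E_H_ge {n T : ℕ} (h : n ≤ T) :
    ww M r * n * eN M r n + 2 * ww M r ^ 3 *
      (∑ s ∈ Finset.range n, ((1 - cc M r) ^ s) ^ 2 * (s : ℝ) ^ 2) - n * errH M r T ≤
    EE M r n (fun p => Nf n p.1 p.2 ^ 2 * Mf p.1 p.2 ^ 2) := by
  have hw := ww_pos hM hr
  induction n with
  | zero => simp [Ex_zero, Nf]
  | succ n ih =>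
    have ih' := ih (by omega)
    refine le_trans ?_ (E_H_rec hM hr (show n ≤ T by omega))
    have h4 := E_M4_ge hM hr (show n ≤ T by omega)
    have hβ := beta_pow_le hM hr n
    rw [Finset.sum_range_succ]
    have he : eN M r (n + 1) = eN M r n + ww M r ^ 2 * (((1 - cc M r) ^ n) ^ 2 * n) := by
      unfold eN; rw [Finset.sum_range_succ]
    rw [he]
    set b := ((1 - cc M r) ^ n) ^ 2 with hb
    have hb0 : 0 ≤ b := sq_nonneg _
    have hb1 : b ≤ 1 := pow_le_one₀ hβ.1 hβ.2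
    set Sg := ∑ s ∈ Finset.range n, ((1 - cc M r) ^ s) ^ 2 * (s : ℝ) ^ 2
    have h5 := mul_le_mul_of_nonneg_left h4 (mul_nonneg hw.le hb0)
    have hn : (n : ℝ) ≤ T := by exact_mod_cast (show n ≤ T by omega)
    have hn0 : (0 : ℝ) ≤ n := Nat.cast_nonneg n
    have hρ := one_le_rho hM hr T
    have h6 : 0 ≤ ww M r ^ 3 := by positivity
    have h7 : ww M r ^ 3 * (b * n) ≤ ww M r ^ 3 * T := by
      apply mul_le_mul_of_nonneg_left _ h6
      nlinarith
    have h8 : ww M r ^ 2 * rho M r T * (b * n) ≤ ww M r ^ 2 * rho M r T * T := by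
      apply mul_le_mul_of_nonneg_left _ (by positivity)
      nlinarith
    unfold errH at ih' ⊢
    push_cast
    nlinarith

/-- The main lower bound. -/
noncomputable def gain (M r T : ℕ) : ℝ :=
  ∑ t ∈ Finset.range T, ((1 - cc M r) ^ t) ^ 2 *
    ∑ s ∈ Finset.range t, ((1 - cc M r) ^ s) ^ 2 * (s : ℝ) ^ 2

/-- The total error per step. -/
noncomputable def err4 (M r T : ℕ) : ℝ :=
  6 * ww M r * (T * errH M r T) + 3 * ww M r ^ 4 * T ^ 2 +
    8 * ww M r * (Real.sqrt (eN M r T) * rho M r T ^ 3)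

lemma E_N4_ge {n T : ℕ} (h : n ≤ T) :
    3 * eN M r n ^ 2 + 12 * ww M r ^ 4 * gain M r n - n * err4 M r T ≤
      EE M r n (fun p => Nf n p.1 p.2 ^ 4) := by
  have hw := ww_pos hM hr
  induction n with
  | zero => simp [Ex_zero, Nf, gain, eN]
  | succ n ih =>
    have ih' := ih (by omega)
    refine le_trans ?_ (E_N4_rec hM hr (show n ≤ T by omega))
    have h4 := E_H_ge hM hr (show n ≤ T by omega)
    have hβ := beta_pow_le hM hr n
    have he : eN M r (n + 1) = eN M r n + ww M r ^ 2 * (((1 - cc M r) ^ n) ^ 2 * n) := by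
      unfold eN; rw [Finset.sum_range_succ]
    have hg : gain M r (n + 1) = gain M r n + ((1 - cc M r) ^ n) ^ 2 *
        ∑ s ∈ Finset.range n, ((1 - cc M r) ^ s) ^ 2 * (s : ℝ) ^ 2 := by
      unfold gain; rw [Finset.sum_range_succ]
    rw [he, hg]
    set b := ((1 - cc M r) ^ n) ^ 2 with hb
    have hb0 : 0 ≤ b := sq_nonneg _
    have hb1 : b ≤ 1 := pow_le_one₀ hβ.1 hβ.2
    set Sg := ∑ s ∈ Finset.range n, ((1 - cc M r) ^ s) ^ 2 * (s : ℝ) ^ 2
    have h5 := mul_le_mul_of_nonneg_left h4 (show 0 ≤ 6 * ww M r * b by positivity)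
    have hn : (n : ℝ) ≤ T := by exact_mod_cast (show n ≤ T by omega)
    have hn0 : (0 : ℝ) ≤ n := Nat.cast_nonneg n
    have hE := errH_nonneg hM hr T
    have h6 : 6 * ww M r * (b * (n * errH M r T)) ≤ 6 * ww M r * (T * errH M r T) := by
      apply mul_le_mul_of_nonneg_left _ (by positivity)
      have : (n : ℝ) * errH M r T ≤ T * errH M r T := mul_le_mul_of_nonneg_right hn hE
      have h0 : 0 ≤ (n : ℝ) * errH M r T := by positivity
      nlinarith
    have h7 : 3 * ww M r ^ 4 * (b * n) ^ 2 ≤ 3 * ww M r ^ 4 * T ^ 2 := by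
      apply mul_le_mul_of_nonneg_left _ (by positivity)
      apply pow_le_pow_left₀ (by positivity)
      nlinarith
    unfold err4 at ih' ⊢
    push_cast
    nlinarith

end

end TwoWalks
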