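import Pool.Agent.TwoWalks.Gauss

/-! A sequence with kurtosis bounded away from three and bounded sixth moments has no normal
limit. -/

open MeasureTheory ProbabilityTheory Filter Topology

namespace TwoWalks

lemma clip_pow_diff {R x : ℝ} (hR : 1 ≤ R) {p : ℕ} (hp : p = 1 ∨ p = 2 ∨ p = 4) :
    |x ^ p - clip R x ^ p| ≤ x ^ 6 / R := by
  have hR0 : 0 < R := by linarith
  by_cases h : |x| ≤ R
  · rw [clip_eq h, sub_self, abs_zero]; positivity
  · push Not at h
    have hx1 : 1 ≤ |x| := by linarith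
    have hx0 : 0 < |x| := by linarith
    have hc := clip_abs_le hR0.le x
    have key : |x ^ p - clip R x ^ p| ≤ |x| ^ p := by
      rcases hp with rfl | rfl | rfl
      · rw [pow_one, pow_one, pow_one]
        -- clip has the same sign as x
        unfold clip
        rcases le_total 0 x with hx | hx
        · rw [abs_of_nonneg hx] at h ⊢
          rw [min_eq_right h.le, max_eq_right (by linarith), abs_le]
          constructor <;> linarith
        · rw [abs_of_nonpos hx] at h ⊢
          rw [min_eq_left (by linarith), max_eq_left (by linarith), abs_le]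
          constructor <;> linarith
      · rw [sq_abs, ← sq_abs (clip R x)]
        have h1 : |clip R x| ^ 2 ≤ |x| ^ 2 := pow_le_pow_left₀ (abs_nonneg _) hc 2
        rw [sq_abs x] at h1
        rw [abs_le]; constructor
        · nlinarith [sq_nonneg x]
        · nlinarith [sq_nonneg (|clip R x|)]
      · have e1 : |x| ^ 4 = x ^ 4 := by
          rw [← abs_pow]; exact abs_of_nonneg (by positivity)
        have e2 : |clip R x| ^ 4 = clip R x ^ 4 := by
          rw [← abs_pow]; exact abs_of_nonneg (by positivity)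
        have h1 : |clip R x| ^ 4 ≤ |x| ^ 4 := pow_le_pow_left₀ (abs_nonneg _) hc 4
        rw [e1, e2] at h1
        rw [e1]
        have h2 : 0 ≤ clip R x ^ 4 := by positivity
        rw [abs_le]; constructor <;> linarith
    refine key.trans ?_
    rw [le_div_iff₀ hR0]
    have e6 : x ^ 6 = |x| ^ 6 := by
      rw [← abs_pow]; exact (abs_of_nonneg (by positivity)).symm
    rw [e6]
    have h2 : |x| ^ p * R ≤ |x| ^ p * |x| := mul_le_mul_of_nonneg_left h.le (by positivity)
    refine h2.trans ?_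
    rw [← pow_succ]
    apply pow_le_pow_right₀ hx1
    omega

/-- The truncated power as a bounded continuous function. -/
noncomputable def tf (R : ℝ) (hR : 0 ≤ R) (p : ℕ) : BoundedContinuousFunction ℝ ℝ :=
  BoundedContinuousFunction.ofNormedAddCommGroup (fun x => clip R x ^ p)
    ((clip_cont R).pow p) (R ^ p) (by
      intro x
      rw [Real.norm_eq_abs, abs_pow]
      exact pow_le_pow_left₀ (abs_nonneg _) (abs_clip hR x) p)

lemma tf_apply (R : ℝ) (hR : 0 ≤ R) (p : ℕ) (x : ℝ) : tf R hR p x = clip R x ^ p := rfl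

lemma tf_lip {R : ℝ} (hR : 1 ≤ R) {p : ℕ} (hp : p = 1 ∨ p = 2 ∨ p = 4) (x y : ℝ) :
    |clip R x ^ p - clip R y ^ p| ≤ 4 * R ^ 3 * |x - y| := by
  have hR0 : 0 ≤ R := by linarith
  have h1 := clip_lip R x y
  have a := abs_clip hR0 x
  have b := abs_clip hR0 y
  set u := clip R x
  set w := clip R y
  have hR3 : R ≤ R ^ 3 := le_self_pow₀ hR (by norm_num)
  have hd := abs_nonneg (u - w)
  have hR13 : 1 ≤ R ^ 3 := one_le_pow₀ hR
  rcases hp with rfl | rfl | rfl
  · rw [pow_one, pow_one]
    nlinarith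
  · have e : u ^ 2 - w ^ 2 = (u - w) * (u + w) := by ring
    rw [e, abs_mul]
    have h2 : |u + w| ≤ 2 * R := (abs_add_le _ _).trans (by linarith)
    calc |u - w| * |u + w| ≤ |x - y| * (2 * R) :=
          mul_le_mul h1 h2 (abs_nonneg _) (abs_nonneg _)
      _ ≤ _ := by nlinarith [abs_nonneg (x - y)]
  · have e : u ^ 4 - w ^ 4 = (u - w) * ((u + w) * (u ^ 2 + w ^ 2)) := by ring
    rw [e, abs_mul, abs_mul]
    have h2 : |u + w| ≤ 2 * R := (abs_add_le _ _).trans (by linarith)
    have h3 : |u ^ 2 + w ^ 2| ≤ 2 * R ^ 2 := by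
      rw [abs_of_nonneg (by positivity), ← sq_abs u, ← sq_abs w]
      have := pow_le_pow_left₀ (abs_nonneg _) a 2
      have := pow_le_pow_left₀ (abs_nonneg _) b 2
      linarith
    have h4 : |u + w| * |u ^ 2 + w ^ 2| ≤ (2 * R) * (2 * R ^ 2) :=
      mul_le_mul h2 h3 (abs_nonneg _) (by linarith)
    calc |u - w| * (|u + w| * |u ^ 2 + w ^ 2|) ≤ |x - y| * ((2 * R) * (2 * R ^ 2)) :=
          mul_le_mul h1 h4 (by positivity) (abs_nonneg _)
      _ = _ := by ring

section

variable {Ω : Type} [MeasurableSpace Ω] {P : Measure Ω} [IsProbabilityMeasure P]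

lemma int_of_bdd {f : Ω → ℝ} (hf : Measurable f) {B : ℝ} (hB : ∀ ω, |f ω| ≤ B) :
    Integrable f P :=
  Integrable.of_bound hf.aestronglyMeasurable B (Eventually.of_forall fun ω => hB ω)

lemma int_abs_sq_le {Z : Ω → ℝ} (hZ : Measurable Z) {B : ℝ} (hB : ∀ ω, |Z ω| ≤ B) :
    (∫ ω, |Z ω| ∂P) ^ 2 ≤ ∫ ω, Z ω ^ 2 ∂P := by
  have hi : Integrable (fun ω => |Z ω|) P := int_of_bdd hZ.abs (by simpa using hB)
  have hi2 : Integrable (fun ω => Z ω ^ 2) P := by
    apply int_of_bdd (hZ.pow_const 2) (B := B ^ 2)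
    intro ω
    rw [abs_pow]
    exact pow_le_pow_left₀ (abs_nonneg _) (hB ω) 2
  set m := ∫ ω, |Z ω| ∂P with hm
  have h1 : 0 ≤ ∫ ω, (|Z ω| - m) ^ 2 ∂P := integral_nonneg fun ω => sq_nonneg _
  have h2 : ∫ ω, (|Z ω| - m) ^ 2 ∂P = ∫ ω, (Z ω ^ 2 - (2 * m) * |Z ω| + m ^ 2) ∂P := by
    congr 1; ext ω; rw [← sq_abs (Z ω)]; ring
  have hi3 : Integrable (fun ω => Z ω ^ 2 - (2 * m) * |Z ω|) P := hi2.sub (hi.const_mul _)
  rw [h2, integral_add hi3 (integrable_const _),
    integral_sub hi2 (hi.const_mul _), integral_const_mul, integral_const, ← hm] at h1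
  simp at h1
  nlinarith

end

/-- No normal limit. -/
theorem not_normal {Ω : ℕ → Type} [∀ n, MeasurableSpace (Ω n)] (P : ∀ n, Measure (Ω n))
    [∀ n, IsProbabilityMeasure (P n)] (X F : ∀ n, Ω n → ℝ)
    (hXm : ∀ n, Measurable (X n)) (hFm : ∀ n, Measurable (F n))
    (hXb : ∀ n, ∃ B, ∀ ω, |X n ω| ≤ B) (hFb : ∀ n, ∃ B, ∀ ω, |F n ω| ≤ B)
    {C δ : ℝ} (hδ : 0 < δ) (h1 : ∀ n, ∫ ω, F n ω ∂(P n) = 0)
    (h2 : ∀ n, ∫ ω, F n ω ^ 2 ∂(P n) = 1) (h4 : ∀ n, 3 + δ ≤ ∫ ω, F n ω ^ 4 ∂(P n))
    (h6 : ∀ n, ∫ ω, F n ω ^ 6 ∂(P n) ≤ C)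
    (hXF : Tendsto (fun n => ∫ ω, (X n ω - F n ω) ^ 2 ∂(P n)) atTop (𝓝 0))
    (μ : ℝ) (v : NNReal)
    (hconv : ∀ f : BoundedContinuousFunction ℝ ℝ,
      Tendsto (fun n => ∫ ω, f (X n ω) ∂(P n)) atTop (𝓝 (∫ x, f x ∂(gaussianReal μ v)))) :
    False := by
  have hC0 : 0 ≤ C := le_trans (integral_nonneg fun ω => by positivity) (h6 0)
  -- bounded powers are integrable
  have hFi : ∀ n p, Integrable (fun ω => F n ω ^ p) (P n) := by
    intro n p
    obtain ⟨B, hB⟩ := hFb n
    apply int_of_bdd ((hFm n).pow_const p) (B := B ^ p)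
    intro ω
    rw [abs_pow]
    exact pow_le_pow_left₀ (abs_nonneg _) (hB ω) p
  have hcm : ∀ R : ℝ, Measurable (clip R) := fun R => (clip_cont R).measurable
  have hcF : ∀ (R : ℝ), 0 ≤ R → ∀ n p, Integrable (fun ω => clip R (F n ω) ^ p) (P n) := by
    intro R hR n p
    apply int_of_bdd (((hcm R).comp (hFm n)).pow_const p) (B := R ^ p)
    intro ω
    simp only [Function.comp]
    rw [abs_pow]
    exact pow_le_pow_left₀ (abs_nonneg _) (abs_clip hR _) p
  have hcX : ∀ (R : ℝ), 0 ≤ R → ∀ n p, Integrable (fun ω => clip R (X n ω) ^ p) (P n) := by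
    intro R hR n p
    apply int_of_bdd (((hcm R).comp (hXm n)).pow_const p) (B := R ^ p)
    intro ω
    simp only [Function.comp]
    rw [abs_pow]
    exact pow_le_pow_left₀ (abs_nonneg _) (abs_clip hR _) p
  -- L1 distance tends to zero
  have hL1 : Tendsto (fun n => ∫ ω, |X n ω - F n ω| ∂(P n)) atTop (𝓝 0) := by
    have hs : Tendsto (fun n => Real.sqrt (∫ ω, (X n ω - F n ω) ^ 2 ∂(P n))) atTop (𝓝 0) := by
      have := (Real.continuous_sqrt.tendsto 0).comp hXF
      rw [Real.sqrt_zero] at this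
      exact this
    refine tendsto_of_tendsto_of_tendsto_of_le_of_le tendsto_const_nhds hs ?_ ?_
    · intro n; exact integral_nonneg fun ω => abs_nonneg _
    · intro n
      apply Real.le_sqrt_of_sq_le
      obtain ⟨B, hB⟩ := hXb n
      obtain ⟨B', hB'⟩ := hFb n
      exact int_abs_sq_le ((hXm n).sub (hFm n)) (B := B + B') (fun ω =>
        (abs_sub _ _).trans (add_le_add (hB ω) (hB' ω)))
  -- truncated moments of F converge
  have hlim : ∀ (R : ℝ) (hR : 1 ≤ R) (p : ℕ), (p = 1 ∨ p = 2 ∨ p = 4) →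
      Tendsto (fun n => ∫ ω, clip R (F n ω) ^ p ∂(P n)) atTop
        (𝓝 (∫ x, clip R x ^ p ∂(gaussianReal μ v))) := by
    intro R hR p hp
    have hR0 : 0 ≤ R := by linarith
    have a := hconv (tf R hR0 p)
    simp only [tf_apply] at a
    have b : Tendsto (fun n => ∫ ω, clip R (F n ω) ^ p ∂(P n) -
        ∫ ω, clip R (X n ω) ^ p ∂(P n)) atTop (𝓝 0) := by
      have hb : Tendsto (fun n => 4 * R ^ 3 * ∫ ω, |X n ω - F n ω| ∂(P n)) atTop (𝓝 0) := by
        have := hL1.const_mul (4 * R ^ 3)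
        simpa using this
      apply squeeze_zero_norm _ hb
      intro n
      rw [← integral_sub (hcF R hR0 n p) (hcX R hR0 n p), ← integral_const_mul]
      refine (norm_integral_le_integral_norm _).trans ?_
      apply integral_mono
      · exact ((hcF R hR0 n p).sub (hcX R hR0 n p)).norm
      · obtain ⟨B, hB⟩ := hXb n
        obtain ⟨B', hB'⟩ := hFb n
        have : Integrable (fun ω => |X n ω - F n ω|) (P n) :=
          int_of_bdd ((hXm n).sub (hFm n)).abs (B := B + B') (fun ω => by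
            rw [abs_abs]
            exact (abs_sub _ _).trans (add_le_add (hB ω) (hB' ω)))
        exact this.const_mul _
      · intro ω
        simp only [Real.norm_eq_abs]
        have := tf_lip hR hp (F n ω) (X n ω)
        rw [abs_sub_comm (F n ω) (X n ω)] at this
        exact this
    have c := a.add b
    simp only [add_zero] at c
    refine c.congr ?_
    intro n; ring
  -- comparison with true moments
  have hF6 : ∀ (R : ℝ) (_ : 1 ≤ R) (p : ℕ), (p = 1 ∨ p = 2 ∨ p = 4) → ∀ n,
      |∫ ω, F n ω ^ p ∂(P n) - ∫ ω, clip R (F n ω) ^ p ∂(P n)| ≤ C / R := by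
    intro R hR p hp n
    have hR0 : 0 < R := by linarith
    rw [← integral_sub (hFi n p) (hcF R hR0.le n p), ← Real.norm_eq_abs]
    refine (norm_integral_le_integral_norm _).trans ?_
    have : ∫ ω, ‖F n ω ^ p - clip R (F n ω) ^ p‖ ∂(P n) ≤ ∫ ω, F n ω ^ 6 / R ∂(P n) := by
      apply integral_mono
      · exact ((hFi n p).sub (hcF R hR0.le n p)).norm
      · exact (hFi n 6).div_const R
      · intro ω; exact clip_pow_diff hR hp
    refine this.trans ?_
    rw [integral_div]
    exact div_le_div_of_nonneg_right (h6 n) hR0.le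
  set Cν := ∫ x, x ^ 6 ∂(gaussianReal μ v) with hCν
  have hν : ∀ (R : ℝ) (_ : 1 ≤ R) (p : ℕ), (p = 1 ∨ p = 2 ∨ p = 4) →
      |∫ x, x ^ p ∂(gaussianReal μ v) - ∫ x, clip R x ^ p ∂(gaussianReal μ v)| ≤ Cν / R := by
    intro R hR p hp
    have hR0 : 0 < R := by linarith
    have hci : Integrable (fun x => clip R x ^ p) (gaussianReal μ v) := by
      apply int_of_bdd ((hcm R).pow_const p) (B := R ^ p)
      intro ω
      rw [abs_pow]
      exact pow_le_pow_left₀ (abs_nonneg _) (abs_clip hR0.le _) p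
    rw [← integral_sub (gauss_int_pow μ v p) hci, ← Real.norm_eq_abs]
    refine (norm_integral_le_integral_norm _).trans ?_
    have : ∫ x, ‖x ^ p - clip R x ^ p‖ ∂(gaussianReal μ v) ≤
        ∫ x, x ^ 6 / R ∂(gaussianReal μ v) := by
      apply integral_mono
      · exact ((gauss_int_pow μ v p).sub hci).norm
      · exact (gauss_int_pow μ v 6).div_const R
      · intro x; exact clip_pow_diff hR hp
    refine this.trans ?_
    rw [integral_div]
  -- identification of the moments
  have hsmall : ∀ a K : ℝ, (∀ R : ℝ, 1 ≤ R → a ≤ K / R) → a ≤ 0 := by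
    intro a K h
    by_contra ha
    push Not at ha
    have hK : 0 < K := by
      have := h 1 le_rfl
      rw [div_one] at this
      linarith
    have h3 := h (max 1 (2 * K / a)) (le_max_left _ _)
    have h5 : 2 * K / a ≤ max 1 (2 * K / a) := le_max_right _ _
    have h7 : 0 < 2 * K / a := by positivity
    have h8 : K / max 1 (2 * K / a) ≤ K / (2 * K / a) :=
      div_le_div_of_nonneg_left hK.le h7 h5
    have h9 : K / (2 * K / a) = a / 2 := by field_simp
    linarith
  have m1 : ∫ x, x ∂(gaussianReal μ v) = 0 := by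
    have e : |∫ x, x ∂(gaussianReal μ v)| ≤ 0 := by
      apply hsmall _ (C + Cν)
      intro R hR
      have a := hν R hR 1 (Or.inl rfl)
      have b : |∫ x, clip R x ^ 1 ∂(gaussianReal μ v)| ≤ C / R := by
        apply le_of_tendsto (hlim R hR 1 (Or.inl rfl)).abs
        apply Eventually.of_forall
        intro n
        have := hF6 R hR 1 (Or.inl rfl) n
        simp only [pow_one, h1 n, zero_sub, abs_neg] at this
        simpa using this
      have e1 : ∫ x, x ^ 1 ∂(gaussianReal μ v) = ∫ x, x ∂(gaussianReal μ v) := by simp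
      rw [e1] at a
      have c : |∫ x, x ∂(gaussianReal μ v)| ≤ |∫ x, x ∂(gaussianReal μ v) -
          ∫ x, clip R x ^ 1 ∂(gaussianReal μ v)| + |∫ x, clip R x ^ 1 ∂(gaussianReal μ v)| := by
        have := abs_add_le (∫ x, x ∂(gaussianReal μ v) -
          ∫ x, clip R x ^ 1 ∂(gaussianReal μ v)) (∫ x, clip R x ^ 1 ∂(gaussianReal μ v))
        simpa using this
      rw [add_div]
      linarith
    exact abs_eq_zero.1 (le_antisymm e (abs_nonneg _))
  have m2 : ∫ x, x ^ 2 ∂(gaussianReal μ v) = 1 := by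
    have e : |∫ x, x ^ 2 ∂(gaussianReal μ v) - 1| ≤ 0 := by
      apply hsmall _ (C + Cν)
      intro R hR
      have a := hν R hR 2 (Or.inr (Or.inl rfl))
      have b : |∫ x, clip R x ^ 2 ∂(gaussianReal μ v) - 1| ≤ C / R := by
        apply le_of_tendsto ((hlim R hR 2 (Or.inr (Or.inl rfl))).sub_const 1).abs
        apply Eventually.of_forall
        intro n
        have := hF6 R hR 2 (Or.inr (Or.inl rfl)) n
        rw [h2 n, abs_sub_comm] at this
        exact this
      have c : |∫ x, x ^ 2 ∂(gaussianReal μ v) - 1| ≤ |∫ x, x ^ 2 ∂(gaussianReal μ v) -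
          ∫ x, clip R x ^ 2 ∂(gaussianReal μ v)| +
          |∫ x, clip R x ^ 2 ∂(gaussianReal μ v) - 1| := by
        have := abs_add_le (∫ x, x ^ 2 ∂(gaussianReal μ v) -
          ∫ x, clip R x ^ 2 ∂(gaussianReal μ v)) (∫ x, clip R x ^ 2 ∂(gaussianReal μ v) - 1)
        simpa using this
      rw [add_div]
      linarith
    have := abs_eq_zero.1 (le_antisymm e (abs_nonneg _))
    linarith
  have m4 : 3 + δ ≤ ∫ x, x ^ 4 ∂(gaussianReal μ v) := by
    have e : 3 + δ - ∫ x, x ^ 4 ∂(gaussianReal μ v) ≤ 0 := by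
      apply hsmall _ (C + Cν)
      intro R hR
      have a := (abs_le.1 (hν R hR 4 (Or.inr (Or.inr rfl)))).1
      have b : 3 + δ - C / R ≤ ∫ x, clip R x ^ 4 ∂(gaussianReal μ v) := by
        apply ge_of_tendsto (hlim R hR 4 (Or.inr (Or.inr rfl)))
        apply Eventually.of_forall
        intro n
        have := (abs_le.1 (hF6 R hR 4 (Or.inr (Or.inr rfl)) n)).2
        linarith [h4 n]
      rw [add_div]
      linarith
    linarith
  -- parameters of the normal law
  have hμ : μ = 0 := by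
    rw [integral_id_gaussianReal] at m1; exact m1
  have hv : v = 1 := by
    have hvar := variance_fun_id_gaussianReal (μ := μ) (v := v)
    rw [variance_eq_integral (by fun_prop)] at hvar
    rw [integral_id_gaussianReal, hμ] at hvar
    simp only [sub_zero] at hvar
    rw [hμ] at m2
    rw [m2] at hvar
    exact_mod_cast hvar.symm
  rw [hμ, hv, gauss_four] at m4
  linarith

end TwoWalks
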