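import Pool.Agent.TwoWalks.Real
import Pool.Agent.TwoWalks.Cover

/-! The sets of marked vertices and the count functionals. -/

open MeasureTheory ProbabilityTheory Filter Topology

namespace TwoWalks

variable {M r : ℕ}

/-- Indicator that `v` has been marked `i`. -/
noncomputable def mkf (i : Bool) (v : VV M r) : SS M r → List (SS M r) → ℝ
  | s, [] => (if posi i s = v then 1 else 0) * tieok i s
  | s', s :: h => mkf i v s h + (if posi i s' = v then 1 else 0) * (nv v s h * tieok i s')

lemma cnt_eq_sum (i : Bool) (s : SS M r) (l : List (SS M r)) :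
    cnt i s l = ∑ v, mkf i v s l := by
  induction l generalizing s with
  | nil =>
    simp only [cnt, mkf]
    rw [← Finset.sum_mul, Finset.sum_ite_eq Finset.univ (posi i s)]
    simp
  | cons a l ih =>
    have e1 : cnt i s (a :: l) = cnt i a l + nv (posi i s) a l * tieok i s := rfl
    have e2 : ∀ v, mkf i v s (a :: l) = mkf i v a l + (if posi i s = v then 1 else 0) *
      (nv v a l * tieok i s) := fun v => rfl
    rw [e1, ih a]
    simp_rw [e2]
    rw [Finset.sum_add_distrib]
    congr 1
    simp only [ite_mul, one_mul, zero_mul]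
    rw [Finset.sum_ite_eq Finset.univ (posi i s)]
    simp

section

variable {Ω : Type} {X : Bool → ℕ → Ω → VV M r} {ξ : ℕ → Ω → Bool}

lemma HH_succ (T : ℕ) (ω : Ω) : HH (T + 1) (PP X ξ (T + 1) ω) =
    (WW X ξ (T + 1) ω, (HH T (PP X ξ T ω)).1 :: (HH T (PP X ξ T ω)).2) := rfl

lemma posi_WW (i : Bool) (t : ℕ) (ω : Ω) : posi i (WW X ξ t ω) = X i t ω := by
  cases i <;> rfl

open Classical in
lemma nv_real (v : VV M r) (T : ℕ) (ω : Ω) :
    nv v (HH T (PP X ξ T ω)).1 (HH T (PP X ξ T ω)).2 =
      if (∀ s ≤ T, ∀ j, X j s ω ≠ v) then 1 else 0 := by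
  induction T with
  | zero =>
    have e : nv v (HH 0 (PP X ξ 0 ω)).1 (HH 0 (PP X ξ 0 ω)).2 =
      (if X false 0 ω = v then 0 else 1) * (if X true 0 ω = v then 0 else 1) := rfl
    rw [e]
    by_cases h1 : X false 0 ω = v
    · have h3 : ¬ (∀ s ≤ 0, ∀ j, X j s ω ≠ v) := fun h => h 0 le_rfl false h1
      rw [if_pos h1, if_neg h3]; ring
    · by_cases h2 : X true 0 ω = v
      · have h3 : ¬ (∀ s ≤ 0, ∀ j, X j s ω ≠ v) := fun h => h 0 le_rfl true h2
        rw [if_pos h2, if_neg h3]; ring
      · have h3 : ∀ s ≤ 0, ∀ j, X j s ω ≠ v := by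
          intro s hs j
          have : s = 0 := by omega
          subst this
          cases j <;> assumption
        rw [if_neg h1, if_neg h2, if_pos h3]; ring
  | succ T ih =>
    have e : nv v (HH (T + 1) (PP X ξ (T + 1) ω)).1 (HH (T + 1) (PP X ξ (T + 1) ω)).2 =
      nv v (HH T (PP X ξ T ω)).1 (HH T (PP X ξ T ω)).2 *
      ((if X false (T + 1) ω = v then 0 else 1) * (if X true (T + 1) ω = v then 0 else 1)) := rfl
    rw [e, ih]
    by_cases h0 : ∀ s ≤ T, ∀ j, X j s ω ≠ v
    · rw [if_pos h0, one_mul]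
      by_cases h1 : X false (T + 1) ω = v
      · have h3 : ¬ (∀ s ≤ T + 1, ∀ j, X j s ω ≠ v) := fun h => h (T + 1) le_rfl false h1
        rw [if_pos h1, if_neg h3]; ring
      · by_cases h2 : X true (T + 1) ω = v
        · have h3 : ¬ (∀ s ≤ T + 1, ∀ j, X j s ω ≠ v) := fun h => h (T + 1) le_rfl true h2
          rw [if_pos h2, if_neg h3]; ring
        · have h3 : ∀ s ≤ T + 1, ∀ j, X j s ω ≠ v := by
            intro s hs j
            rcases Nat.lt_or_ge T s with h | h
            · have : s = T + 1 := by omega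
              subst this
              cases j <;> assumption
            · exact h0 s h j
          rw [if_neg h1, if_neg h2, if_pos h3]; ring
    · rw [if_neg h0, zero_mul, if_neg]
      intro h
      exact h0 fun s hs j => h s (by omega) j

/-- Marked by time `T`. -/
def MK (X : Bool → ℕ → Ω → VV M r) (ξ : ℕ → Ω → Bool) (i : Bool) (v : VV M r) (T : ℕ) (ω : Ω) :
    Prop :=
  ∃ t ≤ T, X i t ω = v ∧ (∀ s < t, ∀ j, X j s ω ≠ v) ∧ (X (!i) t ω = v → ξ t ω = i)

open Classical in
lemma tie_WW (i : Bool) (v : VV M r) (t : ℕ) (ω : Ω) (h : X i t ω = v) :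
    tieok i (WW X ξ t ω) = if (X (!i) t ω = v → ξ t ω = i) then 1 else 0 := by
  unfold tieok
  have e : ((WW X ξ t ω).1 = (WW X ξ t ω).2.1 ∧ (WW X ξ t ω).2.2 ≠ i) ↔
      ¬ (X (!i) t ω = v → ξ t ω = i) := by
    change (X false t ω = X true t ω ∧ ξ t ω ≠ i) ↔ _
    cases i
    · simp only [Bool.not_false]
      rw [h]
      constructor
      · rintro ⟨h1, h2⟩ h3; exact h2 (h3 h1.symm)
      · intro h1
        push Not at h1
        exact ⟨h1.1.symm, h1.2⟩
    · simp only [Bool.not_true]
      rw [h]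
      constructor
      · rintro ⟨h1, h2⟩ h3; exact h2 (h3 h1)
      · intro h1
        push Not at h1
        exact ⟨h1.1, h1.2⟩
  by_cases h1 : (X (!i) t ω = v → ξ t ω = i)
  · rw [if_pos h1, if_neg]
    rw [e]; exact fun h => h h1
  · rw [if_neg h1, if_pos]
    rw [e]; exact h1

open Classical in
lemma mkf_real (i : Bool) (v : VV M r) (T : ℕ) (ω : Ω) :
    mkf i v (HH T (PP X ξ T ω)).1 (HH T (PP X ξ T ω)).2 =
      if MK X ξ i v T ω then 1 else 0 := by
  induction T with
  | zero =>
    have e : mkf i v (HH 0 (PP X ξ 0 ω)).1 (HH 0 (PP X ξ 0 ω)).2 =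
      (if posi i (WW X ξ 0 ω) = v then 1 else 0) * tieok i (WW X ξ 0 ω) := rfl
    rw [e, posi_WW]
    by_cases h1 : X i 0 ω = v
    · rw [if_pos h1, one_mul, tie_WW i v 0 ω h1]
      congr 1
      apply propext
      unfold MK
      constructor
      · intro h; exact ⟨0, le_rfl, h1, fun s hs => by omega, h⟩
      · rintro ⟨t, ht, -, -, h⟩
        have : t = 0 := by omega
        subst this; exact h
    · rw [if_neg h1, zero_mul, if_neg]
      rintro ⟨t, ht, h, -, -⟩
      have : t = 0 := by omega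
      subst this; exact h1 h
  | succ T ih =>
    have e : mkf i v (HH (T + 1) (PP X ξ (T + 1) ω)).1 (HH (T + 1) (PP X ξ (T + 1) ω)).2 =
      mkf i v (HH T (PP X ξ T ω)).1 (HH T (PP X ξ T ω)).2 +
      (if posi i (WW X ξ (T + 1) ω) = v then 1 else 0) *
      (nv v (HH T (PP X ξ T ω)).1 (HH T (PP X ξ T ω)).2 * tieok i (WW X ξ (T + 1) ω)) := rfl
    rw [e, ih, posi_WW, nv_real]
    by_cases h0 : MK X ξ i v T ω
    · have h1 : ¬ (∀ s ≤ T, ∀ j, X j s ω ≠ v) := by
        obtain ⟨t, ht, h, -, -⟩ := h0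
        intro h2
        exact h2 t ht i h
      have h2 : MK X ξ i v (T + 1) ω := by
        obtain ⟨t, ht, h⟩ := h0
        exact ⟨t, by omega, h⟩
      rw [if_pos h0, if_neg h1, if_pos h2]
      ring
    · rw [if_neg h0, zero_add]
      by_cases h1 : X i (T + 1) ω = v
      · rw [if_pos h1, one_mul, tie_WW i v (T + 1) ω h1]
        by_cases h2 : ∀ s ≤ T, ∀ j, X j s ω ≠ v
        · rw [if_pos h2, one_mul]
          congr 1
          apply propext
          constructor
          · intro h; exact ⟨T + 1, le_rfl, h1, fun s hs => h2 s (by omega), h⟩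
          · rintro ⟨t, ht, h3, h4, h5⟩
            rcases Nat.lt_or_ge T t with h | h
            · have : t = T + 1 := by omega
              subst this; exact h5
            · exact absurd ⟨t, h, h3, h4, h5⟩ h0
        · rw [if_neg h2, zero_mul, if_neg]
          rintro ⟨t, ht, h3, h4, h5⟩
          rcases Nat.lt_or_ge T t with h | h
          · apply h2
            intro s hs
            exact h4 s (by omega)
          · exact h0 ⟨t, h, h3, h4, h5⟩
      · rw [if_neg h1, zero_mul, if_neg]
        rintro ⟨t, ht, h3, h4, h5⟩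
        rcases Nat.lt_or_ge T t with h | h
        · have : t = T + 1 := by omega
          subst this; exact h1 h3
        · exact h0 ⟨t, h, h3, h4, h5⟩

open Classical in
lemma markCount_eq (i : Bool) (ω : Ω) :
    markCount X ξ i ω = ∑ v, if v ∈ marked X ξ i ω then (1 : ℝ) else 0 := by
  unfold markCount
  rw [Set.ncard_eq_toFinset_card', ← Finset.sum_filter, Finset.sum_const, nsmul_eq_mul, mul_one]
  congr 2
  ext v
  simp

lemma markCount_bounds (i : Bool) (T : ℕ) (ω : Ω) :
    cnt i (HH T (PP X ξ T ω)).1 (HH T (PP X ξ T ω)).2 ≤ markCount X ξ i ω ∧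
    markCount X ξ i ω ≤ cnt i (HH T (PP X ξ T ω)).1 (HH T (PP X ξ T ω)).2 +
      unv (HH T (PP X ξ T ω)).1 (HH T (PP X ξ T ω)).2 := by
  classical
  rw [markCount_eq, cnt_eq_sum]
  unfold unv
  rw [← Finset.sum_add_distrib]
  constructor
  · apply Finset.sum_le_sum
    intro v _
    rw [mkf_real]
    by_cases h : MK X ξ i v T ω
    · rw [if_pos h, if_pos]
      obtain ⟨t, -, h⟩ := h
      exact ⟨t, h⟩
    · rw [if_neg h]; split_ifs <;> norm_num
  · apply Finset.sum_le_sum
    intro v _
    rw [mkf_real, nv_real]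
    by_cases h : v ∈ marked X ξ i ω
    · rw [if_pos h]
      obtain ⟨t, ht⟩ := h
      by_cases h2 : t ≤ T
      · have : MK X ξ i v T ω := ⟨t, h2, ht⟩
        rw [if_pos this]
        split_ifs <;> norm_num
      · have : ∀ s ≤ T, ∀ j, X j s ω ≠ v := fun s hs => ht.2.1 s (by omega)
        rw [if_pos this]
        split_ifs <;> norm_num
    · rw [if_neg h]
      split_ifs <;> norm_num

/-- The count of the vertices marked `i` is close to a half of `N ± D`. -/
lemma markCount_close (i : Bool) (T : ℕ) (ω : Ω) :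
    |markCount X ξ i ω - (M : ℝ) * r -
      sa i / 2 * Df (HH T (PP X ξ T ω)).1 (HH T (PP X ξ T ω)).2| ≤
      unv (HH T (PP X ξ T ω)).1 (HH T (PP X ξ T ω)).2 / 2 := by
  have h1 := markCount_bounds (X := X) (ξ := ξ) i T ω
  have h2 := count_total (HH T (PP X ξ T ω)).1 (HH T (PP X ξ T ω)).2
  have h3 := unv_nonneg (HH T (PP X ξ T ω)).1 (HH T (PP X ξ T ω)).2
  unfold Df
  rw [abs_le]
  cases i
  · simp only [sa] at *
    constructor <;> norm_num <;> linarith [h1.1, h1.2]
  · simp only [sa] at *
    constructor <;> norm_num <;> linarith [h1.1, h1.2]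

end

lemma markCount_meas {Ω : Type} [MeasurableSpace Ω] {P : Measure Ω}
    {X : Bool → ℕ → Ω → VV M r} {ξ : ℕ → Ω → Bool} (hW : IsTwoWalks (GG M r) P X ξ) (i : Bool) :
    Measurable (markCount X ξ i) := by
  classical
  have h1 : markCount X ξ i = fun ω => ∑ v, if v ∈ marked X ξ i ω then (1 : ℝ) else 0 := by
    funext ω; exact markCount_eq i ω
  rw [h1]
  apply Finset.measurable_sum
  intro v _
  have h2 : MeasurableSet {ω | v ∈ marked X ξ i ω} := by
    have e : {ω | v ∈ marked X ξ i ω} = ⋃ t : ℕ, ({ω | X i t ω = v} ∩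
        (⋂ s : ℕ, ⋂ _ : s < t, ⋂ j : Bool, {ω | X j s ω = v}ᶜ) ∩
        ({ω | X (!i) t ω = v}ᶜ ∪ {ω | ξ t ω = i})) := by
      ext ω
      simp only [marked, Set.mem_ofPred_eq, Set.mem_iUnion, Set.mem_inter_iff, Set.mem_iInter,
        Set.mem_compl_iff, Set.mem_union]
      constructor
      · rintro ⟨t, a, b, c⟩
        refine ⟨t, ⟨a, b⟩, ?_⟩
        by_cases h : X (!i) t ω = v
        · right; exact c h
        · left; exact h
      · rintro ⟨t, ⟨a, b⟩, c⟩
        refine ⟨t, a, b, ?_⟩
        intro h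
        rcases c with c | c
        · exact absurd h c
        · exact c
    rw [e]
    apply MeasurableSet.iUnion
    intro t
    apply MeasurableSet.inter
    · apply MeasurableSet.inter
      · exact hW.measurable_walk i t v
      · apply MeasurableSet.iInter
        intro s
        apply MeasurableSet.iInter
        intro _
        apply MeasurableSet.iInter
        intro j
        exact (hW.measurable_walk j s v).compl
    · exact (hW.measurable_walk (!i) t v).compl.union (hW.measurable_coin t i)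
  exact Measurable.ite h2 measurable_const measurable_const

lemma markCount_bdd {Ω : Type} (X : Bool → ℕ → Ω → VV M r) (ξ : ℕ → Ω → Bool) (i : Bool) (ω : Ω) :
    |markCount X ξ i ω| ≤ 2 * ((M : ℝ) * r) := by
  classical
  rw [markCount_eq]
  have h0 : 0 ≤ ∑ v, (if v ∈ marked X ξ i ω then (1 : ℝ) else 0) :=
    Finset.sum_nonneg fun v _ => by split_ifs <;> norm_num
  rw [abs_of_nonneg h0]
  have : ∑ v, (if v ∈ marked X ξ i ω then (1 : ℝ) else 0) ≤ ∑ _v : VV M r, (1 : ℝ) :=
    Finset.sum_le_sum fun v _ => by split_ifs <;> norm_num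
  rw [Finset.sum_const, Finset.card_univ, card_VV, nsmul_eq_mul, mul_one] at this
  push_cast at this
  exact this

end TwoWalks
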