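import Pool.Agent.TwoWalks.Chain

/-! Moments of the functionals of the signs. -/

namespace TwoWalks

/-! ### Pointwise polynomial inequalities -/

lemma even_young {X Y t : ℝ} (hX : 0 ≤ X) (hY : 0 ≤ Y) (ht : 1 ≤ t) :
    X ^ 2 * Y ≤ X ^ 3 / t + t ^ 2 * Y ^ 3 := by
  have ht0 : 0 < t := by linarith
  rw [← sub_nonneg]
  have : X ^ 3 / t + t ^ 2 * Y ^ 3 - X ^ 2 * Y = (X ^ 3 + (t * Y) ^ 3 - X ^ 2 * (t * Y)) / t := by
    field_simp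
  rw [this]
  apply div_nonneg _ ht0.le
  have hZ : 0 ≤ t * Y := by positivity
  rcases le_total X (t * Y) with h | h
  · have : X ^ 2 * (t * Y) ≤ (t * Y) ^ 2 * (t * Y) := by
      apply mul_le_mul_of_nonneg_right _ hZ
      exact pow_le_pow_left₀ hX h 2
    nlinarith [pow_nonneg hX 3]
  · have : X ^ 2 * (t * Y) ≤ X ^ 2 * X := by
      apply mul_le_mul_of_nonneg_left h (by positivity)
    nlinarith [pow_nonneg hZ 3]

lemma even_young' {X Y t : ℝ} (hX : 0 ≤ X) (hY : 0 ≤ Y) (ht : 1 ≤ t) :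
    X * Y ^ 2 ≤ X ^ 3 / t + t ^ 2 * Y ^ 3 := by
  have ht0 : 0 < t := by linarith
  rw [← sub_nonneg]
  have : X ^ 3 / t + t ^ 2 * Y ^ 3 - X * Y ^ 2 =
      (t * (X ^ 3 + (t * Y) ^ 3) - X * (t * Y) ^ 2) / t ^ 2 := by
    field_simp
  rw [this]
  apply div_nonneg _ (by positivity)
  have hZ : 0 ≤ t * Y := by positivity
  have h1 : X * (t * Y) ^ 2 ≤ X ^ 3 + (t * Y) ^ 3 := by
    rcases le_total X (t * Y) with h | h
    · have : X * (t * Y) ^ 2 ≤ (t * Y) * (t * Y) ^ 2 := by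
        apply mul_le_mul_of_nonneg_right h (by positivity)
      nlinarith [pow_nonneg hX 3]
    · have : X * (t * Y) ^ 2 ≤ X * X ^ 2 := by
        apply mul_le_mul_of_nonneg_left _ hX
        exact pow_le_pow_left₀ hZ h 2
      nlinarith [pow_nonneg hZ 3]
  have h2 : 0 ≤ X ^ 3 + (t * Y) ^ 3 := by positivity
  nlinarith

lemma pow3_bound {D : ℝ} (hD : |D| ≤ 2) (a : ℝ) : a * D ^ 3 ≤ 2 * |a| * D ^ 2 := by
  have h1 : a * D ≤ 2 * |a| := by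
    calc a * D ≤ |a * D| := le_abs_self _
      _ = |a| * |D| := abs_mul _ _
      _ ≤ |a| * 2 := mul_le_mul_of_nonneg_left hD (abs_nonneg a)
      _ = 2 * |a| := by ring
  nlinarith [sq_nonneg D]

lemma six_pt {A g D : ℝ} (hD : |D| ≤ 2) :
    (A + g * D) ^ 6 ≤ A ^ 6 + 6 * A ^ 5 * g * D +
      (35 * A ^ 4 * g ^ 2 + 104 * A ^ 2 * g ^ 4 + 40 * g ^ 6) * D ^ 2 := by
  have hD2 : D ^ 2 ≤ 4 := by
    have := abs_le.1 hD
    nlinarith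
  have e3 := pow3_bound hD (20 * A ^ 3 * g ^ 3)
  have h3 : |20 * A ^ 3 * g ^ 3| ≤ 10 * (A ^ 4 * g ^ 2 + A ^ 2 * g ^ 4) := by
    rw [abs_le]
    constructor
    · nlinarith [mul_nonneg (mul_nonneg (sq_nonneg A) (sq_nonneg g)) (sq_nonneg (A + g))]
    · nlinarith [mul_nonneg (mul_nonneg (sq_nonneg A) (sq_nonneg g)) (sq_nonneg (A - g))]
  have e5 : 6 * A * g ^ 5 * D ^ 5 ≤ 24 * (A ^ 2 * g ^ 4 + g ^ 6) * D ^ 2 := by
    have h5 := pow3_bound hD (6 * A * g ^ 5)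
    have h6 : |6 * A * g ^ 5| ≤ 3 * (A ^ 2 * g ^ 4 + g ^ 6) := by
      rw [abs_le]
      have hg : 0 ≤ g ^ 4 := by positivity
      constructor
      · nlinarith [mul_nonneg hg (sq_nonneg (A + g))]
      · nlinarith [mul_nonneg hg (sq_nonneg (A - g))]
    have h7 : 6 * A * g ^ 5 * D ^ 5 = (6 * A * g ^ 5 * D ^ 3) * D ^ 2 := by ring
    rw [h7]
    have h8 : 6 * A * g ^ 5 * D ^ 3 ≤ 6 * (A ^ 2 * g ^ 4 + g ^ 6) * D ^ 2 := by
      nlinarith [mul_le_mul_of_nonneg_right h6 (sq_nonneg D)]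
    calc (6 * A * g ^ 5 * D ^ 3) * D ^ 2 ≤ (6 * (A ^ 2 * g ^ 4 + g ^ 6) * D ^ 2) * D ^ 2 :=
          mul_le_mul_of_nonneg_right h8 (sq_nonneg D)
      _ ≤ (6 * (A ^ 2 * g ^ 4 + g ^ 6) * D ^ 2) * 4 := by
          apply mul_le_mul_of_nonneg_left hD2; positivity
      _ = _ := by ring
  have e4 : 15 * A ^ 2 * g ^ 4 * D ^ 4 ≤ 60 * A ^ 2 * g ^ 4 * D ^ 2 := by
    have : 15 * A ^ 2 * g ^ 4 * D ^ 4 = (15 * A ^ 2 * g ^ 4 * D ^ 2) * D ^ 2 := by ring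
    rw [this]
    calc (15 * A ^ 2 * g ^ 4 * D ^ 2) * D ^ 2 ≤ (15 * A ^ 2 * g ^ 4 * D ^ 2) * 4 := by
          apply mul_le_mul_of_nonneg_left hD2; positivity
      _ = _ := by ring
  have e6 : g ^ 6 * D ^ 6 ≤ 16 * g ^ 6 * D ^ 2 := by
    have h9 : D ^ 4 ≤ 16 := by
      have : D ^ 4 = D ^ 2 * D ^ 2 := by ring
      rw [this]; nlinarith [sq_nonneg D]
    have : g ^ 6 * D ^ 6 = (g ^ 6 * D ^ 2) * D ^ 4 := by ring
    rw [this]
    calc (g ^ 6 * D ^ 2) * D ^ 4 ≤ (g ^ 6 * D ^ 2) * 16 := by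
          apply mul_le_mul_of_nonneg_left h9; positivity
      _ = _ := by ring
  have e3' : 20 * A ^ 3 * g ^ 3 * D ^ 3 ≤ 20 * (A ^ 4 * g ^ 2 + A ^ 2 * g ^ 4) * D ^ 2 := by
    nlinarith [mul_le_mul_of_nonneg_right h3 (sq_nonneg D)]
  have expand : (A + g * D) ^ 6 = A ^ 6 + 6 * A ^ 5 * g * D + 15 * A ^ 4 * g ^ 2 * D ^ 2 +
      20 * A ^ 3 * g ^ 3 * D ^ 3 + 15 * A ^ 2 * g ^ 4 * D ^ 4 + 6 * A * g ^ 5 * D ^ 5 +
      g ^ 6 * D ^ 6 := by ring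
  rw [expand]
  linarith

lemma four_pt {A g D : ℝ} (hD : |D| ≤ 2) :
    A ^ 4 + 4 * A ^ 3 * g * D + (6 * A ^ 2 * g ^ 2 - 8 * |A| * |g| ^ 3) * D ^ 2 ≤
      (A + g * D) ^ 4 := by
  have e3 := pow3_bound hD (-(4 * A * g ^ 3))
  have h3 : |-(4 * A * g ^ 3)| = 4 * (|A| * |g| ^ 3) := by
    rw [abs_neg, abs_mul, abs_mul, abs_pow]
    norm_num [abs_of_pos]
    ring
  rw [h3] at e3
  have expand : (A + g * D) ^ 4 = A ^ 4 + 4 * A ^ 3 * g * D + 6 * A ^ 2 * g ^ 2 * D ^ 2 +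
      4 * A * g ^ 3 * D ^ 3 + g ^ 4 * D ^ 4 := by ring
  rw [expand]
  have h4 : 0 ≤ g ^ 4 * D ^ 4 := by positivity
  linarith

lemma mixed_pt {N g P D m : ℝ} (hD : |D| ≤ 2) (hP : |P| ≤ 2) :
    N ^ 2 * m ^ 2 + 2 * N ^ 2 * m * P + N ^ 2 * P ^ 2 + 2 * N * g * m ^ 2 * D +
      4 * N * g * m * (P * D) - 4 * |N| * |g| * P ^ 2 +
      (g ^ 2 * m ^ 2 - 4 * g ^ 2 * |m|) * D ^ 2 ≤ (N + g * D) ^ 2 * (m + P) ^ 2 := by
  have h1 : -(4 * |N| * |g| * P ^ 2) ≤ 2 * N * g * D * P ^ 2 := by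
    have : |2 * N * g * D| ≤ 4 * |N| * |g| := by
      rw [abs_mul, abs_mul, abs_mul]
      norm_num [abs_of_pos]
      nlinarith [mul_nonneg (abs_nonneg N) (abs_nonneg g)]
    have h2 := (abs_le.1 this).1
    nlinarith [sq_nonneg P]
  have h2 : (g ^ 2 * m ^ 2 - 4 * g ^ 2 * |m|) * D ^ 2 ≤ g ^ 2 * D ^ 2 * (m + P) ^ 2 := by
    have h3 : m ^ 2 - 4 * |m| ≤ (m + P) ^ 2 := by
      have h4 : -(2 * |m|) ≤ m * P := by
        have : |m * P| ≤ 2 * |m| := by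
          rw [abs_mul]; nlinarith [abs_nonneg m]
        exact (abs_le.1 this).1
      nlinarith [sq_nonneg P]
    have h5 : 0 ≤ g ^ 2 * D ^ 2 := by positivity
    nlinarith [mul_le_mul_of_nonneg_left h3 h5]
  have expand : (N + g * D) ^ 2 * (m + P) ^ 2 = N ^ 2 * m ^ 2 + 2 * N ^ 2 * m * P +
      N ^ 2 * P ^ 2 + 2 * N * g * m ^ 2 * D + 4 * N * g * m * (P * D) + 2 * N * g * D * P ^ 2 +
      g ^ 2 * D ^ 2 * (m + P) ^ 2 := by ring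
  rw [expand]
  linarith

/-! ### General sixth moment recursion -/

variable {S : Type*} [Fintype S] {μ : S → ℝ} {K : S → S → ℝ}

lemma IsChain.six_rec (h : IsChain μ K) (n : ℕ) (Φ A g : S × List S → ℝ) (D : S → S → ℝ)
    {R G w : ℝ} (hw : 0 ≤ w) (hG : 0 < G) (hGR : G ≤ R)
    (hΦ : ∀ s' p, Φ (s', p.1 :: p.2) = A p + g p * D s' p.1)
    (hD : ∀ s' s, |D s' s| ≤ 2)
    (h0 : ∀ s, step K s (fun s' => D s' s) = 0)
    (h2 : ∀ s, step K s (fun s' => D s' s ^ 2) = w)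
    (hA : Ex μ K n (fun p => A p ^ 6) ≤ R ^ 3)
    (hg : Ex μ K n (fun p => g p ^ 6) ≤ G ^ 3) :
    Ex μ K (n + 1) (fun q => Φ q ^ 6) ≤ (R + 120 * w * G) ^ 3 := by
  have hR : 0 < R := hG.trans_le hGR
  rw [Ex_succ]
  have hstep : ∀ p : S × List S, step K p.1 (fun s' => Φ (s', p.1 :: p.2) ^ 6) ≤
      A p ^ 6 + w * (35 * A p ^ 4 * g p ^ 2 + 104 * A p ^ 2 * g p ^ 4 + 40 * g p ^ 6) := by
    intro p
    have e1 : step K p.1 (fun s' => Φ (s', p.1 :: p.2) ^ 6) ≤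
        step K p.1 (fun s' => A p ^ 6 + (6 * A p ^ 5 * g p) * D s' p.1 +
          (35 * A p ^ 4 * g p ^ 2 + 104 * A p ^ 2 * g p ^ 4 + 40 * g p ^ 6) * D s' p.1 ^ 2) := by
      apply (h.stepE p.1).mono
      intro s'
      rw [hΦ]
      exact six_pt (hD _ _)
    have e2 : step K p.1 (fun s' => A p ^ 6 + (6 * A p ^ 5 * g p) * D s' p.1 +
          (35 * A p ^ 4 * g p ^ 2 + 104 * A p ^ 2 * g p ^ 4 + 40 * g p ^ 6) * D s' p.1 ^ 2) =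
        A p ^ 6 + w * (35 * A p ^ 4 * g p ^ 2 + 104 * A p ^ 2 * g p ^ 4 + 40 * g p ^ 6) := by
      rw [IsExp.add', IsExp.add', IsExp.mul', IsExp.mul', (h.stepE p.1).const, h0, h2]
      ring
    rw [e2] at e1
    exact e1
  refine ((h.ex n).mono hstep).trans ?_
  have ht : 1 ≤ R / G := by rw [one_le_div hG]; exact hGR
  have key : ∀ p : S × List S, A p ^ 6 + w * (35 * A p ^ 4 * g p ^ 2 + 104 * A p ^ 2 * g p ^ 4 +
      40 * g p ^ 6) ≤ (1 + w * 179 * (G / R)) * A p ^ 6 + (w * 179 * (R / G) ^ 2) * g p ^ 6 := by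
    intro p
    have a1 := even_young (sq_nonneg (A p)) (sq_nonneg (g p)) ht
    have a2 := even_young' (sq_nonneg (A p)) (sq_nonneg (g p)) ht
    have a3 : g p ^ 6 ≤ (R / G) ^ 2 * g p ^ 6 := by
      have : 1 ≤ (R / G) ^ 2 := one_le_pow₀ ht
      nlinarith [show 0 ≤ g p ^ 6 by positivity]
    have a4 : 0 ≤ (A p ^ 2) ^ 3 / (R / G) := by positivity
    have b1 : (A p ^ 2) ^ 2 * g p ^ 2 = A p ^ 4 * g p ^ 2 := by ring
    have b2 : A p ^ 2 * (g p ^ 2) ^ 2 = A p ^ 2 * g p ^ 4 := by ring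
    have b3 : (A p ^ 2) ^ 3 / (R / G) = (G / R) * A p ^ 6 := by
      field_simp
    have b4 : (R / G) ^ 2 * (g p ^ 2) ^ 3 = (R / G) ^ 2 * g p ^ 6 := by ring
    rw [b1, b3, b4] at a1
    rw [b2, b3, b4] at a2
    rw [b3] at a4
    have : 35 * A p ^ 4 * g p ^ 2 + 104 * A p ^ 2 * g p ^ 4 + 40 * g p ^ 6 ≤
        179 * ((G / R) * A p ^ 6 + (R / G) ^ 2 * g p ^ 6) := by nlinarith
    nlinarith [mul_le_mul_of_nonneg_left this hw]
  refine ((h.ex n).mono key).trans ?_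
  rw [IsExp.add', IsExp.mul', IsExp.mul']
  have c1 : 0 ≤ 1 + w * 179 * (G / R) := by positivity
  have c2 : 0 ≤ w * 179 * (R / G) ^ 2 := by positivity
  have d1 := mul_le_mul_of_nonneg_left hA c1
  have d2 := mul_le_mul_of_nonneg_left hg c2
  have d3 : (1 + w * 179 * (G / R)) * R ^ 3 = R ^ 3 + w * 179 * (R ^ 2 * G) := by
    field_simp
  have d4 : (w * 179 * (R / G) ^ 2) * G ^ 3 = w * 179 * (R ^ 2 * G) := by
    field_simp
  rw [d3] at d1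
  rw [d4] at d2
  have d5 : (R + 120 * w * G) ^ 3 = R ^ 3 + 360 * w * (R ^ 2 * G) + 3 * R * (120 * w * G) ^ 2 +
      (120 * w * G) ^ 3 := by ring
  rw [d5]
  have d6 : 0 ≤ 3 * R * (120 * w * G) ^ 2 := by positivity
  have d7 : 0 ≤ (120 * w * G) ^ 3 := by positivity
  have d8 : 0 ≤ w * (R ^ 2 * G) := by positivity
  linarith

end TwoWalks
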