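import Pool.Agent.TwoWalks.CondA3
import Pool.Agent.TwoWalks.Limit

/-! Connection between an actual realization of the walks and path expectations. -/

open MeasureTheory ProbabilityTheory Filter Topology

namespace TwoWalks

section Paths

variable {S : Type*} [Fintype S]

/-- History of a finite path. -/
def HH : (t : ℕ) → (Fin (t + 1) → S) → S × List S
  | 0, a => (a 0, [])
  | t + 1, a => (a (Fin.last (t + 1)), (HH t (fun i => a i.castSucc)).1 ::
      (HH t (fun i => a i.castSucc)).2)

/-- Probability of a finite path. -/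
def wgt (μ : S → ℝ) (K : S → S → ℝ) : (t : ℕ) → (Fin (t + 1) → S) → ℝ
  | 0, a => μ (a 0)
  | t + 1, a => wgt μ K t (fun i => a i.castSucc) *
      K (a (Fin.last t).castSucc) (a (Fin.last (t + 1)))

omit [Fintype S] in
lemma HH_fst (t : ℕ) (a : Fin (t + 1) → S) : (HH t a).1 = a (Fin.last t) := by
  cases t <;> rfl

lemma Ex_eq_sum (μ : S → ℝ) (K : S → S → ℝ) (t : ℕ) (Φ : S × List S → ℝ) :
    Ex μ K t Φ = ∑ a : Fin (t + 1) → S, wgt μ K t a * Φ (HH t a) := by
  induction t generalizing Φ with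
  | zero =>
    rw [Ex_zero]
    rw [← (Equiv.funUnique (Fin 1) S).symm.sum_comp]
    rfl
  | succ t ih =>
    rw [Ex_succ, ih, ← (Fin.snocEquiv (fun _ : Fin (t + 2) => S)).sum_comp,
      Fintype.sum_prod_type, Finset.sum_comm]
    apply Finset.sum_congr rfl
    intro a _
    rw [step_apply, Finset.mul_sum]
    apply Finset.sum_congr rfl
    intro s' _
    have e1 : (Fin.snocEquiv (fun _ : Fin (t + 2) => S)) (s', a) =
      (Fin.snoc a s' : Fin (t + 2) → S) := rfl
    rw [e1]
    have e2 : (fun i : Fin (t + 1) => (Fin.snoc a s' : Fin (t + 2) → S) i.castSucc) = a := by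
      funext i; simp
    have e3 : (Fin.snoc a s' : Fin (t + 2) → S) (Fin.last (t + 1)) = s' := by simp
    have e4 : (Fin.snoc a s' : Fin (t + 2) → S) (Fin.last t).castSucc = a (Fin.last t) := by
      simp
    have e5 : wgt μ K (t + 1) (Fin.snoc a s' : Fin (t + 2) → S) =
        wgt μ K t a * K (a (Fin.last t)) s' := by
      simp only [wgt]
      rw [e2, e3, e4]
    have e6 : HH (t + 1) (Fin.snoc a s' : Fin (t + 2) → S) =
        (s', (HH t a).1 :: (HH t a).2) := by
      simp only [HH]
      rw [e2, e3]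
    rw [e5, e6, HH_fst]
    ring

end Paths

section Realization

variable {M r : ℕ} {Ω : Type} [MeasurableSpace Ω] {P : Measure Ω}
  {X : Bool → ℕ → Ω → VV M r} {ξ : ℕ → Ω → Bool}

/-- The joint process. -/
def WW (X : Bool → ℕ → Ω → VV M r) (ξ : ℕ → Ω → Bool) (t : ℕ) (ω : Ω) : SS M r :=
  (X false t ω, X true t ω, ξ t ω)

/-- The path up to time `T`. -/
def PP (X : Bool → ℕ → Ω → VV M r) (ξ : ℕ → Ω → Bool) (T : ℕ) (ω : Ω) : Fin (T + 1) → SS M r :=
  fun i => WW X ξ i ω

/-- Extension of a finite path. -/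
def extP {T : ℕ} (a : Fin (T + 1) → SS M r) (s : ℕ) : SS M r := a ⟨min s T, by omega⟩

lemma extP_eq {T : ℕ} (a : Fin (T + 1) → SS M r) (i : Fin (T + 1)) : extP a i = a i := by
  unfold extP
  congr 1
  apply Fin.ext
  simp
  omega

lemma cyl_set (T : ℕ) (a : Fin (T + 1) → SS M r) :
    {ω | ∀ s ≤ T, X false s ω = (extP a s).1 ∧ X true s ω = (extP a s).2.1 ∧
      ξ s ω = (extP a s).2.2} = {ω | PP X ξ T ω = a} := by
  ext ω
  simp only [Set.mem_ofPred_eq]
  constructor
  · intro h
    funext i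
    obtain ⟨h1, h2, h3⟩ := h i (by omega)
    rw [extP_eq] at h1 h2 h3
    change (X false i ω, X true i ω, ξ i ω) = a i
    rw [h1, h2, h3]
  · intro h s hs
    have := congrFun h ⟨s, by omega⟩
    have e : extP a s = a ⟨s, by omega⟩ := extP_eq a ⟨s, by omega⟩
    rw [e, ← this]
    exact ⟨rfl, rfl, rfl⟩

lemma wgt_eq (T : ℕ) (a : Fin (T + 1) → SS M r) :
    wgt mu0 KK T a =
      (1 / (Fintype.card (VV M r) : ℝ) * ∏ s ∈ Finset.range T,
        lazyKernel (GG M r) (extP a s).1 (extP a (s + 1)).1) *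
      (1 / (Fintype.card (VV M r) : ℝ) * ∏ s ∈ Finset.range T,
        lazyKernel (GG M r) (extP a s).2.1 (extP a (s + 1)).2.1) * (1 / 2) ^ (T + 1) := by
  induction T with
  | zero => simp [wgt, mu0]
  | succ T ih =>
    have e1 : ∀ s, s ≤ T → extP (fun i : Fin (T + 1) => a i.castSucc) s = extP a s := by
      intro s hs
      unfold extP
      change a (Fin.castSucc ⟨min s T, by omega⟩) = a ⟨min s (T + 1), by omega⟩
      congr 1
      apply Fin.ext
      simp
      omega
    simp only [wgt]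
    rw [ih, Finset.prod_range_succ, Finset.prod_range_succ]
    have e2 : ∏ s ∈ Finset.range T, lazyKernel (GG M r)
        (extP (fun i : Fin (T + 1) => a i.castSucc) s).1
        (extP (fun i : Fin (T + 1) => a i.castSucc) (s + 1)).1 =
        ∏ s ∈ Finset.range T, lazyKernel (GG M r) (extP a s).1 (extP a (s + 1)).1 := by
      apply Finset.prod_congr rfl
      intro s hs
      have := Finset.mem_range.1 hs
      rw [e1 s (by omega), e1 (s + 1) (by omega)]
    have e3 : ∏ s ∈ Finset.range T, lazyKernel (GG M r)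
        (extP (fun i : Fin (T + 1) => a i.castSucc) s).2.1
        (extP (fun i : Fin (T + 1) => a i.castSucc) (s + 1)).2.1 =
        ∏ s ∈ Finset.range T, lazyKernel (GG M r) (extP a s).2.1 (extP a (s + 1)).2.1 := by
      apply Finset.prod_congr rfl
      intro s hs
      have := Finset.mem_range.1 hs
      rw [e1 s (by omega), e1 (s + 1) (by omega)]
    rw [e2, e3]
    have e4 : a (Fin.last T).castSucc = extP a T := (extP_eq a (Fin.last T).castSucc).symm
    have e5 : a (Fin.last (T + 1)) = extP a (T + 1) := (extP_eq a (Fin.last (T + 1))).symm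
    rw [e4, e5]
    unfold KK
    rw [lazyKernel_GG, lazyKernel_GG]
    ring

variable (hM : 0 < M) (hr : 0 < r) (hW : IsTwoWalks (GG M r) P X ξ)
include hM hr hW

lemma cyl_prob (T : ℕ) (a : Fin (T + 1) → SS M r) :
    P {ω | PP X ξ T ω = a} = ENNReal.ofReal (wgt mu0 KK T a) := by
  rw [← cyl_set, wgt_eq]
  exact hW.law T (fun s => (extP a s).1) (fun s => (extP a s).2.1) (fun s => (extP a s).2.2)

omit hM hr in
lemma cyl_meas (T : ℕ) (a : Fin (T + 1) → SS M r) : MeasurableSet {ω | PP X ξ T ω = a} := by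
  have : {ω | PP X ξ T ω = a} = ⋂ i : Fin (T + 1), ({ω | X false i ω = (a i).1} ∩
      {ω | X true i ω = (a i).2.1} ∩ {ω | ξ i ω = (a i).2.2}) := by
    ext ω
    simp only [Set.mem_ofPred_eq, Set.mem_iInter, Set.mem_inter_iff]
    constructor
    · intro h i
      have := congrFun h i
      rw [← this]
      exact ⟨⟨rfl, rfl⟩, rfl⟩
    · intro h
      funext i
      obtain ⟨⟨h1, h2⟩, h3⟩ := h i
      change (X false i ω, X true i ω, ξ i ω) = a i
      rw [h1, h2, h3]
  rw [this]
  apply MeasurableSet.iInter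
  intro i
  exact ((hW.measurable_walk false i _).inter (hW.measurable_walk true i _)).inter
    (hW.measurable_coin i _)

lemma wgt_nonneg (T : ℕ) (a : Fin (T + 1) → SS M r) : 0 ≤ wgt mu0 KK T a := by
  induction T with
  | zero => exact (isChain_KK hM hr).μ_nonneg _
  | succ T ih => exact mul_nonneg (ih _) ((isChain_KK hM hr).K_nonneg _ _)

omit hM hr hW in
lemma func_eq_sum (Φ : SS M r × List (SS M r) → ℝ) (T : ℕ) (ω : Ω) :
    Φ (HH T (PP X ξ T ω)) = ∑ a : Fin (T + 1) → SS M r,
      ({ω | PP X ξ T ω = a} : Set Ω).indicator (fun _ => Φ (HH T a)) ω := by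
  rw [Finset.sum_eq_single (PP X ξ T ω)]
  · rw [Set.indicator_of_mem]; rfl
  · intro b _ hb
    rw [Set.indicator_of_notMem]
    intro h; exact hb h.symm
  · simp

omit hM hr in
lemma func_meas (Φ : SS M r × List (SS M r) → ℝ) (T : ℕ) :
    Measurable (fun ω => Φ (HH T (PP X ξ T ω))) := by
  simp_rw [func_eq_sum Φ T]
  apply Finset.measurable_sum
  intro a _
  exact measurable_const.indicator (cyl_meas hW T a)

omit hM hr hW in
lemma func_bdd (Φ : SS M r × List (SS M r) → ℝ) (T : ℕ) :
    ∃ B, ∀ ω, |Φ (HH T (PP X ξ T ω))| ≤ B := by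
  refine ⟨∑ a : Fin (T + 1) → SS M r, |Φ (HH T a)|, ?_⟩
  intro ω
  exact Finset.single_le_sum (f := fun a : Fin (T + 1) → SS M r => |Φ (HH T a)|)
    (fun a _ => abs_nonneg _) (Finset.mem_univ (PP X ξ T ω))

lemma func_integral [IsProbabilityMeasure P] (Φ : SS M r × List (SS M r) → ℝ) (T : ℕ) :
    ∫ ω, Φ (HH T (PP X ξ T ω)) ∂P = EE M r T Φ := by
  simp_rw [func_eq_sum Φ T]
  rw [integral_finsetSum]
  · rw [EE, Ex_eq_sum]
    apply Finset.sum_congr rfl
    intro a _
    rw [integral_indicator_const _ (cyl_meas hW T a)]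
    rw [Measure.real, cyl_prob hM hr hW, ENNReal.toReal_ofReal (wgt_nonneg hM hr hW T a)]
    rfl
  · intro a _
    exact (integrable_const _).indicator (cyl_meas hW T a)

end Realization

end TwoWalks
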