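import Pool.Agent.TwoWalks.Moments

/-! The functionals of the signs and their moments. -/

namespace TwoWalks

variable {M r : ℕ}

/-- The sum of `y` over the past. -/
noncomputable def Yf : SS M r → List (SS M r) → ℝ
  | _, [] => 0
  | _, s :: h => Yf s h + yy s

/-- The martingale attached to `y`. -/
noncomputable def Mf : SS M r → List (SS M r) → ℝ
  | _, [] => 0
  | s', s :: h => Mf s h + dp s' s

/-- The initial value of `y`. -/
noncomputable def y0f : SS M r → List (SS M r) → ℝ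
  | s, [] => yy s
  | _, s :: h => y0f s h

/-- The main term: the stochastic integral. -/
noncomputable def Nf : ℕ → SS M r → List (SS M r) → ℝ
  | 0, _, _ => 0
  | _ + 1, _, [] => 0
  | t + 1, s', s :: h => Nf t s h + (1 - cc M r) ^ t * Mf s h * dm s' s

/-- The sum of `β^s z(s) Y(s)` over the past. -/
noncomputable def Sf : ℕ → SS M r → List (SS M r) → ℝ
  | 0, _, _ => 0
  | _ + 1, _, [] => 0
  | t + 1, _, s :: h => Sf t s h + (1 - cc M r) ^ t * zz s * Yf s h

lemma two_q_Y (s : SS M r) (l : List (SS M r)) :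
    2 * qq M r * Yf s l = y0f s l - yy s + Mf s l := by
  induction l generalizing s with
  | nil => simp [Yf, y0f, Mf]
  | cons a l ih =>
    have := ih a
    simp only [Yf, y0f, Mf, dp]
    linarith

lemma abs_y0f (s : SS M r) (l : List (SS M r)) : |y0f s l| ≤ 1 := by
  induction l generalizing s with
  | nil => exact abs_yy s
  | cons a l ih => exact ih a

/-- Expectation for the pair chain. -/
noncomputable abbrev EE (M r : ℕ) (n : ℕ) : ((SS M r × List (SS M r)) → ℝ) →ₗ[ℝ] ℝ :=
  Ex (mu0 (M := M) (r := r)) KK n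

section

variable (hM : 0 < M) (hr : 0 < r)
include hM hr

lemma EE_isExp (n : ℕ) : IsExp (EE M r n) := (isChain_KK hM hr).ex n

lemma E_M_sq (n : ℕ) : EE M r n (fun p => Mf p.1 p.2 ^ 2) = ww M r * n := by
  induction n with
  | zero => simp [Ex_zero, Mf]
  | succ n ih =>
    rw [Ex_succ]
    have h1 : (fun p : SS M r × List (SS M r) =>
        step KK p.1 (fun s' => Mf s' (p.1 :: p.2) ^ 2)) =
        fun p => Mf p.1 p.2 ^ 2 + ww M r := by
      ext p
      have : (fun s' => Mf s' (p.1 :: p.2) ^ 2) = fun s' => Mf p.1 p.2 ^ 2 +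
          (2 * Mf p.1 p.2) * dp s' p.1 + dp s' p.1 ^ 2 := by
        ext s'; simp only [Mf]; ring
      rw [this, IsExp.add', IsExp.add', IsExp.mul', step_dp hM hr, step_dp_sq hM hr,
        ((isChain_KK hM hr).stepE p.1).const]
      ring
    rw [h1, IsExp.add', ih, (EE_isExp hM hr n).const]
    push_cast; ring

lemma E_M_six (n : ℕ) : EE M r n (fun p => Mf p.1 p.2 ^ 6) ≤ (1 + 120 * ww M r * n) ^ 3 := by
  have hw := ww_pos hM hr
  induction n with
  | zero => simp [Ex_zero, Mf]
  | succ n ih =>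
    have h := (isChain_KK hM hr).six_rec n (fun p => Mf p.1 p.2) (fun p => Mf p.1 p.2)
      (fun _ => 1) dp (R := 1 + 120 * ww M r * n) (G := 1) hw.le one_pos
      (by have : 0 ≤ 120 * ww M r * n := by positivity
          linarith)
      (fun s' p => by simp [Mf]) (abs_dp hM hr) (step_dp hM hr) (step_dp_sq hM hr) ih
      (by rw [one_pow, one_pow]; exact (EE_isExp hM hr n).one.le)
    refine h.trans (le_of_eq ?_)
    push_cast; ring

lemma E_N_zero (n : ℕ) : EE M r n (fun p => Nf n p.1 p.2) = 0 := by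
  induction n with
  | zero => simp [Ex_zero, Nf]
  | succ n ih =>
    rw [Ex_succ]
    have h1 : (fun p : SS M r × List (SS M r) =>
        step KK p.1 (fun s' => Nf (n + 1) s' (p.1 :: p.2))) =
        fun p => Nf n p.1 p.2 := by
      ext p
      have : (fun s' => Nf (n + 1) s' (p.1 :: p.2)) = fun s' => Nf n p.1 p.2 +
          ((1 - cc M r) ^ n * Mf p.1 p.2) * dm s' p.1 := by
        ext s'; simp only [Nf]
      rw [this, IsExp.add', IsExp.mul', step_dm hM hr,
        ((isChain_KK hM hr).stepE p.1).const]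
      ring
    rw [h1, ih]

/-- `E N²`. -/
noncomputable def eN (M r : ℕ) (n : ℕ) : ℝ :=
  ∑ t ∈ Finset.range n, ww M r ^ 2 * (((1 - cc M r) ^ t) ^ 2 * t)

lemma E_N_sq (n : ℕ) : EE M r n (fun p => Nf n p.1 p.2 ^ 2) = eN M r n := by
  induction n with
  | zero => simp [Ex_zero, Nf, eN]
  | succ n ih =>
    rw [Ex_succ]
    have h1 : (fun p : SS M r × List (SS M r) =>
        step KK p.1 (fun s' => Nf (n + 1) s' (p.1 :: p.2) ^ 2)) =
        fun p => Nf n p.1 p.2 ^ 2 + (ww M r * ((1 - cc M r) ^ n) ^ 2) * Mf p.1 p.2 ^ 2 := by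
      ext p
      have : (fun s' => Nf (n + 1) s' (p.1 :: p.2) ^ 2) = fun s' => Nf n p.1 p.2 ^ 2 +
          (2 * Nf n p.1 p.2 * ((1 - cc M r) ^ n * Mf p.1 p.2)) * dm s' p.1 +
          (((1 - cc M r) ^ n) ^ 2 * Mf p.1 p.2 ^ 2) * dm s' p.1 ^ 2 := by
        ext s'; simp only [Nf]; ring
      rw [this, IsExp.add', IsExp.add', IsExp.mul', IsExp.mul', step_dm hM hr, step_dm_sq hM hr,
        ((isChain_KK hM hr).stepE p.1).const]
      ring
    rw [h1, IsExp.add', ih, IsExp.mul', E_M_sq hM hr]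
    unfold eN
    rw [Finset.sum_range_succ]
    ring

lemma cc_le_one : cc M r ≤ 1 / 2 := by
  have h0 := cc_pos hM hr
  have h := cc_rel hM hr
  have h1 : (1 : ℝ) ≤ M := by exact_mod_cast hM
  have h2 : (1 : ℝ) ≤ r := by exact_mod_cast hr
  nlinarith [mul_nonneg (sub_nonneg.2 h1) (sub_nonneg.2 h2)]

lemma E_N_six (n : ℕ) (A : ℝ)
    (hA : ∀ t : ℕ, ((1 - cc M r) ^ t) ^ 2 * (1 + 120 * ww M r * t) ≤ A) :
    EE M r n (fun p => Nf n p.1 p.2 ^ 6) ≤
      (A + 120 * ww M r * ∑ t ∈ Finset.range n,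
        ((1 - cc M r) ^ t) ^ 2 * (1 + 120 * ww M r * t)) ^ 3 := by
  have hw := ww_pos hM hr
  have hc := cc_le_one hM hr
  have hβ : 0 < 1 - cc M r := by linarith
  have hG0 : ∀ t : ℕ, 0 < ((1 - cc M r) ^ t) ^ 2 * (1 + 120 * ww M r * t) := by
    intro t; positivity
  have hA0 : 0 < A := (hG0 0).trans_le (hA 0)
  induction n with
  | zero =>
    simp [Ex_zero, Nf]
    positivity
  | succ n ih =>
    have hs : 0 ≤ 120 * ww M r * ∑ t ∈ Finset.range n,
        ((1 - cc M r) ^ t) ^ 2 * (1 + 120 * ww M r * t) := by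
      apply mul_nonneg (by positivity)
      exact Finset.sum_nonneg fun t _ => (hG0 t).le
    have h := (isChain_KK hM hr).six_rec n (fun p => Nf (n + 1) p.1 p.2) (fun p => Nf n p.1 p.2)
      (fun p => (1 - cc M r) ^ n * Mf p.1 p.2) dm
      (R := A + 120 * ww M r * ∑ t ∈ Finset.range n,
        ((1 - cc M r) ^ t) ^ 2 * (1 + 120 * ww M r * t))
      (G := ((1 - cc M r) ^ n) ^ 2 * (1 + 120 * ww M r * n)) hw.le (hG0 n)
      (by linarith [hA n])
      (fun s' p => by simp only [Nf]) (abs_dm hM hr) (step_dm hM hr) (step_dm_sq hM hr) ih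
      (by
        have e1 : (fun p : SS M r × List (SS M r) => ((1 - cc M r) ^ n * Mf p.1 p.2) ^ 6) =
            fun p => (((1 - cc M r) ^ n) ^ 2) ^ 3 * Mf p.1 p.2 ^ 6 := by
          ext p; ring
        rw [e1, IsExp.mul', mul_pow]
        exact mul_le_mul_of_nonneg_left (E_M_six hM hr n) (by positivity))
    refine h.trans (le_of_eq ?_)
    rw [Finset.sum_range_succ]
    ring

end

end TwoWalks
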