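import Pool.Agent.TwoWalks.Diff

/-! Bounds for the sums in the moments of the main term. -/

namespace TwoWalks

variable {M r : ℕ}

section

variable (hM : 0 < M) (hr : 0 < r)
include hM hr

lemma beta_pow_mul (t : ℕ) : (1 - cc M r) ^ t * (1 + cc M r * t) ≤ 1 := by
  have h1 := cc_pos hM hr
  have h2 := cc_le_one hM hr
  have h3 : 1 + cc M r * t ≤ (1 + cc M r) ^ t := by
    have := one_add_mul_le_pow (a := cc M r) (by linarith) t
    linarith
  calc (1 - cc M r) ^ t * (1 + cc M r * t) ≤ (1 - cc M r) ^ t * (1 + cc M r) ^ t :=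
        mul_le_mul_of_nonneg_left h3 (beta_pow_le hM hr t).1
    _ = (1 - cc M r ^ 2) ^ t := by rw [← mul_pow]; congr 1; ring
    _ ≤ 1 := by
        apply pow_le_one₀
        · nlinarith
        · nlinarith [sq_nonneg (cc M r)]

lemma beta_pow_t (t : ℕ) : (1 - cc M r) ^ t * t ≤ 1 / cc M r := by
  have h1 := cc_pos hM hr
  have h2 := beta_pow_mul hM hr t
  have h3 := (beta_pow_le hM hr t).1
  rw [le_div_iff₀ h1]
  nlinarith

lemma sum_beta (T : ℕ) : ∑ t ∈ Finset.range T, (1 - cc M r) ^ t ≤ 1 / cc M r := by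
  have h1 := cc_pos hM hr
  have h2 := cc_le_one hM hr
  rw [le_div_iff₀ h1]
  have h3 : (∑ t ∈ Finset.range T, (1 - cc M r) ^ t) * cc M r = 1 - (1 - cc M r) ^ T := by
    have := geom_sum_mul (1 - cc M r) T
    have e : (1 - cc M r) - 1 = - cc M r := by ring
    rw [e] at this
    linarith
  rw [h3]
  linarith [(beta_pow_le hM hr T).1]

lemma sum_beta_sq (T : ℕ) : ∑ t ∈ Finset.range T, ((1 - cc M r) ^ t) ^ 2 ≤ 1 / cc M r := by
  refine le_trans (Finset.sum_le_sum fun t _ => ?_) (sum_beta hM hr T)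
  have := beta_pow_le hM hr t
  nlinarith

lemma sum_beta_sq_t (T : ℕ) :
    ∑ t ∈ Finset.range T, ((1 - cc M r) ^ t) ^ 2 * t ≤ 1 / cc M r ^ 2 := by
  have h1 := cc_pos hM hr
  have h2 : ∀ t ∈ Finset.range T, ((1 - cc M r) ^ t) ^ 2 * t ≤ (1 / cc M r) * (1 - cc M r) ^ t := by
    intro t _
    have h3 := beta_pow_t hM hr t
    have h4 := (beta_pow_le hM hr t).1
    calc ((1 - cc M r) ^ t) ^ 2 * t = ((1 - cc M r) ^ t * t) * (1 - cc M r) ^ t := by ring
      _ ≤ _ := mul_le_mul_of_nonneg_right h3 h4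
  refine (Finset.sum_le_sum h2).trans ?_
  rw [← Finset.mul_sum]
  have := sum_beta hM hr T
  calc (1 / cc M r) * ∑ t ∈ Finset.range T, (1 - cc M r) ^ t ≤ (1 / cc M r) * (1 / cc M r) :=
        mul_le_mul_of_nonneg_left this (by positivity)
    _ = _ := by ring

lemma eN_le (T : ℕ) : eN M r T ≤ 4 * (r : ℝ) ^ 2 := by
  have h1 := cc_pos hM hr
  have hq := qq_pos hM hr
  have hw := ww_pos hM hr
  have hwq := ww_le hM hr
  unfold eN
  rw [← Finset.mul_sum]
  have h2 := sum_beta_sq_t hM hr T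
  have h3 : ww M r ^ 2 ≤ (2 * qq M r) ^ 2 := pow_le_pow_left₀ hw.le hwq 2
  calc ww M r ^ 2 * ∑ t ∈ Finset.range T, ((1 - cc M r) ^ t) ^ 2 * (t : ℝ) ≤
      (2 * qq M r) ^ 2 * (1 / cc M r ^ 2) :=
        mul_le_mul h3 h2 (Finset.sum_nonneg fun t _ => by positivity) (by positivity)
    _ = 4 * (r : ℝ) ^ 2 := by unfold qq; field_simp; ring

/-- `L = 1/c`. -/
def LL (M r : ℕ) : ℕ := 2 * (M * r + r - 1)

lemma LL_cast : (LL M r : ℝ) * cc M r = 1 := by
  have h := cc_rel hM hr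
  have h3 : 1 ≤ M * r + r := by nlinarith
  have h4 : ((M * r + r - 1 : ℕ) : ℝ) = (M : ℝ) * r + r - 1 := by
    rw [Nat.cast_sub h3]; push_cast; ring
  unfold LL
  push_cast [h4]
  linarith

lemma beta_LL {t : ℕ} (ht : t ≤ LL M r) : 1 / 4 ≤ (1 - cc M r) ^ t := by
  have h1 := cc_pos hM hr
  have h2 := cc_le_one hM hr
  have h3 : (1 - cc M r) ^ (LL M r) ≤ (1 - cc M r) ^ t :=
    pow_le_pow_of_le_one (by linarith) (by linarith) ht
  refine le_trans ?_ h3
  have h4 : 1 / 2 ≤ (1 - cc M r) ^ (M * r + r - 1) := by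
    have h5 := one_add_mul_le_pow (a := - cc M r) (by linarith) (M * r + r - 1)
    have h6 := LL_cast hM hr
    unfold LL at h6
    push_cast at h6
    have h7 : ((M * r + r - 1 : ℕ) : ℝ) * cc M r = 1 / 2 := by linarith
    have e : 1 + - cc M r = 1 - cc M r := by ring
    rw [e] at h5
    nlinarith
  unfold LL
  rw [mul_comm, pow_mul]
  nlinarith

omit hM hr in
lemma sum_id (L : ℕ) : ∑ t ∈ Finset.range L, (t : ℝ) = (L : ℝ) * (L - 1) / 2 := by
  induction L with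
  | zero => simp
  | succ L ih => rw [Finset.sum_range_succ, ih]; push_cast; ring

omit hM hr in
lemma sum_sq (L : ℕ) : ∑ t ∈ Finset.range L, (t : ℝ) ^ 2 =
    ((L : ℝ) - 1) * L * (2 * L - 1) / 6 := by
  induction L with
  | zero => simp
  | succ L ih => rw [Finset.sum_range_succ, ih]; push_cast; ring

omit hM hr in
lemma sum_sum_sq (L : ℕ) : ∑ t ∈ Finset.range L, ∑ s ∈ Finset.range t, (s : ℝ) ^ 2 =
    (L : ℝ) * (L - 1) ^ 2 * (L - 2) / 12 := by
  induction L with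
  | zero => simp
  | succ L ih => rw [Finset.sum_range_succ, ih, sum_sq]; push_cast; ring

lemma le_eN {T : ℕ} (hT : LL M r ≤ T) : (r : ℝ) ^ 2 / 64 ≤ eN M r T := by
  have h1 := cc_pos hM hr
  have h2 := cc_le_one hM hr
  have hq := qq_pos hM hr
  have hw := ww_pos hM hr
  have hwq := le_ww hM hr
  have hL := LL_cast hM hr
  have hLL : (2 : ℝ) ≤ LL M r := by
    by_contra hc
    push Not at hc
    nlinarith
  refine le_trans ?_ (eN_mono hT)
  unfold eN
  have h3 : ∀ t ∈ Finset.range (LL M r), (qq M r ^ 2 / 16) * (t : ℝ) ≤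
      ww M r ^ 2 * (((1 - cc M r) ^ t) ^ 2 * t) := by
    intro t ht
    have h4 := beta_LL hM hr (Finset.mem_range.1 ht).le
    have h5 : (1 / 4 : ℝ) ^ 2 ≤ ((1 - cc M r) ^ t) ^ 2 := pow_le_pow_left₀ (by norm_num) h4 2
    have h6 : qq M r ^ 2 ≤ ww M r ^ 2 := pow_le_pow_left₀ hq.le hwq 2
    calc (qq M r ^ 2 / 16) * (t : ℝ) = qq M r ^ 2 * ((1 / 4) ^ 2 * t) := by ring
      _ ≤ ww M r ^ 2 * (((1 - cc M r) ^ t) ^ 2 * t) := by
        apply mul_le_mul h6 _ (by positivity) (by positivity)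
        exact mul_le_mul_of_nonneg_right h5 (Nat.cast_nonneg t)
  refine le_trans ?_ (Finset.sum_le_sum h3)
  rw [← Finset.mul_sum, sum_id]
  have h7 : (LL M r : ℝ) ^ 2 / 4 ≤ (LL M r : ℝ) * (LL M r - 1) / 2 := by nlinarith
  have h8 : (r : ℝ) ^ 2 / 64 = (qq M r ^ 2 / 16) * ((LL M r : ℝ) ^ 2 / 4) := by
    have : (LL M r : ℝ) = 1 / cc M r := by field_simp; linarith
    rw [this]
    unfold qq
    field_simp
    norm_num
  rw [h8]
  exact mul_le_mul_of_nonneg_left h7 (by positivity)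

lemma gain_ge {T : ℕ} (hT : LL M r ≤ T) (h4 : 4 ≤ LL M r) :
    (r : ℝ) ^ 4 / 1024 ≤ 12 * ww M r ^ 4 * gain M r T := by
  have h1 := cc_pos hM hr
  have hq := qq_pos hM hr
  have hw := ww_pos hM hr
  have hwq := le_ww hM hr
  have hL := LL_cast hM hr
  have hLL : (4 : ℝ) ≤ LL M r := by exact_mod_cast h4
  have g1 : (1 / 256) * ((LL M r : ℝ) * (LL M r - 1) ^ 2 * (LL M r - 2) / 12) ≤
      gain M r T := by
    rw [← sum_sum_sq, Finset.mul_sum]
    unfold gain
    refine le_trans (Finset.sum_le_sum fun t ht => ?_)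
      (Finset.sum_le_sum_of_subset_of_nonneg (Finset.range_subset_range.2 hT) ?_)
    · have h5 := beta_LL hM hr (Finset.mem_range.1 ht).le
      have h6 : (1 / 4 : ℝ) ^ 2 ≤ ((1 - cc M r) ^ t) ^ 2 := pow_le_pow_left₀ (by norm_num) h5 2
      have h7 : (1 / 4 : ℝ) ^ 2 * ∑ s ∈ Finset.range t, (s : ℝ) ^ 2 ≤
          ∑ s ∈ Finset.range t, ((1 - cc M r) ^ s) ^ 2 * (s : ℝ) ^ 2 := by
        rw [Finset.mul_sum]
        apply Finset.sum_le_sum
        intro s hs
        have h8 := beta_LL hM hr ((Finset.mem_range.1 hs).le.trans (Finset.mem_range.1 ht).le)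
        have h9 : (1 / 4 : ℝ) ^ 2 ≤ ((1 - cc M r) ^ s) ^ 2 :=
          pow_le_pow_left₀ (by norm_num) h8 2
        exact mul_le_mul_of_nonneg_right h9 (by positivity)
      have h10 : 0 ≤ ∑ s ∈ Finset.range t, (s : ℝ) ^ 2 :=
        Finset.sum_nonneg fun s _ => by positivity
      calc (1 / 256) * ∑ s ∈ Finset.range t, (s : ℝ) ^ 2 =
          (1 / 4 : ℝ) ^ 2 * ((1 / 4 : ℝ) ^ 2 * ∑ s ∈ Finset.range t, (s : ℝ) ^ 2) := by ring
        _ ≤ _ := mul_le_mul h6 h7 (by positivity) (by positivity)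
    · intro t _ _
      apply mul_nonneg (by positivity)
      exact Finset.sum_nonneg fun s _ => by positivity
  have g2 : (LL M r : ℝ) ^ 4 / 48 ≤ (LL M r : ℝ) * (LL M r - 1) ^ 2 * (LL M r - 2) / 12 := by
    have a1 : (3 / 4 * (LL M r : ℝ)) ^ 2 ≤ (LL M r - 1 : ℝ) ^ 2 :=
      pow_le_pow_left₀ (by positivity) (by linarith) 2
    have a2 : (LL M r : ℝ) / 2 ≤ LL M r - 2 := by linarith
    have a3 : (LL M r : ℝ) * (3 / 4 * (LL M r : ℝ)) ^ 2 * ((LL M r : ℝ) / 2) ≤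
        (LL M r : ℝ) * (LL M r - 1) ^ 2 * (LL M r - 2) := by
      apply mul_le_mul _ a2 (by positivity) (by positivity)
      exact mul_le_mul_of_nonneg_left a1 (by positivity)
    have a4 : (LL M r : ℝ) * (3 / 4 * (LL M r : ℝ)) ^ 2 * ((LL M r : ℝ) / 2) =
        (9 / 32) * (LL M r : ℝ) ^ 4 := by ring
    rw [a4] at a3
    have : (0 : ℝ) ≤ (LL M r : ℝ) ^ 4 := by positivity
    linarith
  have h6 : qq M r ^ 4 ≤ ww M r ^ 4 := pow_le_pow_left₀ hq.le hwq 4
  have h8 : (r : ℝ) ^ 4 / 1024 = 12 * qq M r ^ 4 * ((1 / 256) * ((LL M r : ℝ) ^ 4 / 48)) := by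
    have : (LL M r : ℝ) = 1 / cc M r := by field_simp; linarith
    rw [this]
    unfold qq
    field_simp
    norm_num
  rw [h8]
  apply mul_le_mul (by linarith) _ (by positivity) (by positivity)
  linarith

omit hM in
lemma one_le_r : (1 : ℝ) ≤ r := by exact_mod_cast hr

lemma E_N_six_le {T : ℕ} (hT : LL M r ≤ T) :
    EE M r T (fun p => Nf T p.1 p.2 ^ 6) ≤ (3717184 * eN M r T) ^ 3 := by
  have h1 := cc_pos hM hr
  have h2 := cc_le_one hM hr
  have hq := qq_pos hM hr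
  have hw := ww_pos hM hr
  have hwq := ww_le hM hr
  have hr1 := one_le_r hr
  have hA : ∀ t : ℕ, ((1 - cc M r) ^ t) ^ 2 * (1 + 120 * ww M r * t) ≤
      1 + 120 * ww M r * (1 / cc M r) := by
    intro t
    have hβ := beta_pow_le hM hr t
    have a1 := beta_pow_t hM hr t
    have a2 : ((1 - cc M r) ^ t) ^ 2 ≤ 1 := pow_le_one₀ hβ.1 hβ.2
    have a3 : ((1 - cc M r) ^ t) ^ 2 * t ≤ 1 / cc M r := by
      have : ((1 - cc M r) ^ t) ^ 2 * t = (1 - cc M r) ^ t * ((1 - cc M r) ^ t * t) := by ring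
      rw [this]
      have : 0 ≤ (1 - cc M r) ^ t * t := by have := hβ.1; positivity
      nlinarith
    nlinarith
  refine (E_N_six hM hr T _ hA).trans ?_
  have b1 := sum_beta_sq hM hr T
  have b2 := sum_beta_sq_t hM hr T
  have b3 : ∑ t ∈ Finset.range T, ((1 - cc M r) ^ t) ^ 2 * (1 + 120 * ww M r * t) ≤
      1 / cc M r + 120 * ww M r * (1 / cc M r ^ 2) := by
    have : ∑ t ∈ Finset.range T, ((1 - cc M r) ^ t) ^ 2 * (1 + 120 * ww M r * t) =
        ∑ t ∈ Finset.range T, ((1 - cc M r) ^ t) ^ 2 +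
        120 * ww M r * ∑ t ∈ Finset.range T, ((1 - cc M r) ^ t) ^ 2 * t := by
      rw [Finset.mul_sum, ← Finset.sum_add_distrib]
      apply Finset.sum_congr rfl
      intro t _; ring
    rw [this]
    have := mul_le_mul_of_nonneg_left b2 (show 0 ≤ 120 * ww M r by positivity)
    linarith
  have c1 : ww M r * (1 / cc M r) ≤ 2 * r := by
    have : ww M r * (1 / cc M r) ≤ (2 * qq M r) * (1 / cc M r) :=
      mul_le_mul_of_nonneg_right hwq (by positivity)
    have e : (2 * qq M r) * (1 / cc M r) = 2 * r := by unfold qq; field_simp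
    linarith
  have c2 : ww M r * (1 / cc M r) ≥ 0 := by positivity
  have c3 : ww M r * ww M r * (1 / cc M r ^ 2) ≤ 4 * r ^ 2 := by
    have : ww M r * ww M r * (1 / cc M r ^ 2) = (ww M r * (1 / cc M r)) ^ 2 := by ring
    rw [this]
    nlinarith
  have hS : 0 ≤ ∑ t ∈ Finset.range T, ((1 - cc M r) ^ t) ^ 2 * (1 + 120 * ww M r * t) :=
    Finset.sum_nonneg fun t _ => by positivity
  have c4 : 1 + 120 * ww M r * (1 / cc M r) + 120 * ww M r *
      ∑ t ∈ Finset.range T, ((1 - cc M r) ^ t) ^ 2 * (1 + 120 * ww M r * t) ≤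
      58081 * (r : ℝ) ^ 2 := by
    have := mul_le_mul_of_nonneg_left b3 (show 0 ≤ 120 * ww M r by positivity)
    nlinarith
  have c5 := le_eN hM hr hT
  apply pow_le_pow_left₀ (by positivity)
  linarith

end

end TwoWalks
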