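import Pool.Agent.TwoWalks.Unv

/-! `L²` approximation of the difference of the counts by the main term. -/

namespace TwoWalks

/-- Numerical recursion, second form. -/
lemma sqrt_rec' {b : ℕ → ℝ} {b0 κ g : ℝ} {T : ℕ} (hb0 : 0 ≤ b0) (hκ : 0 ≤ κ) (hg : 0 ≤ g)
    (h0 : b 0 ≤ b0) (hpos : ∀ t, 0 ≤ b t)
    (hrec : ∀ t, t < T → b (t + 1) ≤ Real.sqrt ((b t) ^ 2 + g) + κ) :
    ∀ t, t ≤ T → b t ≤ b0 + κ * t + Real.sqrt (g * t) := by
  intro t
  induction t with
  | zero => intro _; simpa using h0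
  | succ t ih =>
    intro ht
    have h1 := ih (by omega)
    refine (hrec t (by omega)).trans ?_
    have hs : 0 ≤ Real.sqrt (g * (t + 1 : ℕ)) := Real.sqrt_nonneg _
    have key : Real.sqrt ((b t) ^ 2 + g) ≤ b0 + κ * t + Real.sqrt (g * (t + 1 : ℕ)) := by
      rw [Real.sqrt_le_left (by positivity)]
      have hA : 0 ≤ b0 + κ * t := by positivity
      have h3 : (b t) ^ 2 ≤ ((b0 + κ * t) + Real.sqrt (g * t)) ^ 2 :=
        pow_le_pow_left₀ (hpos t) h1 2
      have h4 : Real.sqrt (g * t) ^ 2 = g * t := Real.sq_sqrt (by positivity)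
      have h5 : Real.sqrt (g * (t + 1 : ℕ)) ^ 2 = g * (t + 1 : ℕ) := Real.sq_sqrt (by positivity)
      have h6 : Real.sqrt (g * t) ≤ Real.sqrt (g * (t + 1 : ℕ)) := by
        apply Real.sqrt_le_sqrt
        push_cast
        nlinarith
      push_cast at h5 h6 ⊢
      nlinarith [mul_le_mul_of_nonneg_left h6 hA]
    push_cast at key ⊢
    linarith

section General

variable {S : Type*} [Fintype S] {μ : S → ℝ} {K : S → S → ℝ}

/-- Extension of a function of the last step and the history before it. -/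
def extf (f : S → S × List S → ℝ) : S × List S → ℝ
  | (_, []) => 0
  | (s', s :: h) => f s' (s, h)

lemma Ex_congr_succ (n : ℕ) (Φ Ψ : S × List S → ℝ)
    (h : ∀ (s' : S) (p : S × List S), Φ (s', p.1 :: p.2) = Ψ (s', p.1 :: p.2)) :
    Ex μ K (n + 1) Φ = Ex μ K (n + 1) Ψ := by
  rw [Ex_succ, Ex_succ]
  congr 1
  ext p
  congr 1
  ext s'
  exact h s' p

lemma nrm_congr_succ (n : ℕ) (Φ Ψ : S × List S → ℝ)
    (h : ∀ (s' : S) (p : S × List S), Φ (s', p.1 :: p.2) = Ψ (s', p.1 :: p.2)) :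
    nrm (Ex μ K (n + 1)) Φ = nrm (Ex μ K (n + 1)) Ψ := by
  unfold nrm
  rw [Ex_congr_succ n _ (fun q => Ψ q ^ 2)]
  intro s' p
  simp only [h]

lemma IsChain.nrm_past (h : IsChain μ K) (n : ℕ) (F : S × List S → ℝ) (Φ : S × List S → ℝ)
    (hΦ : ∀ s' p, Φ (s', p.1 :: p.2) = F p) : nrm (Ex μ K (n + 1)) Φ = nrm (Ex μ K n) F := by
  unfold nrm
  rw [h.ex_past n (fun p => F p ^ 2)]
  intro s' p
  rw [hΦ]

lemma IsChain.nrm_past_le (h : IsChain μ K) (n : ℕ) (F : S × List S → ℝ) (Φ : S × List S → ℝ)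
    (hΦ : ∀ s' p, |Φ (s', p.1 :: p.2)| ≤ |F p|) :
    nrm (Ex μ K (n + 1)) Φ ≤ nrm (Ex μ K n) F := by
  have h1 : nrm (Ex μ K (n + 1)) (extf fun _ p => F p) = nrm (Ex μ K n) F :=
    h.nrm_past n F _ (fun _ _ => rfl)
  rw [← h1, nrm_congr_succ n Φ (extf fun s' p => Φ (s', p.1 :: p.2)) (fun _ _ => rfl)]
  apply (h.ex (n + 1)).nrm_mono
  rintro ⟨s', l⟩
  cases l with
  | nil => simp [extf]
  | cons s l => exact hΦ s' (s, l)

lemma IsChain.nrm_next' (h : IsChain μ K) (n : ℕ) (Φ A B : S × List S → ℝ)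
    (ξ η : S → S × List S → ℝ) {a g κ : ℝ} (ha : nrm (Ex μ K n) A ≤ a)
    (hΦ : ∀ s' p, Φ (s', p.1 :: p.2) = A p + ξ s' p + η s' p)
    (h0 : ∀ p, step K p.1 (fun s' => ξ s' p) = 0)
    (h2 : ∀ p, step K p.1 (fun s' => ξ s' p ^ 2) ≤ g)
    (hη : ∀ s' p, |η s' p| ≤ |B p|) (hB : nrm (Ex μ K n) B ≤ κ) :
    nrm (Ex μ K (n + 1)) Φ ≤ Real.sqrt (a ^ 2 + g) + κ := by
  have h3 : nrm (Ex μ K (n + 1)) Φ = nrm (Ex μ K (n + 1))
      (fun q => extf (fun s' p => A p + ξ s' p) q + extf η q) := by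
    apply nrm_congr_succ
    intro s' p
    exact hΦ s' p
  rw [h3]
  refine ((h.ex (n + 1)).nrm_add _ _).trans ?_
  apply add_le_add
  · exact h.nrm_orth n _ A ξ ha (fun _ _ => rfl) h0 h2
  · exact (h.nrm_past_le n B _ (fun s' p => hη s' p)).trans hB

end General

variable {M r : ℕ}

/-- `c' = c / (1 - c)`. -/
noncomputable def cp (M r : ℕ) : ℝ := cc M r / (1 - cc M r)

/-- Taylor polynomial of the exponential. -/
noncomputable def Pp (x : ℝ) : ℝ := 1 + x + x ^ 2 / 2 + x ^ 3 / 6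

/-- Approximation of the number of unvisited vertices of the half `a` at time `t`. -/
noncomputable def tau (a : Bool) (t : ℕ) (s : SS M r) (l : List (SS M r)) : ℝ :=
  (M * r : ℝ) * (1 - cc M r) ^ t * Pp (- sa a * cp M r * Yf s l)

section

variable (hM : 0 < M) (hr : 0 < r)
include hM hr

/-- Bound for `‖Y‖`. -/
noncomputable def y1 (M r T : ℕ) : ℝ := 3 * rho M r T / (2 * qq M r)

/-- Bound for `‖|Y|³‖`. -/
noncomputable def y3 (M r T : ℕ) : ℝ := 5 * rho M r T ^ 3 / qq M r ^ 3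

lemma cp_pos : 0 < cp M r := by
  have := cc_pos hM hr
  have := cc_le_one hM hr
  unfold cp
  apply div_pos <;> linarith

lemma cp_le : cp M r ≤ 2 * cc M r := by
  have h1 := cc_pos hM hr
  have h2 := cc_le_one hM hr
  unfold cp
  rw [div_le_iff₀ (by linarith)]
  nlinarith

lemma absY_le (s : SS M r) (l : List (SS M r)) :
    2 * qq M r * |Yf s l| ≤ 2 + |Mf s l| := by
  have hq := qq_pos hM hr
  have h := two_q_Y s l
  have h1 := abs_y0f s l
  have h2 := abs_yy s
  have h3 : 2 * qq M r * |Yf s l| = |2 * qq M r * Yf s l| := by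
    rw [abs_mul, abs_of_pos (show 0 < 2 * qq M r by positivity)]
  rw [h3, h]
  calc |y0f s l - yy s + Mf s l| ≤ |y0f s l - yy s| + |Mf s l| := abs_add_le _ _
    _ ≤ (|y0f s l| + |yy s|) + |Mf s l| := by
        gcongr
        exact abs_sub _ _
    _ ≤ 2 + |Mf s l| := by linarith

lemma nrm_Y_le {n T : ℕ} (h : n ≤ T) :
    nrm (EE M r n) (fun p => |Yf p.1 p.2|) ≤ y1 M r T := by
  have hq := qq_pos hM hr
  have hρ := one_le_rho hM hr T
  have hE := EE_isExp hM hr n
  have h1 : nrm (EE M r n) (fun p => |Yf p.1 p.2|) ≤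
      nrm (EE M r n) (fun p => (1 / (2 * qq M r)) * (2 + |Mf p.1 p.2|)) := by
    apply hE.nrm_mono
    intro p
    have h2 := absY_le hM hr p.1 p.2
    have h3 : |Yf p.1 p.2| ≤ (1 / (2 * qq M r)) * (2 + |Mf p.1 p.2|) := by
      rw [one_div, inv_mul_eq_div, le_div_iff₀ (by positivity)]
      linarith
    rw [abs_abs]
    exact h3.trans (le_abs_self _)
  refine h1.trans ?_
  rw [nrm_const_mul, abs_of_pos (by positivity)]
  have h2 : nrm (EE M r n) (fun p => 2 + |Mf p.1 p.2|) ≤ 2 + rho M r T := by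
    refine (hE.nrm_add _ _).trans ?_
    rw [hE.nrm_const]
    have := nrm_M_le hM hr h
    norm_num
    exact this
  unfold y1
  rw [one_div, inv_mul_eq_div]
  apply div_le_div_of_nonneg_right _ (by positivity)
  linarith

lemma nrm_Y3_le {n T : ℕ} (h : n ≤ T) :
    nrm (EE M r n) (fun p => |Yf p.1 p.2| ^ 3) ≤ y3 M r T := by
  have hq := qq_pos hM hr
  have hρ := one_le_rho hM hr T
  have hE := EE_isExp hM hr n
  have h1 : nrm (EE M r n) (fun p => |Yf p.1 p.2| ^ 3) ≤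
      nrm (EE M r n) (fun p => (1 / (8 * qq M r ^ 3)) * (4 * 8 + 4 * |Mf p.1 p.2| ^ 3)) := by
    apply hE.nrm_mono
    intro p
    have h2 := absY_le hM hr p.1 p.2
    have hm := abs_nonneg (Mf p.1 p.2)
    have hy := abs_nonneg (Yf p.1 p.2)
    have h3 : (2 * qq M r * |Yf p.1 p.2|) ^ 3 ≤ (2 + |Mf p.1 p.2|) ^ 3 :=
      pow_le_pow_left₀ (by positivity) h2 3
    have h4 : (2 + |Mf p.1 p.2|) ^ 3 ≤ 4 * 8 + 4 * |Mf p.1 p.2| ^ 3 := by
      nlinarith [mul_nonneg (add_nonneg (show (0 : ℝ) ≤ 2 by norm_num) hm)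
        (sq_nonneg (|Mf p.1 p.2| - 2))]
    have h5 : |Yf p.1 p.2| ^ 3 ≤ (1 / (8 * qq M r ^ 3)) * (4 * 8 + 4 * |Mf p.1 p.2| ^ 3) := by
      rw [one_div, inv_mul_eq_div, le_div_iff₀ (by positivity)]
      nlinarith
    rw [abs_of_nonneg (show 0 ≤ |Yf p.1 p.2| ^ 3 by positivity)]
    exact h5.trans (le_abs_self _)
  refine h1.trans ?_
  rw [nrm_const_mul, abs_of_pos (by positivity)]
  have h2 : nrm (EE M r n) (fun p => 4 * 8 + 4 * |Mf p.1 p.2| ^ 3) ≤
      4 * 8 + 4 * rho M r T ^ 3 := by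
    refine (hE.nrm_add _ _).trans ?_
    rw [hE.nrm_const, nrm_const_mul]
    have := nrm_M3_le hM hr h
    rw [abs_of_pos (by norm_num : (0 : ℝ) < 4 * 8), abs_of_pos (by norm_num : (0 : ℝ) < 4)]
    linarith
  unfold y3
  rw [one_div, inv_mul_eq_div, div_le_div_iff₀ (by positivity) (by positivity)]
  have h5 : 1 ≤ rho M r T ^ 3 := one_le_pow₀ hρ
  have h6 : nrm (EE M r n) (fun p => 4 * 8 + 4 * |Mf p.1 p.2| ^ 3) ≤ 40 * rho M r T ^ 3 := by
    linarith
  nlinarith [mul_le_mul_of_nonneg_right h6 (show 0 ≤ qq M r ^ 3 by positivity)]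

lemma yy_sa_bound (a : Bool) (s : SS M r) :
    0 ≤ 1 - cc M r * (1 + sa a * yy s) ∧ 1 - cc M r * (1 + sa a * yy s) ≤ 1 := by
  have h1 := cc_pos hM hr
  have h2 := cc_le_one hM hr
  have h3 := abs_le.1 (abs_yy s)
  rcases sa_cases a with h | h <;> rw [h] <;> constructor <;> nlinarith

omit hM hr in
lemma Pp_step (x h : ℝ) :
    Pp (x + h) - (1 + h) * Pp x = -(h * x ^ 3 / 6) + h ^ 2 / 2 * (1 + x) + h ^ 3 / 6 := by
  unfold Pp; ring

/-- Bound for the residual of the recursion of `tau`. -/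
noncomputable def resB (M r T : ℕ) : ℝ :=
  (M * r : ℝ) * (cp M r ^ 4 * y3 M r T / 6 + cp M r ^ 2 / 2 * (1 + cp M r * y1 M r T) +
    cp M r ^ 3 / 6)

lemma tau_step (a : Bool) (t : ℕ) (s' s : SS M r) (l : List (SS M r)) :
    |(1 - cc M r * (1 + sa a * yy s)) * tau a t s l - tau a (t + 1) s' (s :: l)| ≤
      (M * r : ℝ) * (cp M r ^ 4 * |Yf s l| ^ 3 / 6 +
        cp M r ^ 2 / 2 * (1 + cp M r * |Yf s l|) + cp M r ^ 3 / 6) := by
  have h1 := cc_pos hM hr
  have h2 := cc_le_one hM hr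
  have hβ := beta_pow_le hM hr (t + 1)
  have hcp := cp_pos hM hr
  set x := - sa a * cp M r * Yf s l with hx
  set h := - sa a * cp M r * yy s with hh
  have e1 : (1 - cc M r * (1 + sa a * yy s)) = (1 - cc M r) * (1 + h) := by
    rw [hh]; unfold cp
    have : 1 - cc M r ≠ 0 := by linarith
    field_simp
    ring
  have e2 : (1 - cc M r * (1 + sa a * yy s)) * tau a t s l - tau a (t + 1) s' (s :: l) =
      -((M * r : ℝ) * (1 - cc M r) ^ (t + 1) * (Pp (x + h) - (1 + h) * Pp x)) := by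
    rw [e1]
    unfold tau
    have : - sa a * cp M r * Yf s' (s :: l) = x + h := by
      rw [hx, hh]; simp only [Yf]; ring
    rw [this, ← hx]
    ring
  rw [e2, abs_neg, abs_mul, Pp_step]
  have hm : (0 : ℝ) ≤ M * r := by positivity
  rw [abs_of_nonneg (mul_nonneg hm hβ.1)]
  have hxa : |x| = cp M r * |Yf s l| := by
    rw [hx, abs_mul, abs_mul, abs_of_pos hcp, abs_neg]
    rcases sa_cases a with h | h <;> rw [h] <;> norm_num
  have hha : |h| ≤ cp M r := by
    rw [hh, abs_mul, abs_mul, abs_of_pos hcp, abs_neg]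
    have := abs_yy s
    rcases sa_cases a with h | h <;> rw [h] <;> norm_num <;> nlinarith
  have hb : |-(h * x ^ 3 / 6) + h ^ 2 / 2 * (1 + x) + h ^ 3 / 6| ≤
      cp M r ^ 4 * |Yf s l| ^ 3 / 6 + cp M r ^ 2 / 2 * (1 + cp M r * |Yf s l|) +
        cp M r ^ 3 / 6 := by
    refine (abs_add_le _ _).trans (add_le_add ((abs_add_le _ _).trans (add_le_add ?_ ?_)) ?_)
    · rw [abs_neg, abs_div, abs_mul, abs_pow, hxa]
      norm_num
      rw [div_le_div_iff_of_pos_right (by norm_num)]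
      calc |h| * (cp M r * |Yf s l|) ^ 3 ≤ cp M r * (cp M r * |Yf s l|) ^ 3 := by
            apply mul_le_mul_of_nonneg_right hha (by positivity)
        _ = cp M r ^ 4 * |Yf s l| ^ 3 := by ring
    · rw [abs_mul]
      have a1 : |h ^ 2 / 2| ≤ cp M r ^ 2 / 2 := by
        rw [abs_of_nonneg (by positivity), div_le_div_iff_of_pos_right (by norm_num), ← sq_abs]
        exact pow_le_pow_left₀ (abs_nonneg _) hha 2
      have a2 : |1 + x| ≤ 1 + cp M r * |Yf s l| := by
        rw [← hxa]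
        refine (abs_add_le _ _).trans ?_
        simp
      exact mul_le_mul a1 a2 (abs_nonneg _) (by positivity)
    · rw [abs_div, abs_pow]
      norm_num
      rw [div_le_div_iff_of_pos_right (by norm_num)]
      exact pow_le_pow_left₀ (abs_nonneg _) hha 3
  have hR : 0 ≤ cp M r ^ 4 * |Yf s l| ^ 3 / 6 + cp M r ^ 2 / 2 * (1 + cp M r * |Yf s l|) +
        cp M r ^ 3 / 6 := by positivity
  calc (M * r : ℝ) * (1 - cc M r) ^ (t + 1) * |-(h * x ^ 3 / 6) + h ^ 2 / 2 * (1 + x) + h ^ 3 / 6|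
      ≤ (M * r : ℝ) * 1 * (cp M r ^ 4 * |Yf s l| ^ 3 / 6 +
        cp M r ^ 2 / 2 * (1 + cp M r * |Yf s l|) + cp M r ^ 3 / 6) := by
        apply mul_le_mul _ hb (abs_nonneg _) (by positivity)
        exact mul_le_mul_of_nonneg_left hβ.2 hm
    _ = _ := by ring

/-- The total predictable error per step. -/
noncomputable def kap (M r T : ℕ) : ℝ := 2 * qq M r + resB M r T

lemma y1_nonneg (T : ℕ) : 0 ≤ y1 M r T := by
  have := qq_pos hM hr
  have := one_le_rho hM hr T
  unfold y1; positivity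

lemma y3_nonneg (T : ℕ) : 0 ≤ y3 M r T := by
  have := qq_pos hM hr
  have := one_le_rho hM hr T
  unfold y3; positivity

lemma resB_nonneg (T : ℕ) : 0 ≤ resB M r T := by
  have := y1_nonneg hM hr T
  have := y3_nonneg hM hr T
  have := cp_pos hM hr
  unfold resB; positivity

lemma nrm_res {n T : ℕ} (h : n ≤ T) :
    nrm (EE M r n) (fun p => (M * r : ℝ) * (cp M r ^ 4 * |Yf p.1 p.2| ^ 3 / 6 +
        cp M r ^ 2 / 2 * (1 + cp M r * |Yf p.1 p.2|) + cp M r ^ 3 / 6)) ≤ resB M r T := by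
  have hE := EE_isExp hM hr n
  have hcp := cp_pos hM hr
  rw [nrm_const_mul, abs_of_nonneg (by positivity)]
  unfold resB
  apply mul_le_mul_of_nonneg_left _ (by positivity)
  have e1 : (fun p : SS M r × List (SS M r) => cp M r ^ 4 * |Yf p.1 p.2| ^ 3 / 6 +
        cp M r ^ 2 / 2 * (1 + cp M r * |Yf p.1 p.2|) + cp M r ^ 3 / 6) =
      fun p => (cp M r ^ 4 / 6) * |Yf p.1 p.2| ^ 3 + (cp M r ^ 3 / 2) * |Yf p.1 p.2| +
        (cp M r ^ 2 / 2 + cp M r ^ 3 / 6) := by
    ext p; ring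
  rw [e1]
  refine (hE.nrm_add _ _).trans ?_
  rw [hE.nrm_const, abs_of_nonneg (by positivity)]
  have h1 := hE.nrm_add (fun p : SS M r × List (SS M r) => (cp M r ^ 4 / 6) * |Yf p.1 p.2| ^ 3)
    (fun p => (cp M r ^ 3 / 2) * |Yf p.1 p.2|)
  rw [nrm_const_mul, nrm_const_mul, abs_of_nonneg (show 0 ≤ cp M r ^ 4 / 6 by positivity),
    abs_of_nonneg (show 0 ≤ cp M r ^ 3 / 2 by positivity)] at h1
  have h2 := mul_le_mul_of_nonneg_left (nrm_Y3_le hM hr h)
    (show 0 ≤ cp M r ^ 4 / 6 by positivity)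
  have h3 := mul_le_mul_of_nonneg_left (nrm_Y_le hM hr h)
    (show 0 ≤ cp M r ^ 3 / 2 by positivity)
  nlinarith

lemma ea_rec (a : Bool) {n T : ℕ} (h : n ≤ T) :
    nrm (EE M r (n + 1)) (fun p => uu a p.1 p.2 - tau a (n + 1) p.1 p.2) ≤
      Real.sqrt ((nrm (EE M r n) (fun p => uu a p.1 p.2 - tau a n p.1 p.2) + kap M r T) ^ 2 +
        2 ^ 2) := by
  have hE := EE_isExp hM hr n
  have hq := qq_pos hM hr
  apply (isChain_KK hM hr).nrm_next n _
    (fun p => uu a p.1 p.2 - (M * r : ℝ) * (1 - cc M r) ^ (n + 1) *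
      Pp (- sa a * cp M r * (Yf p.1 p.2 + yy p.1)))
  · intro s' p
    have : tau a (n + 1) s' (p.1 :: p.2) = (M * r : ℝ) * (1 - cc M r) ^ (n + 1) *
      Pp (- sa a * cp M r * (Yf p.1 p.2 + yy p.1)) := rfl
    simp only [this]
    have h2 := uu_diff a s' p.1 p.2
    simpa using h2
  · have e1 : ∀ p : SS M r × List (SS M r),
        step KK p.1 (fun s' => uu a s' (p.1 :: p.2) - tau a (n + 1) s' (p.1 :: p.2)) =
        ((1 - cc M r * (1 + sa a * yy p.1)) * (uu a p.1 p.2 - tau a n p.1 p.2) +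
        (step KK p.1 (fun s' => uu a s' (p.1 :: p.2)) -
          (1 - cc M r * (1 + sa a * yy p.1)) * uu a p.1 p.2)) +
        ((1 - cc M r * (1 + sa a * yy p.1)) * tau a n p.1 p.2 - (M * r : ℝ) *
          (1 - cc M r) ^ (n + 1) * Pp (- sa a * cp M r * (Yf p.1 p.2 + yy p.1))) := by
      intro p
      rw [IsExp.sub']
      have : (fun s' : SS M r => tau a (n + 1) s' (p.1 :: p.2)) = fun _ => (M * r : ℝ) *
          (1 - cc M r) ^ (n + 1) * Pp (- sa a * cp M r * (Yf p.1 p.2 + yy p.1)) := rfl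
      rw [this, ((isChain_KK hM hr).stepE p.1).const]
      ring
    have e2 : nrm (EE M r n) (fun p => step KK p.1 (fun s' => uu a s' (p.1 :: p.2) -
        tau a (n + 1) s' (p.1 :: p.2))) ≤
        nrm (EE M r n) (fun p => uu a p.1 p.2 - tau a n p.1 p.2) + 2 * qq M r + resB M r T := by
      simp_rw [e1]
      refine (hE.nrm_add _ _).trans (add_le_add ((hE.nrm_add _ _).trans (add_le_add ?_ ?_)) ?_)
      · apply hE.nrm_mono
        intro p
        rw [abs_mul]
        have := yy_sa_bound hM hr a p.1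
        rw [abs_of_nonneg this.1]
        nlinarith [abs_nonneg (uu a p.1 p.2 - tau a n p.1 p.2), this.2]
      · exact hE.nrm_le_const fun p => step_uu hM hr a p.1 p.2
      · refine le_trans (hE.nrm_mono ?_) (nrm_res hM hr h)
        intro p
        have := tau_step hM hr a n p.1 p.1 p.2
        have e3 : tau a (n + 1) p.1 (p.1 :: p.2) = (M * r : ℝ) * (1 - cc M r) ^ (n + 1) *
          Pp (- sa a * cp M r * (Yf p.1 p.2 + yy p.1)) := rfl
        rw [e3] at this
        exact this.trans (le_abs_self _)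
    unfold kap
    linarith

lemma ea_zero (a : Bool) :
    nrm (EE M r 0) (fun p => uu a p.1 p.2 - tau a 0 p.1 p.2) ≤ 2 := by
  have hE := EE_isExp hM hr 0
  have h1 : ∀ s : SS M r, (uu a s [] - tau a 0 s []) ^ 2 ≤ 2 ^ 2 := by
    intro s
    have e1 : tau a 0 s [] = (M * r : ℝ) := by
      unfold tau Pp; simp [Yf]
    have e2 : uu a s [] ≤ M * r := by
      have : uu a s [] ≤ ∑ _z : Fin M × Fin r, (1 : ℝ) :=
        Finset.sum_le_sum fun z _ => nv_le_one _ _ _
      simpa using this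
    have e3 : (M * r : ℝ) - 2 ≤ uu a s [] := by
      have h2 : ∀ z : Fin M × Fin r, 1 - (if z = s.1.2 then 1 else 0) -
          (if z = s.2.1.2 then 1 else 0) ≤ nv (a, z) s [] := by
        intro z
        simp only [nv]
        by_cases e1 : s.1 = (a, z)
        · have : z = s.1.2 := by rw [e1]
          rw [if_pos this]
          have := nv_nonneg (a, z) s []
          simp only [nv] at this
          split_ifs at this ⊢ <;> linarith
        · by_cases e2 : s.2.1 = (a, z)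
          · have : z = s.2.1.2 := by rw [e2]
            rw [if_pos this]
            have := nv_nonneg (a, z) s []
            simp only [nv] at this
            split_ifs at this ⊢ <;> linarith
          · rw [if_neg e1, if_neg e2]
            split_ifs <;> norm_num
      have h3 := Finset.sum_le_sum (s := Finset.univ) fun z _ => h2 z
      rw [Finset.sum_sub_distrib, Finset.sum_sub_distrib] at h3
      simp at h3
      unfold uu
      linarith
    rw [e1]
    nlinarith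
  rw [nrm_le_iff (by norm_num)]
  have h2 : (EE M r 0) (fun p => (uu a p.1 p.2 - tau a 0 p.1 p.2) ^ 2) ≤
      (EE M r 0) (fun _ => 2 ^ 2) := by
    rw [Ex_zero, Ex_zero]
    apply Finset.sum_le_sum
    intro s _
    apply mul_le_mul_of_nonneg_left (h1 s)
    unfold mu0; positivity
  rwa [hE.const] at h2

/-- Bound for `‖u_a - τ_a‖` up to time `T`. -/
noncomputable def eB (M r T : ℕ) : ℝ := 2 + kap M r T * T + 2 * Real.sqrt T

lemma kap_nonneg (T : ℕ) : 0 ≤ kap M r T := by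
  have := resB_nonneg hM hr T
  have := qq_pos hM hr
  unfold kap; positivity

lemma ea_le (a : Bool) {n T : ℕ} (h : n ≤ T) :
    nrm (EE M r n) (fun p => uu a p.1 p.2 - tau a n p.1 p.2) ≤ eB M r T := by
  have h1 := sqrt_rec (b := fun t => nrm (EE M r t) (fun p => uu a p.1 p.2 - tau a t p.1 p.2))
    (b0 := 2) (κ := kap M r T) (g := 2 ^ 2) (T := T) (by norm_num) (kap_nonneg hM hr T)
    (by norm_num) (ea_zero hM hr a) (fun t => nrm_nonneg _)
    (fun t ht => ea_rec hM hr a ht.le) n h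
  refine h1.trans ?_
  unfold eB
  have hn : (n : ℝ) ≤ T := by exact_mod_cast h
  have h2 : Real.sqrt (2 ^ 2 * n) ≤ 2 * Real.sqrt T := by
    rw [Real.sqrt_mul (by norm_num), Real.sqrt_sq (by norm_num)]
    have := Real.sqrt_le_sqrt hn
    linarith
  have h3 := mul_le_mul_of_nonneg_left hn (kap_nonneg hM hr T)
  linarith

end

end TwoWalks
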