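import Pool.Agent.TwoWalks.Kurt

/-! The numbers of unvisited vertices in the two halves and the difference of the counts. -/

namespace TwoWalks

/-- General `L²` step. -/
lemma IsChain.nrm_next {S : Type*} [Fintype S] {μ : S → ℝ} {K : S → S → ℝ} (h : IsChain μ K)
    (n : ℕ) (Φ C : S × List S → ℝ) {a b : ℝ}
    (hb : ∀ s' p, |Φ (s', p.1 :: p.2) - C p| ≤ b)
    (ha : nrm (Ex μ K n) (fun p => step K p.1 (fun s' => Φ (s', p.1 :: p.2))) ≤ a) :
    nrm (Ex μ K (n + 1)) Φ ≤ Real.sqrt (a ^ 2 + b ^ 2) := by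
  apply h.nrm_orth n Φ (fun p => step K p.1 (fun s' => Φ (s', p.1 :: p.2)))
    (fun s' p => Φ (s', p.1 :: p.2) - step K p.1 (fun s' => Φ (s', p.1 :: p.2))) ha
  · intro s' p; ring
  · intro p
    rw [IsExp.sub', (h.stepE p.1).const, sub_self]
  · intro p
    exact (h.stepE p.1).var_le (a := C p) (fun s' => hb s' p)

variable {M r : ℕ}

/-- Indicator that `v` is unvisited. -/
noncomputable def nv (v : VV M r) : SS M r → List (SS M r) → ℝ
  | s, [] => (if s.1 = v then 0 else 1) * (if s.2.1 = v then 0 else 1)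
  | s', s :: h => nv v s h * ((if s'.1 = v then 0 else 1) * (if s'.2.1 = v then 0 else 1))

lemma nv_cases (v : VV M r) (s : SS M r) (l : List (SS M r)) : nv v s l = 0 ∨ nv v s l = 1 := by
  induction l generalizing s with
  | nil => unfold nv; split_ifs <;> simp
  | cons a l ih =>
    unfold nv
    rcases ih a with h | h <;> rw [h] <;> split_ifs <;> simp

lemma nv_nonneg (v : VV M r) (s : SS M r) (l : List (SS M r)) : 0 ≤ nv v s l := by
  rcases nv_cases v s l with h | h <;> rw [h] <;> norm_num

lemma nv_le_one (v : VV M r) (s : SS M r) (l : List (SS M r)) : nv v s l ≤ 1 := by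
  rcases nv_cases v s l with h | h <;> rw [h] <;> norm_num

lemma nv_fst (s : SS M r) (l : List (SS M r)) : nv s.1 s l = 0 := by
  cases l with
  | nil => simp [nv]
  | cons a l => simp [nv]

lemma nv_snd (s : SS M r) (l : List (SS M r)) : nv s.2.1 s l = 0 := by
  cases l with
  | nil => simp [nv]
  | cons a l => simp [nv]

/-- The number of unvisited vertices in the half `a`. -/
noncomputable def uu (a : Bool) (s : SS M r) (l : List (SS M r)) : ℝ :=
  ∑ z : Fin M × Fin r, nv (a, z) s l

/-- The sign of the half `a`. -/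
def sa (a : Bool) : ℝ := if a then -1 else 1

lemma sa_cases (a : Bool) : sa a = 1 ∨ sa a = -1 := by cases a <;> simp [sa]

lemma half_ind (a : Bool) (x : VV M r) :
    (if x.1 = a then (1 : ℝ) else 0) = (1 + sa a * sg x) / 2 := by
  unfold sa sg
  rcases x with ⟨b, z⟩
  cases a <;> cases b <;> norm_num

section

variable (hM : 0 < M) (hr : 0 < r)
include hM hr

lemma sum_pk_ne (x v : VV M r) : ∑ y, pk x y * (if y = v then 0 else 1) = 1 - pk x v := by
  have h1 : ∀ y, pk x y * (if y = v then (0 : ℝ) else 1) = pk x y - (if y = v then pk x y else 0) := by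
    intro y; split_ifs <;> ring
  simp_rw [h1]
  rw [Finset.sum_sub_distrib, pk_row hM hr]
  simp

lemma step_nv (v : VV M r) (s : SS M r) (h : List (SS M r)) :
    step KK s (fun s' => nv v s' (s :: h)) =
      nv v s h * ((1 - pk s.1 v) * (1 - pk s.2.1 v)) := by
  rw [step_KK]
  have h1 : ∀ x : VV M r, ∑ y, pk s.2.1 y *
      ((nv v (x, y, true) (s :: h) + nv v (x, y, false) (s :: h)) / 2) =
      (nv v s h * (if x = v then 0 else 1)) * (1 - pk s.2.1 v) := by
    intro x
    rw [← sum_pk_ne hM hr, Finset.mul_sum]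
    apply Finset.sum_congr rfl
    intro y _
    simp only [nv]
    ring
  simp_rw [h1]
  have h2 : ∀ x : VV M r, pk s.1 x * (nv v s h * (if x = v then 0 else 1) * (1 - pk s.2.1 v)) =
      (nv v s h * (1 - pk s.2.1 v)) * (pk s.1 x * (if x = v then 0 else 1)) := by
    intro x; ring
  simp_rw [h2]
  rw [← Finset.mul_sum, sum_pk_ne hM hr]
  ring

/-- The number of unvisited vertices of the half `a` in the column of `x`, if `x` is in the
other half. -/
noncomputable def crs (a : Bool) (x : VV M r) (s : SS M r) (l : List (SS M r)) : ℝ :=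
  if (!x.1) = a then ∑ j : Fin r, nv (a, x.2.1, j) s l else 0

omit hM hr in
lemma crs_nonneg (a : Bool) (x : VV M r) (s : SS M r) (l : List (SS M r)) :
    0 ≤ crs a x s l := by
  unfold crs
  split_ifs
  · exact Finset.sum_nonneg fun j _ => nv_nonneg _ _ _
  · exact le_rfl

omit hM hr in
lemma crs_le (a : Bool) (x : VV M r) (s : SS M r) (l : List (SS M r)) :
    crs a x s l ≤ r := by
  unfold crs
  split_ifs
  · have : ∑ j : Fin r, nv (a, x.2.1, j) s l ≤ ∑ _j : Fin r, (1 : ℝ) :=
      Finset.sum_le_sum fun j _ => nv_le_one _ _ _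
    simpa using this
  · exact Nat.cast_nonneg r

omit hM hr in
lemma sum_nv_pk (a : Bool) (x : VV M r) (s : SS M r) (l : List (SS M r))
    (hx : nv x s l = 0) :
    ∑ z : Fin M × Fin r, nv (a, z) s l * pk x (a, z) =
      cc M r * ((1 + sa a * sg x) / 2 * uu a s l) + cc M r * crs a x s l := by
  have h := pk_sum x (fun y => if y.1 = a then nv y s l else 0)
  have h1 : ∑ y, pk x y * (if y.1 = a then nv y s l else 0) =
      ∑ z : Fin M × Fin r, nv (a, z) s l * pk x (a, z) := by
    rw [Fintype.sum_prod_type, Finset.sum_eq_single a]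
    · apply Finset.sum_congr rfl
      intro z _
      simp only [if_true]
      ring
    · intro b _ hb
      simp [hb]
    · simp
  rw [h1] at h
  rw [h, hx, ← half_ind]
  unfold uu crs
  by_cases hxa : x.1 = a
  · subst hxa
    simp
  · have : (!x.1) = a := by
      cases hx : x.1 <;> cases ha : a <;> simp_all
    simp only [hxa, this, if_false, if_true]
    simp

lemma pk_le_cc {x v : VV M r} (h : x ≠ v) : pk x v ≤ cc M r := by
  unfold pk
  rw [if_neg h]
  have := cc_pos hM hr
  split_ifs <;> linarith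

lemma Mr_cc : (M : ℝ) * r * cc M r ≤ 1 / 2 := by
  have h := cc_rel hM hr
  have h0 := cc_pos hM hr
  have h2 : (1 : ℝ) ≤ r := by exact_mod_cast hr
  nlinarith

lemma step_uu (a : Bool) (s : SS M r) (h : List (SS M r)) :
    |step KK s (fun s' => uu a s' (s :: h)) -
      (1 - cc M r * (1 + sa a * yy s)) * uu a s h| ≤ 2 * qq M r := by
  have hc := cc_pos hM hr
  have h1 : step KK s (fun s' => uu a s' (s :: h)) =
      ∑ z : Fin M × Fin r, nv (a, z) s h * ((1 - pk s.1 (a, z)) * (1 - pk s.2.1 (a, z))) := by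
    have : (fun s' => uu a s' (s :: h)) = ∑ z : Fin M × Fin r, fun s' => nv (a, z) s' (s :: h) := by
      ext s'; simp [uu]
    rw [this, map_sum]
    exact Finset.sum_congr rfl fun z _ => step_nv hM hr _ _ _
  have h2 : ∑ z : Fin M × Fin r, nv (a, z) s h * ((1 - pk s.1 (a, z)) * (1 - pk s.2.1 (a, z))) =
      uu a s h - ∑ z : Fin M × Fin r, nv (a, z) s h * pk s.1 (a, z) -
      ∑ z : Fin M × Fin r, nv (a, z) s h * pk s.2.1 (a, z) +
      ∑ z : Fin M × Fin r, nv (a, z) s h * (pk s.1 (a, z) * pk s.2.1 (a, z)) := by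
    unfold uu
    rw [← Finset.sum_sub_distrib, ← Finset.sum_sub_distrib, ← Finset.sum_add_distrib]
    apply Finset.sum_congr rfl
    intro z _; ring
  rw [h1, h2, sum_nv_pk a s.1 s h (nv_fst s h), sum_nv_pk a s.2.1 s h (nv_snd s h)]
  have h3 : ∀ z : Fin M × Fin r, 0 ≤ nv (a, z) s h * (pk s.1 (a, z) * pk s.2.1 (a, z)) ∧
      nv (a, z) s h * (pk s.1 (a, z) * pk s.2.1 (a, z)) ≤ cc M r ^ 2 := by
    intro z
    have n1 := pk_nonneg hM hr s.1 (a, z)
    have n2 := pk_nonneg hM hr s.2.1 (a, z)
    rcases nv_cases (a, z) s h with h0 | h0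
    · rw [h0]; simp; positivity
    · have d1 : s.1 ≠ (a, z) := by
        intro e
        have := nv_fst s h
        rw [e, h0] at this; norm_num at this
      have d2 : s.2.1 ≠ (a, z) := by
        intro e
        have := nv_snd s h
        rw [e, h0] at this; norm_num at this
      have e1 := pk_le_cc hM hr d1
      have e2 := pk_le_cc hM hr d2
      rw [h0]
      constructor
      · positivity
      · nlinarith
  have h4 : 0 ≤ ∑ z : Fin M × Fin r, nv (a, z) s h * (pk s.1 (a, z) * pk s.2.1 (a, z)) :=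
    Finset.sum_nonneg fun z _ => (h3 z).1
  have h5 : ∑ z : Fin M × Fin r, nv (a, z) s h * (pk s.1 (a, z) * pk s.2.1 (a, z)) ≤
      (M : ℝ) * r * cc M r ^ 2 := by
    refine (Finset.sum_le_sum fun z _ => (h3 z).2).trans ?_
    simp
  have h6 : (M : ℝ) * r * cc M r ^ 2 ≤ cc M r / 2 := by
    have := Mr_cc hM hr
    nlinarith
  have c1 := crs_nonneg a s.1 s h
  have c2 := crs_nonneg a s.2.1 s h
  have c3 := crs_le a s.1 s h
  have c4 := crs_le a s.2.1 s h
  have hr1 : (1 : ℝ) ≤ r := by exact_mod_cast hr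
  have hq : qq M r = r * cc M r := rfl
  have hy : yy s = (sg s.1 + sg s.2.1) / 2 := rfl
  rw [hq, hy, abs_le]
  constructor
  · nlinarith
  · nlinarith

omit hM hr in
lemma uu_diff (a : Bool) (s' s : SS M r) (h : List (SS M r)) :
    |uu a s' (s :: h) - uu a s h| ≤ 2 := by
  have h1 : ∀ z : Fin M × Fin r, 0 ≤ nv (a, z) s h - nv (a, z) s' (s :: h) ∧
      nv (a, z) s h - nv (a, z) s' (s :: h) ≤
      (if (a, z) = s'.1 then 1 else 0) + (if (a, z) = s'.2.1 then 1 else 0) := by
    intro z
    have h0 := nv_nonneg (a, z) s h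
    have h0' := nv_le_one (a, z) s h
    simp only [nv]
    by_cases e1 : s'.1 = (a, z)
    · have e1' : (a, z) = s'.1 := e1.symm
      rw [if_pos e1, if_pos e1']
      split_ifs <;> constructor <;> simp <;> linarith
    · have e1' : ¬ (a, z) = s'.1 := fun e => e1 e.symm
      rw [if_neg e1, if_neg e1']
      by_cases e2 : s'.2.1 = (a, z)
      · have e2' : (a, z) = s'.2.1 := e2.symm
        rw [if_pos e2, if_pos e2']
        constructor <;> linarith
      · have e2' : ¬ (a, z) = s'.2.1 := fun e => e2 e.symm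
        rw [if_neg e2, if_neg e2']
        constructor <;> linarith
  have h2 : ∀ x : VV M r, ∑ z : Fin M × Fin r, (if ((a, z) : VV M r) = x then (1 : ℝ) else 0) ≤ 1 := by
    intro x
    by_cases hx : x.1 = a
    · have : ∀ z : Fin M × Fin r, (if ((a, z) : VV M r) = x then (1 : ℝ) else 0) =
          if z = x.2 then 1 else 0 := by
        intro z
        have : ((a, z) : VV M r) = x ↔ z = x.2 := by
          constructor
          · rintro rfl; rfl
          · rintro rfl; rw [← hx]
        simp only [this]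
      simp_rw [this]
      simp
    · rw [Finset.sum_eq_zero]
      · norm_num
      · intro z _
        rw [if_neg]
        rintro rfl
        exact hx rfl
  have h3 : uu a s h - uu a s' (s :: h) = ∑ z : Fin M × Fin r,
      (nv (a, z) s h - nv (a, z) s' (s :: h)) := by
    unfold uu; rw [Finset.sum_sub_distrib]
  have h4 : 0 ≤ uu a s h - uu a s' (s :: h) := by
    rw [h3]; exact Finset.sum_nonneg fun z _ => (h1 z).1
  have h5 : uu a s h - uu a s' (s :: h) ≤ 2 := by
    rw [h3]
    refine (Finset.sum_le_sum fun z _ => (h1 z).2).trans ?_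
    rw [Finset.sum_add_distrib]
    linarith [h2 s'.1, h2 s'.2.1]
  rw [abs_le]; constructor <;> linarith

end

end TwoWalks
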